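import Pool.Agent.Lib.MP_f095a5_lc.Forward

/-!
# The problems used in the hard direction
-/

open Encodable

namespace Pool.Agent.Lib.MP_f095a5_lc

/-- The first hidden problem. -/
def omg (w : ℕ → ℕ × ℕ) : Problem := fun x => {cst (w (x 0)).1}

/-- The second hidden problem. -/
def nuu (w : ℕ → ℕ × ℕ) : Problem := fun x => {cst (w (x 0)).2}

/-- Trees of depth `D` with a correct leaf. -/
def Good (f : Problem) (w : ℕ → ℕ × ℕ) (x : B) (i : ℕ) : ℕ → ℕ → B → Prop
  | 0, n, T => T 0 = 0 ∧ T 1 = (w i).1 ∧ ∀ j ≤ n, col (tail (tail T)) j ∈ f (col x j)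
  | D + 1, n, T => T 0 = 1 ∧ ∃ T', App (tail (tail T)) (cst (w (T 1)).2) T' ∧
      Good f w x i D (n + 1) T'

/-- The problem `h` of the hard direction. -/
def hh (f : Problem) (w : ℕ → ℕ × ℕ) : Problem := fun y =>
  {T | (hat f (fst y)).Nonempty ∧
    ∃ D, Good f w (fst y) (snd y 0).unpair.1 D (snd y 0).unpair.2 T}

theorem hh_nonempty {f : Problem} {w : ℕ → ℕ × ℕ} {y : B} :
    (hh f w y).Nonempty ↔ (hat f (fst y)).Nonempty := by
  constructor
  · rintro ⟨T, h, _⟩; exact h
  · rintro ⟨S, hS⟩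
    refine ⟨cons 0 (cons (w (snd y 0).unpair.1).1 S), ⟨S, hS⟩, 0, rfl, rfl, fun j _ => ?_⟩
    rw [tail_cons, tail_cons]
    exact hS j

theorem hh_le (f : Problem) (w : ℕ → ℕ × ℕ) :
    WRed (hh f w) (prod (prod f (fstar f)) (omg w)) := by
  refine WRed.of_ops (fun X => pairS (pairS (colS (fstS X) 0)
      (consS (fun v => ∃ c, (0, c) ∈ sndS X ∧ c.unpair.2 + 1 = v) (fstS X)))
      (numS fun v => ∃ c, (0, c) ∈ sndS X ∧ c.unpair.1 = v))
    (fun X => consS (fun v => 0 = v) (consS (fun v => (0, v) ∈ sndS (sndS X))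
      (sndS (fstS (sndS X))))) ?_ ?_ ?_
  · apply FOp.pair
    · apply FOp.pair
      · exact FOp.id.fst.col (Primrec.const 0)
      · apply FOp.cons (N := fun X _ v => ∃ c, (0, c) ∈ sndS X ∧ c.unpair.2 + 1 = v) _ FOp.id.fst
        exact FOp.test (FOp.id (α := Unit × ℕ)).snd 0
          (C := fun (a : Unit × ℕ) c => c.unpair.2 + 1 = a.2)
          (Primrec.eq.comp (Primrec.succ.comp (primrec_unpair2.comp Primrec.snd))
            (Primrec.snd.comp Primrec.fst))
    · apply FOp.num (N := fun X _ v => ∃ c, (0, c) ∈ sndS X ∧ c.unpair.1 = v)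
      exact FOp.test (FOp.id (α := Unit × ℕ)).snd 0
          (C := fun (a : Unit × ℕ) c => c.unpair.1 = a.2)
          (Primrec.eq.comp (primrec_unpair1.comp Primrec.snd)
            (Primrec.snd.comp Primrec.fst))
  · apply FOp.cons (N := fun _ _ v => 0 = v)
    · apply PS.of_re
      apply RE.of_pred
      exact Primrec.eq.comp (Primrec.const 0) Primrec.snd
    · apply FOp.cons (N := fun X _ v => (0, v) ∈ sndS (sndS X)) _ FOp.id.snd.fst.snd
      exact (FOp.id (α := Unit)).snd.snd.evalAt 0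
  · intro y hy
    rw [hh_nonempty, hat_nonempty] at hy
    refine ⟨pair (pair (col (fst y) 0) (cons ((snd y 0).unpair.2 + 1) (fst y)))
      (cst (snd y 0).unpair.1), ?_, ?_, ?_⟩
    · simp only [fstS_G, sndS_G, colS_G]
      rw [consS_eq (a := (snd y 0).unpair.2 + 1) (x := fst y), pairS_G,
        numS_eq (c := (snd y 0).unpair.1), pairS_G]
      · intro v
        constructor
        · rintro ⟨c, hc, hc'⟩
          have hc2 : snd y 0 = c := hc
          subst hc2
          exact hc'
        · intro h; exact ⟨snd y 0, rfl, h⟩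
      · intro v
        constructor
        · rintro ⟨c, hc, hc'⟩
          have hc2 : snd y 0 = c := hc
          subst hc2
          exact hc'
        · intro h; exact ⟨snd y 0, rfl, h⟩
      · rfl
    · rw [prod_nonempty, prod_nonempty, fstar_nonempty]
      simp only [fst_pair, snd_pair, tail_cons]
      exact ⟨⟨hy 0, fun j _ => hy j⟩, ⟨_, rfl⟩⟩
    · rintro v ⟨⟨_, hv2⟩, hv3⟩
      simp only [fst_pair, snd_pair] at hv2 hv3
      have hv4 : snd v = cst (w (snd y 0).unpair.1).1 := hv3
      refine ⟨cons 0 (cons (w (snd y 0).unpair.1).1 (snd (fst v))), ⟨hat_nonempty.2 hy, 0, rfl, rfl,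
        fun j hj => ?_⟩, ?_⟩
      · have h5 := hv2 j (Nat.lt_succ_of_le hj)
        rw [tail_cons] at h5
        rw [tail_cons, tail_cons]
        exact h5
      · simp only [fstS_G, sndS_G, snd_pair]
        apply consS_eq (a := 0) (fun v => Iff.rfl)
        apply consS_eq _ rfl
        intro v'
        rw [hv4]
        exact Iff.rfl

theorem hh_immune (f : Problem) (w : ℕ → ℕ × ℕ) (c : Problem)
    (hc : WRed (hh f w) (star (nuu w) c)) : WRed (hh f w) c := by
  obtain ⟨k, j, hk, hj, H⟩ := hc.elim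
  obtain ⟨r0, hr0, hr0'⟩ := FOp.exists_name (Ψ := fun X => appS (G j)
      (pairS (fstS (fstS X)) (pairS (sndS (fstS X)) (sndS X))))
      ((FOp.constReal hj).app (FOp.id.fst.fst.pair (FOp.id.fst.snd.pair FOp.id.snd)))
  -- the instance with the counter incremented
  let W : PSet → PSet := fun X => pairS (fstS X)
    (numS fun v => ∃ c, (0, c) ∈ sndS X ∧ Nat.pair c.unpair.1 (c.unpair.2 + 1) = v)
  have hW : FOp fun X (_ : Unit) => W X := by
    apply FOp.id.fst.pair
    apply FOp.num (N := fun X _ v => ∃ c, (0, c) ∈ sndS X ∧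
      Nat.pair c.unpair.1 (c.unpair.2 + 1) = v)
    exact FOp.test (FOp.id (α := Unit × ℕ)).snd 0
      (C := fun (a : Unit × ℕ) c => Nat.pair c.unpair.1 (c.unpair.2 + 1) = a.2)
      (Primrec.eq.comp (Primrec₂.natPair.comp (primrec_unpair1.comp Primrec.snd)
        (Primrec.succ.comp (primrec_unpair2.comp Primrec.snd)))
        (Primrec.snd.comp Primrec.fst))
  have hWf : FOp fun X (_ : Unit) => W (fstS X) := FOp.opcomp hW FOp.id.fst
  let Z : PSet → PSet := fun X => appS (fstS (appS (G k) (W (fstS X)))) (sndS X)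
  have hZ : FOp fun X (_ : Unit) => Z X := (((FOp.constReal hk).app hWf).fst).app FOp.id.snd
  refine WRed.of_ops (fun X => sndS (appS (G k) (W X)))
    (fun X => consS (fun v => 1 = v) (consS (fun v => (0, v) ∈ Z X)
      (smnS (G r0) (pairS (W (fstS X)) (sndS X))))) ?_ ?_ ?_
  · exact ((FOp.constReal hk).app hW).snd
  · apply FOp.cons (N := fun _ _ v => 1 = v)
    · apply PS.of_re
      apply RE.of_pred
      exact Primrec.eq.comp (Primrec.const 1) Primrec.snd
    · apply FOp.cons (N := fun X _ v => (0, v) ∈ Z X)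
      · exact hZ.evalAt 0
      · exact (FOp.constReal hr0).smn (hWf.pair FOp.id.snd)
  · intro y hy
    let y' : B := pair (fst y) (cst (Nat.pair (snd y 0).unpair.1 ((snd y 0).unpair.2 + 1)))
    have hWy : W (G y) = G y' := by
      simp only [W, fstS_G, sndS_G]
      rw [numS_eq (c := Nat.pair (snd y 0).unpair.1 ((snd y 0).unpair.2 + 1)), pairS_G]
      intro v
      constructor
      · rintro ⟨c, hc, hc'⟩
        have hc2 : snd y 0 = c := hc
        subst hc2
        exact hc'
      · intro h; exact ⟨snd y 0, rfl, h⟩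
    have hy' : (hh f w y').Nonempty := by
      rw [hh_nonempty] at hy ⊢
      simpa [y'] using hy
    obtain ⟨v, hv1, hv2, hv3⟩ := H y' hy'
    rw [star_nonempty] at hv2
    obtain ⟨hc1, hc2⟩ := hv2
    refine ⟨snd v, ?_, hc1, fun t ht => ?_⟩
    · rw [hWy, hv1, sndS_G]
    · obtain ⟨z, hz, hνz⟩ := hc2 t ht
      have hst : pair t (cst (w (z 0)).2) ∈ star (nuu w) c v :=
        ⟨hc2, by simpa using ht, z, by simpa using hz, by rw [snd_pair]; exact rfl⟩
      obtain ⟨T', hT', hT''⟩ := hv3 _ hst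
      obtain ⟨_, D, hD⟩ := hT'
      refine ⟨cons 1 (cons (z 0) (smn r0 (pair y' t))), ⟨hh_nonempty.1 hy, D + 1, rfl, T', ?_, ?_⟩,
        ?_⟩
      · rw [tail_cons, tail_cons, app_iff, appS_smn, hr0', pairS_G]
        simp only [fstS_G, sndS_G, fst_pair, snd_pair]
        rw [pairS_G t, pairS_G]
        rw [pairS_G] at hT''
        exact hT''
      · simpa [y'] using hD
      · apply consS_eq (a := 1) (fun v => Iff.rfl)
        apply consS_eq
        · intro v'
          simp only [Z, fstS_G, sndS_G, fst_pair, snd_pair]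
          rw [hWy, hv1, fstS_G, hz.eq]
          exact Iff.rfl
        · simp only [fstS_G, sndS_G, fst_pair, snd_pair]
          rw [hWy, pairS_G, smnS_G]

end Pool.Agent.Lib.MP_f095a5_lc
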