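import Pool.Agent.Lib.MP_f095a5_lc.Back1

/-!
# The evaluation strategy and its correctness
-/

open Encodable

namespace Pool.Agent.Lib.MP_f095a5_lc

/-- A 6-tuple of names. -/
structure Names where
  a1 : B
  a2 : B
  b1 : B
  b2 : B
  e1 : B
  e2 : B

/-- The names witness the three properties of `g`. -/
structure Works (f p : Problem) (w : ℕ → ℕ × ℕ) (r : Names) (g : Problem) : Prop where
  one : ∀ y, (g y).Nonempty → ∃ ζ, appS (G r.a1) (G y) = G ζ ∧
    ∃ z ∈ g y, appS (G r.a2) (pairS (G y) (G (cst (w (ζ 0)).1))) = G z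
  two : ∀ y, (g y).Nonempty → ∃ y', appS (G r.b1) (G y) = G y' ∧ (g y').Nonempty ∧
    ∀ v ∈ resid (nuu w) g y', ∃ z ∈ g y, appS (G r.b2) (pairS (G y) (G v)) = G z
  three : ∀ y, (hh f w y).Nonempty → ∃ v, appS (G r.e1) (G y) = G v ∧ (star g p v).Nonempty ∧
    ∀ t ∈ star g p v, ∃ z ∈ hh f w y, appS (G r.e2) (pairS (G y) (G t)) = G z

/-- The list coded by a number. -/
def dl (n : ℕ) : List ℕ := Denumerable.ofNat (List ℕ) n

@[simp] theorem dl_encode (l : List ℕ) : dl (encode l) = l := by simp [dl]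

theorem dl_primrec : Primrec dl := Primrec.ofNat (List ℕ)

/-- The reversed list of the values of `t` at `ℓ, …, ℓ + k - 1`. -/
def lst (t : ℕ → ℕ) (ℓ : ℕ) : ℕ → List ℕ
  | 0 => []
  | k + 1 => t (ℓ + k) :: lst t ℓ k

@[simp] theorem lst_length (t : ℕ → ℕ) (ℓ k : ℕ) : (lst t ℓ k).length = k := by
  induction k with
  | zero => rfl
  | succ k ih => simp [lst, ih]

theorem lst_congr {t t' : ℕ → ℕ} {ℓ k : ℕ} (h : ∀ n < ℓ + k, t n = t' n) :
    lst t ℓ k = lst t' ℓ k := by
  induction k with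
  | zero => rfl
  | succ k ih =>
    simp only [lst]
    rw [ih (fun n hn => h n (by omega)), h (ℓ + k) (by omega)]

theorem lst_eq {t t' : ℕ → ℕ} {ℓ k : ℕ} (h : lst t ℓ k = lst t' ℓ k) :
    ∀ j < k, t (ℓ + j) = t' (ℓ + j) := by
  induction k with
  | zero => intro j hj; omega
  | succ k ih =>
    simp only [lst, List.cons.injEq] at h
    intro j hj
    rcases Nat.lt_succ_iff_lt_or_eq.1 hj with h1 | rfl
    · exact ih h.2 j h1
    · exact h.1

/-- The guess for the label. -/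
def lab (σ : List ℕ) (ℓ ι v : ℕ) : ℕ := if ι = ℓ then v else σ.getD ι 0

theorem lab_primrec (σ : List ℕ) (ℓ : ℕ) : Primrec₂ (lab σ ℓ) := by
  unfold lab
  apply Primrec.ite
  · exact Primrec.eq.comp Primrec.fst (Primrec.const ℓ)
  · exact Primrec.snd
  · exact (Primrec.list_getD 0).comp (Primrec.const σ) Primrec.fst

section

variable (r : Names) (σ : List ℕ) (ℓ : ℕ)

/-- The operator for `e 0`. -/
def Psi0 (X : PSet) : PSet :=
  appS (G r.a2) (pairS (fstS X) (numS fun c => ∃ q : ℕ × ℕ,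
    ((0, q.1) ∈ appS (G r.a1) (fstS X) ∧ (0, q.2) ∈ sndS X) ∧ lab σ ℓ q.1 q.2 = c))

/-- The operator for the tail of a node. -/
def Psi2 (X : PSet) : PSet :=
  appS (fstS (fstS X)) (pairS (appS (G r.b1) (fstS (sndS (fstS X))))
    (numS fun c => ∃ q : ℕ × ℕ, ((0, q.1) ∈ sndS (sndS (fstS X)) ∧ (0, q.2) ∈ sndS X) ∧
      encode (q.2 :: dl q.1) = c))

/-- The operator for a node. -/
def Psi1 (q2 : B) (X : PSet) : PSet :=
  appS (G r.b2) (pairS (fstS (sndS X)) (pairS
    (numS fun c => ∃ v, (0, v) ∈ sndS (sndS X) ∧ ℓ + (dl v).length = c) (smnS (G q2) X)))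

theorem FOp.test2 {α : Type*} [Primcodable α] {Ψ Θ : PSet → α → PSet} (hΨ : FOp Ψ)
    (hΘ : FOp Θ) {C : α → ℕ × ℕ → Prop} (hC : PrimrecRel C) :
    PS fun X a => ∃ q : ℕ × ℕ, ((0, q.1) ∈ Ψ X a ∧ (0, q.2) ∈ Θ X a) ∧ C a q := by
  apply PS.ex (R := fun X a (q : ℕ × ℕ) => ((0, q.1) ∈ Ψ X a ∧ (0, q.2) ∈ Θ X a) ∧ C a q)
  apply PS.and
  · apply PS.and
    · exact FOp.memAt hΨ (f := fun p : α × (ℕ × ℕ) => p.1) (g := fun p => (0, p.2.1))
        Primrec.fst (Primrec.pair (Primrec.const 0) (Primrec.fst.comp Primrec.snd))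
    · exact FOp.memAt hΘ (f := fun p : α × (ℕ × ℕ) => p.1) (g := fun p => (0, p.2.2))
        Primrec.fst (Primrec.pair (Primrec.const 0) (Primrec.snd.comp Primrec.snd))
  · exact PS.of_re (RE.of_pred (hC.comp Primrec.fst Primrec.snd))

theorem Psi0_fop (ha1 : Computable r.a1) (ha2 : Computable r.a2) :
    FOp fun X (_ : Unit) => Psi0 r σ ℓ X := by
  apply (FOp.constReal ha2).app
  apply FOp.id.fst.pair
  apply FOp.num (N := fun X _ c => ∃ q : ℕ × ℕ,
    ((0, q.1) ∈ appS (G r.a1) (fstS X) ∧ (0, q.2) ∈ sndS X) ∧ lab σ ℓ q.1 q.2 = c)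
  exact FOp.test2 (α := Unit × ℕ) ((FOp.constReal ha1).app FOp.id.fst) FOp.id.snd
    (C := fun (a : Unit × ℕ) q => lab σ ℓ q.1 q.2 = a.2)
    (Primrec.eq.comp ((lab_primrec σ ℓ).comp (Primrec.fst.comp Primrec.snd)
      (Primrec.snd.comp Primrec.snd)) (Primrec.snd.comp Primrec.fst))

theorem Psi2_fop (hb1 : Computable r.b1) : FOp fun X (_ : Unit) => Psi2 r X := by
  apply FOp.id.fst.fst.app
  apply FOp.pair
  · exact (FOp.constReal hb1).app FOp.id.fst.snd.fst
  · apply FOp.num (N := fun X _ c => ∃ q : ℕ × ℕ, ((0, q.1) ∈ sndS (sndS (fstS X)) ∧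
      (0, q.2) ∈ sndS X) ∧ encode (q.2 :: dl q.1) = c)
    exact FOp.test2 (α := Unit × ℕ) FOp.id.fst.snd.snd FOp.id.snd
      (C := fun (a : Unit × ℕ) q => encode (q.2 :: dl q.1) = a.2)
      (Primrec.eq.comp (Primrec.encode.comp (Primrec.list_cons.comp
        (Primrec.snd.comp Primrec.snd) (dl_primrec.comp (Primrec.fst.comp Primrec.snd))))
        (Primrec.snd.comp Primrec.fst))

theorem Psi1_fop (hb2 : Computable r.b2) {q2 : B} (hq2 : Computable q2) :
    FOp fun X (_ : Unit) => Psi1 r ℓ q2 X := by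
  apply (FOp.constReal hb2).app
  apply FOp.id.snd.fst.pair
  apply FOp.pair
  · apply FOp.num (N := fun X _ c => ∃ v, (0, v) ∈ sndS (sndS X) ∧ ℓ + (dl v).length = c)
    exact FOp.test (α := Unit × ℕ) FOp.id.snd.snd 0
      (C := fun (a : Unit × ℕ) v => ℓ + (dl v).length = a.2)
      (Primrec.eq.comp (Primrec.nat_add.comp (Primrec.const ℓ)
        (Primrec.list_length.comp (dl_primrec.comp Primrec.snd)))
        (Primrec.snd.comp Primrec.fst))
  · exact (FOp.constReal hq2).smn FOp.id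

end

/-- The sequence of names. -/
def ee (q1 e0 : B) : ℕ → B
  | 0 => e0
  | k + 1 => smn q1 (ee q1 e0 k)

theorem ee_iter (q1 e0 : B) (k : ℕ) : (fun Y => smnS (G q1) Y)^[k] (G e0) = G (ee q1 e0 k) := by
  induction k with
  | zero => rfl
  | succ k ih => rw [Function.iterate_succ_apply', ih, smnS_G]; rfl

section

variable {f p : Problem} {r : Names} {σ : List ℕ} {ℓ : ℕ} {w : ℕ → ℕ × ℕ} {g : Problem}

/-- The chain of instances. -/
theorem Works.chain (H : Works f p w r g) {y : B} (hy : (g y).Nonempty) (k : ℕ) :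
    ∃ yk, (fun Y => appS (G r.b1) Y)^[k] (G y) = G yk ∧ (g yk).Nonempty := by
  induction k with
  | zero => exact ⟨y, rfl, hy⟩
  | succ k ih =>
    obtain ⟨yk, h1, h2⟩ := ih
    obtain ⟨y', h3, h4, _⟩ := H.two yk h2
    exact ⟨y', by rw [Function.iterate_succ_apply', h1]; exact h3, h4⟩

/-- Correctness of the evaluation strategy. -/
theorem Works.truth (H : Works f p w r g) {e0 q1 q2 : B}
    (he0 : ∀ X, appS (G e0) X = Psi0 r σ ℓ X) (hq1 : ∀ X, appS (G q1) X = Psi1 r ℓ q2 X)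
    (hq2 : ∀ X, appS (G q2) X = Psi2 r X) (k : ℕ) :
    ∀ (m : ℕ) (y : B), (g y).Nonempty →
      (∀ yk ζ, (fun Y => appS (G r.b1) Y)^[k] (G y) = G yk → appS (G r.a1) (G yk) = G ζ →
        lab σ ℓ (ζ 0) (encode (lst (fun n => (w n).2) ℓ (m + k))) = (w (ζ 0)).1) →
      ∃ z ∈ g y, appS (G (ee q1 e0 k))
        (pairS (G y) (G (cst (encode (lst (fun n => (w n).2) ℓ m))))) = G z := by
  induction k with
  | zero =>
    intro m y hy hlab
    obtain ⟨ζ, h1, z, hz, hz'⟩ := H.one y hy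
    refine ⟨z, hz, ?_⟩
    have h2 := hlab y ζ rfl h1
    rw [Nat.add_zero] at h2
    simp only [ee]
    rw [he0, Psi0, pairS_G]
    simp only [fstS_G, sndS_G, fst_pair, snd_pair]
    rw [h1, numS_eq (c := (w (ζ 0)).1), hz']
    intro v
    constructor
    · rintro ⟨⟨q1, q2⟩, ⟨h3, h4⟩, h5⟩
      have h3' : ζ 0 = q1 := h3
      have h4' : encode (lst (fun n => (w n).2) ℓ m) = q2 := h4
      subst h3' h4'
      rw [← h2]; exact h5
    · intro h
      refine ⟨(ζ 0, encode (lst (fun n => (w n).2) ℓ m)), ⟨rfl, rfl⟩, ?_⟩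
      rw [← h, ← h2]
  | succ k ih =>
    intro m y hy hlab
    obtain ⟨y', h1, h2, h3⟩ := H.two y hy
    set V : B := cst (encode (lst (fun n => (w n).2) ℓ m)) with hV
    have hIH := ih (m + 1) y' h2 (fun yk ζ h4 h5 => by
      have h6 := hlab yk ζ (by rw [Function.iterate_succ_apply, h1]; exact h4) h5
      have h7 : m + 1 + k = m + (k + 1) := by omega
      rw [h7]; exact h6)
    obtain ⟨z', hz', hz''⟩ := hIH
    set r' : B := smn q2 (pair (ee q1 e0 k) (pair y V)) with hr'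
    have hres : pair (cst (ℓ + m)) r' ∈ resid (nuu w) g y' := by
      refine ⟨⟨_, rfl⟩, fun s hs => ⟨z', hz', ?_⟩⟩
      have hs' : s = cst (w (ℓ + m)).2 := by
        rw [fst_pair] at hs
        exact hs
      subst hs'
      rw [snd_pair, app_iff, hr', appS_smn, hq2, Psi2, pairS_G]
      simp only [fstS_G, sndS_G, fst_pair, snd_pair]
      rw [h1, numS_eq (c := encode (lst (fun n => (w n).2) ℓ (m + 1)))]
      · exact hz''
      · intro v
        constructor
        · rintro ⟨⟨q1, q2⟩, ⟨h3, h4⟩, h5⟩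
          have h3' : encode (lst (fun n => (w n).2) ℓ m) = q1 := h3
          have h4' : (w (ℓ + m)).2 = q2 := h4
          subst h3' h4'
          rw [dl_encode] at h5
          exact h5
        · intro h
          refine ⟨(encode (lst (fun n => (w n).2) ℓ m), (w (ℓ + m)).2), ⟨rfl, rfl⟩, ?_⟩
          simp only [dl_encode]
          exact h
    obtain ⟨z, hz, hz3⟩ := h3 _ hres
    refine ⟨z, hz, ?_⟩
    simp only [ee]
    rw [appS_smn, hq1, Psi1, pairS_G, pairS_G]
    simp only [fstS_G, sndS_G, fst_pair, snd_pair]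
    rw [smnS_G, ← hr', numS_eq (c := ℓ + m), pairS_G, ← hz3]
    intro v
    constructor
    · rintro ⟨q1, h3, h5⟩
      have h3' : encode (lst (fun n => (w n).2) ℓ m) = q1 := h3
      subst h3'
      rw [dl_encode, lst_length] at h5
      exact h5
    · intro h
      refine ⟨encode (lst (fun n => (w n).2) ℓ m), rfl, ?_⟩
      rw [dl_encode, lst_length]
      exact h

end

end Pool.Agent.Lib.MP_f095a5_lc
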