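import Pool.Agent.Lib.MP_f095a5_lc.Back2

/-!
# Paths through trees
-/

open Encodable

namespace Pool.Agent.Lib.MP_f095a5_lc

/-- One step along a tree, with the answers to the queries taken from the string `τ`. -/
def StepS (τ : List ℕ) (X : PSet) : PSet :=
  {b | ∃ q : ℕ × ℕ, ((0, 1) ∈ X ∧ (1, q.1) ∈ X ∧ τ[q.1]? = some q.2) ∧
    b ∈ appS (tlS (tlS X)) (G (cst q.2))}

theorem StepS_fop : FOp fun X (τ : List ℕ) => StepS τ X := by
  unfold FOp StepS
  simp only [Set.mem_ofPred_eq]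
  apply PS.ex (R := fun X (a : List ℕ × (ℕ × ℕ)) (q : ℕ × ℕ) =>
    ((0, 1) ∈ X ∧ (1, q.1) ∈ X ∧ a.1[q.1]? = some q.2) ∧ a.2 ∈ appS (tlS (tlS X)) (G (cst q.2)))
  apply PS.and
  · apply PS.and
    · exact PS.mem.comp (Primrec.const (0, 1))
    · apply PS.and
      · exact PS.mem.comp (Primrec.pair (Primrec.const 1) (Primrec.fst.comp Primrec.snd))
      · apply PS.of_re
        apply RE.of_pred
        exact Primrec.eq.comp (Primrec.list_getElem?.comp (Primrec.fst.comp Primrec.fst)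
          (Primrec.fst.comp Primrec.snd)) (Primrec.option_some.comp (Primrec.snd.comp Primrec.snd))
  · have h1 : FOp fun X (c : ℕ) => appS (tlS (tlS X)) (G (cst c)) :=
      FOp.id.tl.tl.app (FOp.cst Primrec.id)
    exact FOp.memAt h1 (f := fun p : (List ℕ × (ℕ × ℕ)) × (ℕ × ℕ) => p.2.2)
      (g := fun p => p.1.2) (Primrec.snd.comp Primrec.snd) (Primrec.snd.comp Primrec.fst)

theorem StepS_empty (τ : List ℕ) : StepS τ ∅ = ∅ := by
  ext b
  simp [StepS]

theorem iter_empty (τ : List ℕ) (D : ℕ) : (StepS τ)^[D] ∅ = ∅ := by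
  induction D with
  | zero => rfl
  | succ D ih => rw [Function.iterate_succ_apply, StepS_empty, ih]

theorem StepS_node {τ : List ℕ} {T T' : B} {c : ℕ} (h0 : T 0 = 1) (h1 : τ[T 1]? = some c)
    (h2 : App (tail (tail T)) (cst c) T') : StepS τ (G T) = G T' := by
  ext b
  simp only [StepS, Set.mem_ofPred_eq]
  constructor
  · rintro ⟨⟨q1, q2⟩, ⟨_, h4, h5⟩, h6⟩
    have h4' : T 1 = q1 := h4
    subst h4'
    simp only at h5 h6
    rw [h1] at h5
    have h7 : c = q2 := Option.some_injective _ h5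
    subst h7
    rw [tlS_G, tlS_G, h2.eq] at h6
    exact h6
  · intro hb
    refine ⟨(T 1, c), ⟨h0, rfl, h1⟩, ?_⟩
    simp only
    rw [tlS_G, tlS_G, h2.eq]
    exact hb

/-- A good tree has a finite path. -/
theorem Good.exists_path {f : Problem} {w : ℕ → ℕ × ℕ} {x : B} {i : ℕ} :
    ∀ {D n : ℕ} {T : B}, Good f w x i D n T →
      ∃ N, ∀ τ : List ℕ, (∀ z < N, τ[z]? = some (w z).2) → (0, 0) ∈ (StepS τ)^[D] (G T)
  | 0, n, T, h => ⟨0, fun τ _ => h.1⟩
  | D + 1, n, T, ⟨h0, T', h1, h2⟩ => by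
    obtain ⟨N, hN⟩ := Good.exists_path h2
    refine ⟨max N (T 1 + 1), fun τ hτ => ?_⟩
    rw [Function.iterate_succ_apply, StepS_node h0 (hτ (T 1) (by omega)) h1]
    exact hN τ fun z hz => hτ z (by omega)

/-- The end of a finite path through a good tree. -/
theorem Good.end_path {f : Problem} {w : ℕ → ℕ × ℕ} {x : B} {i : ℕ} {τ : List ℕ} :
    ∀ {D D' n : ℕ} {T : B}, Good f w x i D' n T → (0, 0) ∈ (StepS τ)^[D] (G T) →
      (∀ l < D, ∀ z c, (1, z) ∈ (StepS τ)^[l] (G T) → τ[z]? = some c → (w z).2 = c) →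
      (∃ U, (StepS τ)^[D] (G T) = G U ∧ U 1 = (w i).1 ∧
        ∀ j ≤ n + D, col (tail (tail U)) j ∈ f (col x j)) ∧
      ∀ l < D, ∃ V, (StepS τ)^[l] (G T) = G V
  | 0, 0, n, T, h, h0, _ => ⟨⟨T, rfl, h.2.1, h.2.2⟩, fun l hl => absurd hl (by omega)⟩
  | 0, D' + 1, n, T, h, h0, _ => by
    have h1 : T 0 = 0 := h0
    have h2 := h.1
    omega
  | D + 1, D', n, T, h, h0, hc => by
    rw [Function.iterate_succ_apply] at h0
    -- there is a step
    have hne : (StepS τ (G T)).Nonempty := by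
      by_contra hne
      rw [Set.not_nonempty_iff_eq_empty] at hne
      rw [hne, iter_empty] at h0
      exact h0
    obtain ⟨b, ⟨q1, q2⟩, ⟨h1, h2, h3⟩, _⟩ := hne
    have h1' : T 0 = 1 := h1
    have h2' : T 1 = q1 := h2
    subst h2'
    simp only at h3
    cases D' with
    | zero =>
      have h4 := h.1
      omega
    | succ D' =>
      obtain ⟨_, T', h5, h6⟩ := h
      have h7 : (w (T 1)).2 = q2 := hc 0 (by omega) (T 1) q2 rfl h3
      rw [h7] at h5
      have h8 : StepS τ (G T) = G T' := StepS_node h1' h3 h5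
      rw [h8] at h0
      obtain ⟨⟨U, hU1, hU2, hU3⟩, hV⟩ := Good.end_path h6 h0 (fun l hl z c hz hzc =>
        hc (l + 1) (by omega) z c (by rw [Function.iterate_succ_apply, h8]; exact hz) hzc)
      refine ⟨⟨U, by rw [Function.iterate_succ_apply, h8]; exact hU1, hU2, fun j hj =>
        hU3 j (by omega)⟩, fun l hl => ?_⟩
      rcases l with _ | l
      · exact ⟨T, rfl⟩
      · obtain ⟨V, hV⟩ := hV l (by omega)
        exact ⟨V, by rw [Function.iterate_succ_apply, h8]; exact hV⟩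

/-- A path of length `D` makes at most `D` queries. -/
theorem card_queries {τ : List ℕ} {T : B} {D k ℓ : ℕ}
    (hV : ∀ l < D, ∃ V, (StepS τ)^[l] (G T) = G V)
    (hq : ∀ j < k, ∃ l < D, (1, ℓ + j) ∈ (StepS τ)^[l] (G T)) : k ≤ D := by
  classical
  choose! L hL1 hL2 using hq
  have hinj : Set.InjOn L (Finset.range k : Set ℕ) := by
    intro j hj j' hj' hjj
    simp only [Finset.coe_range, Set.mem_Iio] at hj hj'
    have h1 := hL2 j hj
    have h2 := hL2 j' hj'
    rw [← hjj] at h2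
    obtain ⟨V, hV⟩ := hV (L j) (hL1 j hj)
    rw [hV] at h1 h2
    have h1' : V 1 = ℓ + j := h1
    have h2' : V 1 = ℓ + j' := h2
    omega
  have h3 := Finset.card_le_card_of_injOn L (s := Finset.range k) (t := Finset.range D)
    (fun j hj => by
      simp only [Finset.coe_range, Set.mem_Iio] at hj ⊢
      exact hL1 j hj) hinj
  simpa using h3

end Pool.Agent.Lib.MP_f095a5_lc
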