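import Pool.Agent.Lib.MP_f095a5_lc.Back3

/-!
# The density lemma
-/

open Encodable

namespace Pool.Agent.Lib.MP_f095a5_lc

/-- All six names are computable. -/
structure Names.Comp (r : Names) : Prop where
  a1 : Computable r.a1
  a2 : Computable r.a2
  b1 : Computable r.b1
  b2 : Computable r.b2
  e1 : Computable r.e1
  e2 : Computable r.e2

section

variable {α β : Type*} [Primcodable α] [Primcodable β]

theorem FOp.sel {Sel : PSet → α → β → Prop} (hS : PS fun X (p : α × β) => Sel X p.1 p.2)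
    {Ψ : PSet → α × β → PSet} (hΨ : FOp Ψ) :
    FOp fun X a => {b | ∃ c, Sel X a c ∧ b ∈ Ψ X (a, c)} := by
  unfold FOp
  simp only [Set.mem_ofPred_eq]
  apply PS.ex (R := fun X (p : α × (ℕ × ℕ)) c => Sel X p.1 c ∧ p.2 ∈ Ψ X (p.1, c))
  apply PS.and
  · exact hS.comp (f := fun q : (α × (ℕ × ℕ)) × β => (q.1.1, q.2))
      (Primrec.pair (Primrec.fst.comp Primrec.fst) Primrec.snd)
  · exact FOp.memAt hΨ (f := fun q : (α × (ℕ × ℕ)) × β => (q.1.1, q.2)) (g := fun q => q.1.2)
      (Primrec.pair (Primrec.fst.comp Primrec.fst) Primrec.snd) (Primrec.snd.comp Primrec.fst)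

end

/-- The instance of `h` used for the instance `x` of the parallelization. -/
def instS (ℓ : ℕ) (X : PSet) : PSet := pairS X (G (cst (Nat.pair ℓ 0)))

/-- The tree computed for column `k`. -/
def TS (r : Names) (ℓ : ℕ) (q1 e0 : B) (X : PSet) (k : ℕ) : PSet :=
  appS (G r.e2) (pairS (instS ℓ (fstS X)) (pairS (sndS X)
    (appS ((fun Y => smnS (G q1) Y)^[k] (G e0))
      (pairS (appS (fstS (appS (G r.e1) (instS ℓ (fstS X)))) (sndS X))
        (G (cst (encode ([] : List ℕ))))))))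

theorem instS_fop (ℓ : ℕ) : FOp fun X (_ : Unit) => instS ℓ X :=
  FOp.id.pair (FOp.cst (Primrec.const _))

theorem TS_fop {r : Names} (hr : r.Comp) (ℓ : ℕ) {q1 e0 : B} (hq1 : Computable q1)
    (he0 : Computable e0) : FOp fun X k => TS r ℓ q1 e0 X k := by
  have hi : FOp fun X (_ : ℕ) => instS ℓ (fstS X) := FOp.opcomp (instS_fop ℓ) FOp.id.fst
  apply (FOp.constReal hr.e2).app
  apply hi.pair
  apply FOp.id.snd.pair
  apply FOp.app
  · have h1 : FOp fun X (_ : Unit) => smnS (G q1) X := (FOp.constReal hq1).smn FOp.id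
    have h2 := FOp.iter h1
    exact FOp.comp h2 (Θ := fun _ (_ : ℕ) => G e0) (FOp.constReal he0) (f := fun k => ((), k))
      (Primrec.pair (Primrec.const ()) Primrec.id)
  · exact (FOp.app (FOp.app (FOp.constReal hr.e1) hi).fst FOp.id.snd).pair
      (FOp.cst (Primrec.const _))

theorem density {f p : Problem} (hfp : ¬ WRed (hat f) p) (r : Names) (hr : r.Comp)
    (w0 : ℕ → ℕ × ℕ) (ℓ : ℕ) :
    ∃ (w' : ℕ → ℕ × ℕ) (ℓ' : ℕ), (∀ n < ℓ, w' n = w0 n) ∧
      ∀ w'' : ℕ → ℕ × ℕ, (∀ n < ℓ', w'' n = w' n) → ¬ ∃ g, Works f p w'' r g := by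
  by_contra hcon
  have NF : ∀ (w' : ℕ → ℕ × ℕ) (ℓ' : ℕ), (∀ n < ℓ, w' n = w0 n) →
      ∃ w'' : ℕ → ℕ × ℕ, (∀ n < ℓ', w'' n = w' n) ∧ ∃ g, Works f p w'' r g := by
    intro w' ℓ' h1
    by_contra h2
    refine hcon ⟨w', ℓ', h1, fun w'' h3 h4 => h2 ⟨w'', h3, h4⟩⟩
  clear hcon
  apply hfp
  classical
  -- the names
  set σω : List ℕ := (List.range ℓ).map (fun n => (w0 n).1) with hσω
  set σν : List ℕ := (List.range ℓ).map (fun n => (w0 n).2) with hσν
  obtain ⟨e0, he0, he0'⟩ := FOp.exists_name (Psi0_fop r σω ℓ hr.a1 hr.a2)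
  obtain ⟨q2, hq2, hq2'⟩ := FOp.exists_name (Psi2_fop r hr.b1)
  obtain ⟨q1, hq1, hq1'⟩ := FOp.exists_name (Psi1_fop r ℓ hr.b2 hq2)
  have hTS : FOp fun X k => TS r ℓ q1 e0 X k := TS_fop hr ℓ hq1 he0
  -- the operator following the path
  have hPath : FOp fun X (a : ℕ × (List ℕ × ℕ)) =>
      (StepS (σν ++ a.2.1))^[a.2.2] (TS r ℓ q1 e0 X a.1) := by
    have h1 := FOp.iter StepS_fop
    exact FOp.comp h1 (Θ := fun X (a : ℕ × (List ℕ × ℕ)) => TS r ℓ q1 e0 X a.1)
      (hTS.reparam Primrec.fst) (f := fun a : ℕ × (List ℕ × ℕ) => (σν ++ a.2.1, a.2.2))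
      (Primrec.pair (Primrec.list_append.comp (Primrec.const σν)
        (Primrec.fst.comp Primrec.snd)) (Primrec.snd.comp Primrec.snd))
  have hR : PS fun X (a : ℕ × (List ℕ × ℕ)) =>
      (0, 0) ∈ (StepS (σν ++ a.2.1))^[a.2.2] (TS r ℓ q1 e0 X a.1) :=
    FOp.memAt hPath (f := fun a => a) (g := fun _ => (0, 0)) Primrec.id (Primrec.const _)
  obtain ⟨Sel, hSel, hSel'⟩ := exists_sel (R := fun X (k : ℕ) (c : List ℕ × ℕ) =>
    (0, 0) ∈ (StepS (σν ++ c.1))^[c.2] (TS r ℓ q1 e0 X k)) hR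
  refine WRed.of_ops (fun X => sndS (appS (G r.e1) (instS ℓ X)))
    (fun X => jnS fun k => {b | ∃ c : List ℕ × ℕ, Sel X k c ∧
      b ∈ colS (tlS (tlS ((StepS (σν ++ c.1))^[c.2] (TS r ℓ q1 e0 X k)))) k}) ?_ ?_ ?_
  · exact ((FOp.constReal hr.e1).app (instS_fop ℓ)).snd
  · apply FOp.jnc (Ψ := fun X k => {b | ∃ c : List ℕ × ℕ, Sel X k c ∧
      b ∈ colS (tlS (tlS ((StepS (σν ++ c.1))^[c.2] (TS r ℓ q1 e0 X k)))) k})
    exact FOp.sel hSel (Ψ := fun X (a : ℕ × (List ℕ × ℕ)) =>
      colS (tlS (tlS ((StepS (σν ++ a.2.1))^[a.2.2] (TS r ℓ q1 e0 X a.1)))) a.1)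
      (hPath.tl.tl.col Primrec.fst)
  · intro x hx
    set y : B := pair x (cst (Nat.pair ℓ 0)) with hy
    have hyne : ∀ w, (hh f w y).Nonempty := fun w => by
      rw [hh_nonempty, hy, fst_pair]; exact hx
    have hiy : instS ℓ (G x) = G y := by rw [instS, pairS_G]
    obtain ⟨w1, hw1, g1, W1⟩ := NF w0 ℓ (fun _ _ => rfl)
    obtain ⟨v, hv1, hv2, _⟩ := W1.three y (hyne _)
    obtain ⟨hv3, hv4⟩ := star_nonempty.1 hv2
    refine ⟨snd v, by rw [hiy, hv1, sndS_G], hv3, fun s hs => ?_⟩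
    obtain ⟨u, hu1, hu2⟩ := hv4 s hs
    -- it suffices to treat each column
    suffices key : ∀ k, ∃ c ∈ f (col x k), {b | ∃ c : List ℕ × ℕ, Sel (G (pair x s)) k c ∧
        b ∈ colS (tlS (tlS ((StepS (σν ++ c.1))^[c.2] (TS r ℓ q1 e0 (G (pair x s)) k)))) k}
          = G c by
      choose c hc1 hc2 using key
      exact ⟨jn c, fun k => by rw [col_jn]; exact hc1 k, jnS_eq hc2⟩
    intro k
    -- every working `g` has `u` as an instance
    have hgu : ∀ w g, Works f p w r g → (g u).Nonempty := by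
      intro w g H
      obtain ⟨v', h1, h2, _⟩ := H.three y (hyne w)
      have h3 : v' = v := G_inj (h1.symm.trans hv1)
      subst h3
      obtain ⟨u', h4, h5⟩ := (star_nonempty.1 h2).2 s hs
      rw [h4.unique hu1] at h5
      exact h5
    obtain ⟨uk, huk1, huk2⟩ := W1.chain hu2 k
    obtain ⟨ζ, hζ, _⟩ := W1.one uk huk2
    set ι := ζ 0 with hι
    -- the family of extensions
    let WW : ℕ → (ℕ → ℕ) → ℕ → ℕ × ℕ := fun c t n =>
      (if n < ℓ then (w0 n).1 else if n = ℓ then c else 0, t n)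
    have hWW1 : ∀ c t, (WW c t ℓ).1 = c := fun c t => by simp [WW]
    have Ext : ∀ (c : ℕ) (t : ℕ → ℕ) (N : ℕ), (∀ n < ℓ, t n = (w0 n).2) →
        (ι = ℓ → c = encode (lst t ℓ k)) →
        ∃ w : ℕ → ℕ × ℕ, (∀ n < N, w n = WW c t n) ∧ w ℓ = WW c t ℓ ∧
          ∃ T D', TS r ℓ q1 e0 (G (pair x s)) k = G T ∧ Good f w x ℓ D' 0 T := by
      intro c t N ht hc
      obtain ⟨w, hw, g, H⟩ := NF (WW c t) (max N (max (ι + 1) (ℓ + k + 1))) (fun n hn => by
        simp only [WW, if_pos hn]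
        rw [ht n hn])
      refine ⟨w, fun n hn => hw n (by omega), hw ℓ (by omega), ?_⟩
      have hlst : lst (fun n => (w n).2) ℓ k = lst t ℓ k := by
        apply lst_congr
        intro n hn
        show (w n).2 = t n
        rw [hw n (by omega)]
      have hlab : lab σω ℓ ι (encode (lst (fun n => (w n).2) ℓ (0 + k))) = (w ι).1 := by
        rw [Nat.zero_add, hlst, hw ι (by omega)]
        simp only [lab, WW]
        by_cases h1 : ι = ℓ
        · rw [if_pos h1, ← hc h1, if_neg (by omega), if_pos h1]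
        · rw [if_neg h1, if_neg h1]
          by_cases h2 : ι < ℓ
          · rw [if_pos h2]
            simp [hσω, List.getD_eq_getElem?_getD, h2]
          · rw [if_neg h2]
            simp [hσω, List.getD_eq_getElem?_getD, h2]
      obtain ⟨z, hz, hz'⟩ := H.truth he0' hq1' hq2' k 0 u (hgu w g H) (fun yk ζ' h1 h2 => by
        have h3 : yk = uk := G_inj (h1.symm.trans huk1)
        subst h3
        have h4 : ζ' = ζ := G_inj (h2.symm.trans hζ)
        rw [h4]
        exact hlab)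
      obtain ⟨v', h1, h2, h3⟩ := H.three y (hyne w)
      have h4 : v' = v := G_inj (h1.symm.trans hv1)
      subst h4
      have h5 : pair s z ∈ star g p v' :=
        ⟨(star_nonempty.1 h2).2, by simpa using hs, u, by simpa using hu1, by simpa using hz⟩
      obtain ⟨T, hT, hT'⟩ := h3 _ h5
      obtain ⟨_, D', hD'⟩ := hT
      refine ⟨T, D', ?_, ?_⟩
      · rw [TS]
        simp only [fstS_G, sndS_G, fst_pair, snd_pair]
        rw [hiy, hv1, fstS_G, hu1.eq, ee_iter]
        have hz2 : appS (G (ee q1 e0 k)) (pairS (G u) (G (cst (encode ([] : List ℕ))))) = G z :=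
          hz'
        rw [hz2, pairS_G s z]
        exact hT'
      · simpa [hy] using hD'
    -- a witness exists
    obtain ⟨T0, hT0, hwit⟩ : ∃ T0, TS r ℓ q1 e0 (G (pair x s)) k = G T0 ∧
        ∃ c : List ℕ × ℕ, (0, 0) ∈ (StepS (σν ++ c.1))^[c.2]
          (TS r ℓ q1 e0 (G (pair x s)) k) := by
      let t : ℕ → ℕ := fun n => if n < ℓ then (w0 n).2 else 0
      obtain ⟨w, hw, _, T, D', hT, hD'⟩ := Ext (encode (lst t ℓ k)) t ℓ
        (fun n hn => by simp [t, hn]) (fun _ => rfl)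
      refine ⟨T, hT, ?_⟩
      obtain ⟨N, hN⟩ := hD'.exists_path
      refine ⟨((List.range N).map (fun n => (w (ℓ + n)).2), D'), ?_⟩
      rw [hT]
      apply hN
      intro z hz
      by_cases h1 : z < ℓ
      · rw [List.getElem?_append_left (by simpa [hσν] using h1), hw z h1]
        simp [hσν, h1, WW, t]
      · rw [List.getElem?_append_right (by simp [hσν]; omega)]
        have h2 : z - ℓ < N := by omega
        have h3 : ℓ + (z - ℓ) = z := by omega
        simp [hσν, h2, h3]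
    obtain ⟨hS1, hS2, hS3⟩ := hSel' (pair x s) k
    obtain ⟨⟨τ', D⟩, hc⟩ := hS3 hwit
    have hc0 := hS1 _ hc
    simp only at hc0
    rw [hT0] at hc0
    set τ := σν ++ τ' with hτ
    -- the set of outputs
    have hset : {b | ∃ c : List ℕ × ℕ, Sel (G (pair x s)) k c ∧
        b ∈ colS (tlS (tlS ((StepS (σν ++ c.1))^[c.2] (TS r ℓ q1 e0 (G (pair x s)) k)))) k}
          = colS (tlS (tlS ((StepS τ)^[D] (G T0)))) k := by
      ext b
      constructor
      · rintro ⟨c, hc1, hc2⟩
        have h1 : c = (τ', D) := hS2 _ _ hc1 hc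
        subst h1
        rw [hT0] at hc2
        exact hc2
      · intro hb
        refine ⟨(τ', D), hc, ?_⟩
        rw [hT0]
        exact hb
    rw [hset]
    let t : ℕ → ℕ := fun n => τ.getD n 0
    have ht : ∀ n < ℓ, t n = (w0 n).2 := by
      intro n hn
      simp only [t, hτ, List.getD_eq_getElem?_getD]
      rw [List.getElem?_append_left (by simpa [hσν] using hn)]
      simp [hσν, hn]
    have htτ : ∀ z c, τ[z]? = some c → t z = c ∧ z < τ.length := by
      intro z c hzc
      refine ⟨by simp [t, List.getD_eq_getElem?_getD, hzc], ?_⟩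
      by_contra hlt
      rw [List.getElem?_eq_none (by omega)] at hzc
      exact absurd hzc (by simp)
    -- the label of the leaf
    let c0 : ℕ := if h : ∃ c, (1, c) ∈ (StepS τ)^[D] (G T0) then h.choose else 0
    have hc0' : ∀ U, (StepS τ)^[D] (G T0) = G U → U 1 = c0 := by
      intro U hU
      have h1 : ∃ c, (1, c) ∈ (StepS τ)^[D] (G T0) := ⟨U 1, by rw [hU]; rfl⟩
      have h2 : c0 = h1.choose := dif_pos h1
      have h3 : (1, h1.choose) ∈ G U := hU.subset h1.choose_spec
      rw [h2]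
      exact h3
    -- first case
    have hιℓ : ι = ℓ := by
      by_contra hne
      obtain ⟨w, hw, hwℓ, T, D', hT, hD'⟩ := Ext (c0 + 1) t τ.length ht (fun h => absurd h hne)
      have hTT : T = T0 := G_inj (hT.symm.trans hT0)
      subst hTT
      obtain ⟨⟨U, hU1, hU2, _⟩, _⟩ := hD'.end_path hc0 (fun l hl z c _ hzc => by
        obtain ⟨h1, h2⟩ := htτ z c hzc
        rw [hw z h2]
        exact h1)
      have h3 := hc0' U hU1
      rw [hwℓ, hWW1] at hU2
      omega
    -- second case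
    have hquery : ∀ j < k, ∃ l < D, (1, ℓ + j) ∈ (StepS τ)^[l] (G T0) := by
      intro j hj
      by_contra hno
      push Not at hno
      -- choose the new value
      obtain ⟨a, ha⟩ : ∃ a, encode (lst (Function.update t (ℓ + j) a) ℓ k) ≠ c0 := by
        by_contra hall
        push Not at hall
        have h1 := (hall 0).trans (hall 1).symm
        have h2 := lst_eq (encode_injective h1) j hj
        simp at h2
      obtain ⟨w, hw, hwℓ, T, D', hT, hD'⟩ := Ext
        (encode (lst (Function.update t (ℓ + j) a) ℓ k)) (Function.update t (ℓ + j) a)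
        τ.length (fun n hn => by
          rw [Function.update_of_ne (by omega)]
          exact ht n hn) (fun _ => rfl)
      have hTT : T = T0 := G_inj (hT.symm.trans hT0)
      subst hTT
      obtain ⟨⟨U, hU1, hU2, _⟩, _⟩ := hD'.end_path hc0 (fun l hl z c hz hzc => by
        obtain ⟨h1, h2⟩ := htτ z c hzc
        rw [hw z h2]
        show Function.update t (ℓ + j) a z = c
        rw [Function.update_of_ne]
        · exact h1
        · rintro rfl
          exact hno l hl hz)
      have h3 := hc0' U hU1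
      rw [hwℓ, hWW1] at hU2
      exact ha (hU2.symm.trans h3)
    -- third case
    obtain ⟨w, hw, hwℓ, T, D', hT, hD'⟩ := Ext (encode (lst t ℓ k)) t τ.length ht (fun _ => rfl)
    have hTT : T = T0 := G_inj (hT.symm.trans hT0)
    subst hTT
    obtain ⟨⟨U, hU1, hU2, hU3⟩, hV⟩ := hD'.end_path hc0 (fun l hl z c _ hzc => by
      obtain ⟨h1, h2⟩ := htτ z c hzc
      rw [hw z h2]
      exact h1)
    have hkD : k ≤ D := card_queries hV hquery
    exact ⟨_, hU3 k (by omega), by rw [hU1, tlS_G, tlS_G, colS_G]⟩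

end Pool.Agent.Lib.MP_f095a5_lc
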