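import Pool.Agent.Lib.MP_f095a5_lc.Back4

/-!
# The characterization of the upper cone of the parallelization
-/

open Encodable

namespace Pool.Agent.Lib.MP_f095a5_lc

/-- There are countably many computable elements of Baire space. -/
theorem countable_computable : Countable {q : B // Computable q} := by
  classical
  have h : ∀ q : {q : B // Computable q}, ∃ c : Nat.Partrec.Code,
      Nat.Partrec.Code.eval c = fun n => Part.some (q.1 n) := fun q =>
    Nat.Partrec.Code.exists_code.1 (Partrec.nat_iff.1 q.2)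
  choose c hc using h
  have hinj : Function.Injective c := by
    intro q q' hqq
    apply Subtype.ext
    funext n
    have h1 := congrFun ((hc q).symm.trans ((congrArg _ hqq).trans (hc q'))) n
    exact Part.some_injective h1
  exact hinj.countable

/-- Generic functions. -/
theorem exists_generic {ι : Type*} [Countable ι] {R : ι → (ℕ → ℕ × ℕ) → Prop}
    (hd : ∀ (r : ι) (w : ℕ → ℕ × ℕ) (ℓ : ℕ), ∃ (w' : ℕ → ℕ × ℕ) (ℓ' : ℕ),
      (∀ n < ℓ, w' n = w n) ∧ ∀ w'' : ℕ → ℕ × ℕ, (∀ n < ℓ', w'' n = w' n) → R r w'') :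
    ∃ w, ∀ r, R r w := by
  classical
  rcases isEmpty_or_nonempty ι with hι | hι
  · exact ⟨fun _ => (0, 0), fun r => (hι.false r).elim⟩
  obtain ⟨e, he⟩ := exists_surjective_nat ι
  choose W L h1 h2 using hd
  -- the states
  let st : ℕ → (ℕ → ℕ × ℕ) × ℕ := fun n => Nat.rec (fun _ => (0, 0), 0)
    (fun n s => (W (e n) s.1 s.2, max (L (e n) s.1 s.2) (s.2 + 1))) n
  have hst : ∀ n, st (n + 1) = (W (e n) (st n).1 (st n).2,
      max (L (e n) (st n).1 (st n).2) ((st n).2 + 1)) := fun n => rfl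
  have hlen : ∀ n, n ≤ (st n).2 := by
    intro n
    induction n with
    | zero => exact Nat.zero_le _
    | succ n ih => rw [hst]; simp only; omega
  have hmono : ∀ n m, n ≤ m → (st n).2 ≤ (st m).2 ∧
      ∀ i < (st n).2, (st m).1 i = (st n).1 i := by
    intro n m hnm
    induction m, hnm using Nat.le_induction with
    | base => exact ⟨le_rfl, fun _ _ => rfl⟩
    | succ m hm ih =>
      rw [hst]
      refine ⟨by simp only; omega, fun i hi => ?_⟩
      simp only
      rw [h1 _ _ _ i (lt_of_lt_of_le hi ih.1)]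
      exact ih.2 i hi
  refine ⟨fun i => (st (i + 1)).1 i, fun r => ?_⟩
  obtain ⟨n, rfl⟩ := he r
  apply h2 (e n) (st n).1 (st n).2
  intro i hi
  have h3 : i < (st (n + 1)).2 := by rw [hst]; simp only; omega
  have h4 : (st (n + 1)).1 i = W (e n) (st n).1 (st n).2 i := by rw [hst]
  rw [← h4]
  rcases le_total (i + 1) (n + 1) with h | h
  · exact ((hmono _ _ h).2 i (lt_of_lt_of_le (Nat.lt_succ_self i) (hlen (i + 1)))).symm
  · exact (hmono _ _ h).2 i h3

theorem backward {f p : Problem} (hfp : ¬ WRed (hat f) p) :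
    ∃ ω ν h : Problem, WRed h (prod (prod f (fstar f)) ω) ∧
      (∀ c, WRed h (star ν c) → WRed h c) ∧
      ∀ g, WRed g ω → (∀ c, WRed g (star ν c) → WRed g c) → ¬ WRed h (star g p) := by
  have hC := countable_computable
  obtain ⟨w, hw⟩ := exists_generic (ι := {q : B // Computable q} × {q : B // Computable q} ×
      {q : B // Computable q} × {q : B // Computable q} × {q : B // Computable q} ×
      {q : B // Computable q})
    (R := fun r w => ¬ ∃ g, Works f p w ⟨r.1, r.2.1, r.2.2.1, r.2.2.2.1, r.2.2.2.2.1,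
      r.2.2.2.2.2⟩ g)
    (fun r w ℓ => density hfp _ ⟨r.1.2, r.2.1.2, r.2.2.1.2, r.2.2.2.1.2, r.2.2.2.2.1.2,
      r.2.2.2.2.2.2⟩ w ℓ)
  refine ⟨omg w, nuu w, hh f w, hh_le f w, hh_immune f w, ?_⟩
  intro g h1 h2 h3
  have hz : (nuu w (cst 0)).Nonempty := ⟨_, rfl⟩
  obtain ⟨a1, a2, ha1, ha2, H1⟩ := h1.elim
  obtain ⟨b1, b2, hb1, hb2, H2⟩ := (h2 (resid (nuu w) g) (le_star_resid hz)).elim
  obtain ⟨e1, e2, he1, he2, H3⟩ := h3.elim
  refine hw (⟨a1, ha1⟩, ⟨a2, ha2⟩, ⟨b1, hb1⟩, ⟨b2, hb2⟩, ⟨e1, he1⟩, ⟨e2, he2⟩)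
    ⟨g, ?_, ?_, H3⟩
  · intro y hy
    obtain ⟨ζ, h4, _, h5⟩ := H1 y hy
    exact ⟨ζ, h4, h5 _ rfl⟩
  · intro y hy
    obtain ⟨y', h4, h5, h6⟩ := H2 y hy
    exact ⟨y', h4, resid_nonempty h5, h6⟩

/-- The characterization of the upper cone of the parallelization. -/
theorem hat_le_iff (f p : Problem) : WRed (hat f) p ↔
    ∀ ω ν h : Problem, WRed h (prod (prod f (fstar f)) ω) →
      (∀ c, WRed h (star ν c) → WRed h c) →
      ∃ g, WRed g ω ∧ (∀ c, WRed g (star ν c) → WRed g c) ∧ WRed h (star g p) := by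
  constructor
  · exact fun h ω ν l h1 h2 => forward h ω ν l h1 h2
  · intro H
    by_contra hcon
    obtain ⟨ω, ν, h, h1, h2, h3⟩ := backward hcon
    obtain ⟨g, h4, h5, h6⟩ := H ω ν h h1 h2
    exact h3 g h4 h5 h6

end Pool.Agent.Lib.MP_f095a5_lc
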