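import Pool.Agent.Lib.MP_f095a5_lc.Ops

/-!
# Weihrauch reducibility: basic facts
-/

open Encodable

namespace Pool.Agent.Lib.MP_f095a5_lc

theorem WRed.refl (f : Problem) : WRed f f :=
  WRed.of_ops (fun X => X) (fun X => sndS X) FOp.id FOp.id.snd fun x hx =>
    ⟨x, rfl, hx, fun y hy => ⟨y, hy, by simp⟩⟩

theorem WRed.trans {f g l : Problem} (h1 : WRed f g) (h2 : WRed g l) : WRed f l := by
  obtain ⟨k1, j1, hk1, hj1, H1⟩ := h1.elim
  obtain ⟨k2, j2, hk2, hj2, H2⟩ := h2.elim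
  refine WRed.of_ops (fun X => appS (G k2) (appS (G k1) X))
    (fun X => appS (G j1) (pairS (fstS X)
      (appS (G j2) (pairS (appS (G k1) (fstS X)) (sndS X)))))
    ((FOp.constReal hk2).app ((FOp.constReal hk1).app FOp.id))
    ((FOp.constReal hj1).app (FOp.id.fst.pair ((FOp.constReal hj2).app
      (((FOp.constReal hk1).app FOp.id.fst).pair FOp.id.snd)))) ?_
  intro x hx
  obtain ⟨x1, e1, hx1, H1⟩ := H1 x hx
  obtain ⟨x2, e2, hx2, H2⟩ := H2 x1 hx1
  refine ⟨x2, by rw [e1, e2], hx2, fun y hy => ?_⟩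
  obtain ⟨z2, hz2, ez2⟩ := H2 y hy
  obtain ⟨z1, hz1, ez1⟩ := H1 z2 hz2
  refine ⟨z1, hz1, ?_⟩
  simp only [fstS_G, sndS_G, fst_pair, snd_pair, e1, ez2, ez1]

/-- Strong form: if the same instances and fewer solutions. -/
theorem WRed.of_sub {f g : Problem} (h : ∀ x, (f x).Nonempty → (g x).Nonempty ∧ g x ⊆ f x) :
    WRed f g :=
  WRed.of_ops (fun X => X) (fun X => sndS X) FOp.id FOp.id.snd fun x hx =>
    ⟨x, rfl, (h x hx).1, fun y hy => ⟨y, (h x hx).2 hy, by simp⟩⟩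

theorem prod_nonempty {f g : Problem} {x : B} :
    (prod f g x).Nonempty ↔ (f (fst x)).Nonempty ∧ (g (snd x)).Nonempty := by
  constructor
  · rintro ⟨w, h1, h2⟩
    exact ⟨⟨_, h1⟩, ⟨_, h2⟩⟩
  · rintro ⟨⟨a, ha⟩, ⟨b, hb⟩⟩
    exact ⟨pair a b, by simpa using ha, by simpa using hb⟩

theorem prod_mono {f f' g g' : Problem} (h1 : WRed f f') (h2 : WRed g g') :
    WRed (prod f g) (prod f' g') := by
  obtain ⟨k1, j1, hk1, hj1, H1⟩ := h1.elim
  obtain ⟨k2, j2, hk2, hj2, H2⟩ := h2.elim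
  refine WRed.of_ops (fun X => pairS (appS (G k1) (fstS X)) (appS (G k2) (sndS X)))
    (fun X => pairS (appS (G j1) (pairS (fstS (fstS X)) (fstS (sndS X))))
      (appS (G j2) (pairS (sndS (fstS X)) (sndS (sndS X)))))
    (((FOp.constReal hk1).app FOp.id.fst).pair ((FOp.constReal hk2).app FOp.id.snd))
    (((FOp.constReal hj1).app (FOp.id.fst.fst.pair FOp.id.snd.fst)).pair
      ((FOp.constReal hj2).app (FOp.id.fst.snd.pair FOp.id.snd.snd))) ?_
  intro x hx
  rw [prod_nonempty] at hx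
  obtain ⟨x1, e1, hx1, H1⟩ := H1 _ hx.1
  obtain ⟨x2, e2, hx2, H2⟩ := H2 _ hx.2
  refine ⟨pair x1 x2, ?_, ?_, ?_⟩
  · simp only [fstS_G, sndS_G, e1, e2, pairS_G]
  · rw [prod_nonempty]; simpa using ⟨hx1, hx2⟩
  · rintro y ⟨hy1, hy2⟩
    rw [fst_pair] at hy1
    rw [snd_pair] at hy2
    obtain ⟨z1, hz1, ez1⟩ := H1 _ hy1
    obtain ⟨z2, hz2, ez2⟩ := H2 _ hy2
    refine ⟨pair z1 z2, ⟨by simpa using hz1, by simpa using hz2⟩, ?_⟩
    simp only [fstS_G, sndS_G, fst_pair, snd_pair]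
    rw [ez1, ez2, pairS_G]

theorem star_nonempty {f g : Problem} {p : B} : (star f g p).Nonempty ↔
    (g (snd p)).Nonempty ∧ ∀ y ∈ g (snd p), ∃ u, App (fst p) y u ∧ (f u).Nonempty := by
  constructor
  · rintro ⟨w, h1, h2, h3⟩
    exact ⟨⟨_, h2⟩, h1⟩
  · rintro ⟨⟨y, hy⟩, h⟩
    obtain ⟨u, hu, z, hz⟩ := h y hy
    exact ⟨pair y z, h, by simpa using hy, u, by simpa using hu, by simpa using hz⟩

theorem star_mono {f f' g g' : Problem} (h1 : WRed f f') (h2 : WRed g g') :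
    WRed (star f g) (star f' g') := by
  obtain ⟨k1, j1, hk1, hj1, H1⟩ := h1.elim
  obtain ⟨k2, j2, hk2, hj2, H2⟩ := h2.elim
  -- `r` is a name of `pair (pair q x) y' ↦ k1 (q (j2 (pair x y')))`
  obtain ⟨r, hr, hr'⟩ := FOp.exists_name (Ψ := fun X => appS (G k1) (appS (fstS (fstS X))
    (appS (G j2) (pairS (sndS (fstS X)) (sndS X)))))
    ((FOp.constReal hk1).app (FOp.id.fst.fst.app ((FOp.constReal hj2).app
      (FOp.id.fst.snd.pair FOp.id.snd))))
  refine WRed.of_ops (fun X => pairS (smnS (G r) X) (appS (G k2) (sndS X)))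
    (fun X => pairS (appS (G j2) (pairS (sndS (fstS X)) (fstS (sndS X))))
      (appS (G j1) (pairS (appS (fstS (fstS X))
        (appS (G j2) (pairS (sndS (fstS X)) (fstS (sndS X))))) (sndS (sndS X)))))
    (((FOp.constReal hr).smn FOp.id).pair ((FOp.constReal hk2).app FOp.id.snd))
    (((FOp.constReal hj2).app (FOp.id.fst.snd.pair FOp.id.snd.fst)).pair
      ((FOp.constReal hj1).app ((FOp.id.fst.fst.app ((FOp.constReal hj2).app
        (FOp.id.fst.snd.pair FOp.id.snd.fst))).pair FOp.id.snd.snd))) ?_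
  intro p hp
  rw [star_nonempty] at hp
  obtain ⟨hp1, hp2⟩ := hp
  obtain ⟨x2, e2, hx2, H2⟩ := H2 _ hp1
  have key : ∀ y' ∈ g' x2, ∃ y ∈ g (snd p), appS (G j2) (G (pair (snd p) y')) = G y ∧
      ∃ u, App (fst p) y u ∧ ∃ u', App (smn r p) y' u' ∧ appS (G k1) (G u) = G u' ∧
        (f' u').Nonempty ∧
        ∀ z' ∈ f' u', ∃ z ∈ f u, appS (G j1) (pairS (G u) (G z')) = G z := by
    intro y' hy'
    obtain ⟨y, hy, ey⟩ := H2 y' hy'
    obtain ⟨u, hu, hfu⟩ := hp2 y hy
    obtain ⟨u', eu', hu', H1⟩ := H1 u hfu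
    refine ⟨y, hy, by rw [← pairS_G]; exact ey, u, hu, u', ?_, eu', hu', H1⟩
    rw [app_iff, appS_smn, hr', pairS_G]
    simp only [fstS_G, sndS_G, fst_pair, snd_pair, ey, hu.eq, eu']
  refine ⟨pair (smn r p) x2, ?_, ?_, ?_⟩
  · simp only [smnS_G, sndS_G, e2, pairS_G]
  · rw [star_nonempty, snd_pair, fst_pair]
    refine ⟨hx2, fun y' hy' => ?_⟩
    obtain ⟨y, hy, ey, u, hu, u', hu', _, hne, _⟩ := key y' hy'
    exact ⟨u', hu', hne⟩
  · rintro w ⟨_, hw2, u'', hu'', hw3⟩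
    rw [snd_pair] at hw2
    rw [fst_pair] at hu''
    obtain ⟨y, hy, ey, u, hu, u', hu', eu', hne, hz⟩ := key _ hw2
    obtain rfl := hu''.unique hu'
    obtain ⟨z, hz1, hz2⟩ := hz _ hw3
    refine ⟨pair y z, ⟨hp2, by simpa using hy, u, by simpa using hu, by simpa using hz1⟩, ?_⟩
    simp only [fstS_G, sndS_G, fst_pair, snd_pair, pairS_G, ey, hu.eq]
    rw [← pairS_G u, hz2, pairS_G]

/-- The compositional product is an upper bound of the compositions. -/
theorem comp_le_star {f f' g g' : Problem} (h1 : WRed f' f) (h2 : WRed g' g) :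
    WRed (comp f' g') (star f g) := by
  obtain ⟨k1, j1, hk1, hj1, H1⟩ := h1.elim
  obtain ⟨k2, j2, hk2, hj2, H2⟩ := h2.elim
  -- `r` is a name of `pair x y' ↦ k1 (j2 (pair x y'))`
  obtain ⟨r, hr, hr'⟩ := FOp.exists_name (Ψ := fun X => appS (G k1) (appS (G j2) X))
    ((FOp.constReal hk1).app ((FOp.constReal hj2).app FOp.id))
  refine WRed.of_ops (fun X => pairS (smnS (G r) X) (appS (G k2) X))
    (fun X => appS (G j1) (pairS (appS (G j2) (pairS (fstS X) (fstS (sndS X))))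
      (sndS (sndS X))))
    (((FOp.constReal hr).smn FOp.id).pair ((FOp.constReal hk2).app FOp.id))
    ((FOp.constReal hj1).app (((FOp.constReal hj2).app
        (FOp.id.fst.pair FOp.id.snd.fst)).pair FOp.id.snd.snd)) ?_
  rintro x ⟨z0, hx1, y0, hy0, hz0⟩
  obtain ⟨x2, e2, hx2, H2⟩ := H2 x ⟨y0, hy0⟩
  have key : ∀ y' ∈ g x2, ∃ y ∈ g' x, appS (G j2) (G (pair x y')) = G y ∧
      ∃ u', App (smn r x) y' u' ∧ (f u').Nonempty ∧
        ∀ z' ∈ f u', ∃ z ∈ f' y, appS (G j1) (pairS (G y) (G z')) = G z := by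
    intro y' hy'
    obtain ⟨y, hy, ey⟩ := H2 y' hy'
    obtain ⟨u', eu', hu', H1⟩ := H1 y (hx1 y hy)
    refine ⟨y, hy, by rw [← pairS_G]; exact ey, u', ?_, hu', H1⟩
    rw [app_iff, appS_smn, hr']
    rw [ey, eu']
  refine ⟨pair (smn r x) x2, ?_, ?_, ?_⟩
  · simp only [smnS_G, e2, pairS_G]
  · rw [star_nonempty, snd_pair, fst_pair]
    refine ⟨hx2, fun y' hy' => ?_⟩
    obtain ⟨y, hy, ey, u', hu', hne, _⟩ := key y' hy'
    exact ⟨u', hu', hne⟩
  · rintro w ⟨_, hw2, u'', hu'', hw3⟩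
    rw [snd_pair] at hw2
    rw [fst_pair] at hu''
    obtain ⟨y, hy, ey, u', hu', hne, hz⟩ := key _ hw2
    obtain rfl := hu''.unique hu'
    obtain ⟨z, hz1, hz2⟩ := hz _ hw3
    refine ⟨z, ⟨hx1, y, hy, hz1⟩, ?_⟩
    simp only [fstS_G, sndS_G, fst_pair, snd_pair, pairS_G, ey]
    rw [← pairS_G y, hz2]

/-- The compositional product is itself a composition. -/
theorem star_eq_comp (f g : Problem) :
    ∃ f' g' : Problem, WRed f' f ∧ WRed g' g ∧ comp f' g' = star f g := by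
  refine ⟨fun p => {w | ∃ u, App (fst p) (snd p) u ∧ fst w = snd p ∧ snd w ∈ f u},
    fun p => {v | fst v = fst p ∧ snd v ∈ g (snd p)}, ?_, ?_, ?_⟩
  · refine WRed.of_ops (fun X => appS (fstS X) (sndS X))
      (fun X => pairS (sndS (fstS X)) (sndS X)) (FOp.id.fst.app FOp.id.snd)
      (FOp.id.fst.snd.pair FOp.id.snd) ?_
    rintro p ⟨w, u, hu, _, hw⟩
    refine ⟨u, ?_, ⟨_, hw⟩, fun y hy => ⟨pair (snd p) y, ⟨u, hu, by simp, by simpa using hy⟩, ?_⟩⟩
    · simp only [fstS_G, sndS_G, hu.eq]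
    · simp only [fstS_G, sndS_G, fst_pair, snd_pair, pairS_G]
  · refine WRed.of_ops (fun X => sndS X) (fun X => pairS (fstS (fstS X)) (sndS X)) FOp.id.snd
      (FOp.id.fst.fst.pair FOp.id.snd) ?_
    rintro p ⟨v, _, hv⟩
    refine ⟨snd p, by simp, ⟨_, hv⟩, fun y hy => ⟨pair (fst p) y, ⟨by simp, by simpa using hy⟩, ?_⟩⟩
    simp only [fstS_G, sndS_G, fst_pair, snd_pair, pairS_G]
  · funext p
    ext w
    constructor
    · rintro ⟨h1, v, ⟨hv1, hv2⟩, u, hu, hw1, hw2⟩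
      refine ⟨fun y hy => ?_, ?_, u, ?_, hw2⟩
      · obtain ⟨w', u', hu', _, hw'⟩ := h1 (pair (fst p) y) ⟨by simp, by simpa using hy⟩
        rw [fst_pair, snd_pair] at hu'
        exact ⟨u', hu', ⟨_, hw'⟩⟩
      · rw [hw1]; exact hv2
      · rw [hw1, ← hv1]; exact hu
    · rintro ⟨h1, h2, u, hu, h3⟩
      refine ⟨?_, pair (fst p) (fst w), ⟨by simp, by simpa using h2⟩, u, by simpa using hu,
        by simp, h3⟩
      rintro v ⟨hv1, hv2⟩
      obtain ⟨u', hu', z', hz'⟩ := h1 _ hv2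
      exact ⟨pair (snd v) z', u', by rw [hv1]; exact hu', by simp, by simpa using hz'⟩

theorem hat_nonempty {f : Problem} {x : B} :
    (hat f x).Nonempty ↔ ∀ j, (f (col x j)).Nonempty := by
  constructor
  · rintro ⟨w, hw⟩ j
    exact ⟨_, hw j⟩
  · intro h
    choose w hw using h
    exact ⟨jn w, fun j => by simpa using hw j⟩

theorem hat_mono {f g : Problem} (h : WRed f g) : WRed (hat f) (hat g) := by
  obtain ⟨k1, j1, hk1, hj1, H1⟩ := h.elim
  refine WRed.of_ops (fun X => jnS fun j => appS (G k1) (colS X j))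
    (fun X => jnS fun j => appS (G j1) (pairS (colS (fstS X) j) (colS (sndS X) j)))
    (FOp.jn (Ψ := fun X (a : Unit × ℕ) => appS (G k1) (colS X a.2))
      ((FOp.constReal hk1).app (FOp.id.col Primrec.snd)))
    (FOp.jn (Ψ := fun X (a : Unit × ℕ) => appS (G j1) (pairS (colS (fstS X) a.2)
      (colS (sndS X) a.2)))
      ((FOp.constReal hj1).app ((FOp.id.fst.col Primrec.snd).pair (FOp.id.snd.col Primrec.snd)))) ?_
  intro x hx
  rw [hat_nonempty] at hx
  choose x' e' hx' H' using fun j => H1 _ (hx j)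
  refine ⟨jn x', ?_, ?_, ?_⟩
  · apply jnS_eq
    intro j
    rw [colS_G, e']
  · rw [hat_nonempty]
    intro j
    rw [col_jn]
    exact hx' j
  · intro w hw
    have hw' : ∀ j, col w j ∈ g (x' j) := fun j => by
      have := hw j
      rwa [col_jn] at this
    choose z hz ez using fun j => H' j _ (hw' j)
    refine ⟨jn z, fun j => by rw [col_jn]; exact hz j, ?_⟩
    apply jnS_eq
    intro j
    simp only [fstS_G, sndS_G, fst_pair, snd_pair, colS_G]
    rw [ez]

theorem fstar_nonempty {f : Problem} {x : B} :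
    (fstar f x).Nonempty ↔ ∀ j < x 0, (f (col (tail x) j)).Nonempty := by
  constructor
  · rintro ⟨w, hw⟩ j hj
    exact ⟨_, hw j hj⟩
  · intro h
    classical
    refine ⟨jn fun j => if hj : j < x 0 then (h j hj).choose else fun _ => 0, fun j hj => ?_⟩
    rw [col_jn, dif_pos hj]
    exact (h j hj).choose_spec

/-- The operator restricting a family of operators to the first `X 0` indices. -/
theorem FOp.trunc {Ψ Θ : PSet → ℕ → PSet} (hΨ : FOp Ψ) (hΘ : FOp Θ) {Ξ : PSet → PSet}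
    (hΞ : FOp fun X (_ : Unit) => Ξ X) :
    FOp fun X (_ : Unit) => jnS fun j =>
      iteS (∃ v, (0, v) ∈ Ξ X ∧ j < v) (∃ v, (0, v) ∈ Ξ X ∧ ¬ j < v) (Ψ X j) (Θ X j) := by
  have h0 : FOp fun X (_ : Unit × ℕ) => Ξ X := FOp.reparam (f := fun _ : Unit × ℕ => ()) hΞ
    (Primrec.const ())
  apply FOp.jn (Ψ := fun X (a : Unit × ℕ) =>
      iteS (∃ v, (0, v) ∈ Ξ X ∧ a.2 < v) (∃ v, (0, v) ∈ Ξ X ∧ ¬ a.2 < v) (Ψ X a.2) (Θ X a.2))
  apply FOp.ite (P := fun X (a : Unit × ℕ) => ∃ v, (0, v) ∈ Ξ X ∧ a.2 < v)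
    (N := fun X (a : Unit × ℕ) => ∃ v, (0, v) ∈ Ξ X ∧ ¬ a.2 < v)
  · exact FOp.test h0 0 (C := fun (a : Unit × ℕ) v => a.2 < v)
      (Primrec.nat_lt.comp (Primrec.snd.comp Primrec.fst) Primrec.snd)
  · exact FOp.test h0 0 (C := fun (a : Unit × ℕ) v => ¬ a.2 < v)
      (PrimrecPred.not (Primrec.nat_lt.comp (Primrec.snd.comp Primrec.fst) Primrec.snd))
  · exact hΨ.reparam Primrec.snd
  · exact hΘ.reparam Primrec.snd

theorem iteS_lt {x : B} {j : ℕ} (Y Z : PSet) : iteS (∃ v, (0, v) ∈ G x ∧ j < v)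
    (∃ v, (0, v) ∈ G x ∧ ¬ j < v) Y Z = if j < x 0 then Y else Z := by
  split_ifs with h
  · apply iteS_pos
    · exact ⟨x 0, rfl, h⟩
    · rintro ⟨v, hv, hv'⟩
      have hv2 : x 0 = v := hv
      subst hv2
      exact hv' h
  · apply iteS_neg
    · rintro ⟨v, hv, hv'⟩
      have hv2 : x 0 = v := hv
      subst hv2
      exact h hv'
    · exact ⟨x 0, rfl, h⟩

theorem fstar_mono {f g : Problem} (h : WRed f g) : WRed (fstar f) (fstar g) := by
  obtain ⟨k1, j1, hk1, hj1, H1⟩ := h.elim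
  refine WRed.of_ops (fun X => consS (fun v => (0, v) ∈ X) (jnS fun j =>
      iteS (∃ v, (0, v) ∈ X ∧ j < v) (∃ v, (0, v) ∈ X ∧ ¬ j < v)
        (appS (G k1) (colS (tlS X) j)) (G (cst 0))))
    (fun X => jnS fun j => iteS (∃ v, (0, v) ∈ fstS X ∧ j < v) (∃ v, (0, v) ∈ fstS X ∧ ¬ j < v)
      (appS (G j1) (pairS (colS (tlS (fstS X)) j) (colS (sndS X) j))) (G (cst 0))) ?_ ?_ ?_
  · apply FOp.cons (N := fun X _ v => (0, v) ∈ X)
    · exact FOp.id.evalAt 0
    · exact FOp.trunc (Ψ := fun X j => appS (G k1) (colS (tlS X) j)) (Θ := fun _ _ => G (cst 0))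
        ((FOp.constReal hk1).app (FOp.id.tl.col Primrec.id)) (FOp.cst (Primrec.const 0)) FOp.id
  · exact FOp.trunc (Ψ := fun X j => appS (G j1) (pairS (colS (tlS (fstS X)) j) (colS (sndS X) j)))
        (Θ := fun _ _ => G (cst 0))
        ((FOp.constReal hj1).app ((FOp.id.fst.tl.col Primrec.id).pair (FOp.id.snd.col Primrec.id)))
        (FOp.cst (Primrec.const 0)) FOp.id.fst
  · intro x hx
    rw [fstar_nonempty] at hx
    have hx2 : ∀ j, ∃ x', (j < x 0 → appS (G k1) (G (col (tail x) j)) = G x' ∧ (g x').Nonempty ∧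
        ∀ y ∈ g x', ∃ z ∈ f (col (tail x) j), appS (G j1) (pairS (G (col (tail x) j)) (G y)) = G z) ∧
        (¬ j < x 0 → x' = cst 0) := by
      intro j
      by_cases hj : j < x 0
      · obtain ⟨x', h'⟩ := H1 _ (hx j hj)
        exact ⟨x', fun _ => h', fun h => absurd hj h⟩
      · exact ⟨cst 0, fun h => absurd h hj, fun _ => rfl⟩
    choose x' hx' hx'' using hx2
    refine ⟨cons (x 0) (jn x'), ?_, ?_, ?_⟩
    · apply consS_eq (a := x 0) (N := fun v => (0, v) ∈ G x) (fun v => Iff.rfl)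
      apply jnS_eq
      intro j
      rw [iteS_lt]
      split_ifs with hj
      · simp only [tlS_G, colS_G]
        exact (hx' j hj).1
      · rw [hx'' j hj]
    · rw [fstar_nonempty]
      intro j hj
      rw [cons_zero] at hj
      rw [tail_cons, col_jn]
      exact (hx' j hj).2.1
    · intro w hw
      have hw' : ∀ j < x 0, col w j ∈ g (x' j) := fun j hj => by
        have := hw j hj
        rwa [tail_cons, col_jn] at this
      have hz : ∀ j, ∃ z, (j < x 0 → z ∈ f (col (tail x) j) ∧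
          appS (G j1) (pairS (G (col (tail x) j)) (G (col w j))) = G z) ∧
          (¬ j < x 0 → z = cst 0) := by
        intro j
        by_cases hj : j < x 0
        · obtain ⟨z, hz⟩ := (hx' j hj).2.2 _ (hw' j hj)
          exact ⟨z, fun _ => hz, fun h => absurd hj h⟩
        · exact ⟨cst 0, fun h => absurd h hj, fun _ => rfl⟩
      choose z hz hz' using hz
      refine ⟨jn z, fun j hj => by rw [col_jn]; exact (hz j hj).1, ?_⟩
      apply jnS_eq
      intro j
      simp only [fstS_G, sndS_G, fst_pair, snd_pair]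
      rw [iteS_lt]
      split_ifs with hj
      · simp only [tlS_G, colS_G]
        exact (hz j hj).2
      · rw [hz' j hj]

/-- `f × f^*` is below the parallelization of `f`. -/
theorem prod_fstar_le_hat (f : Problem) : WRed (prod f (fstar f)) (hat f) := by
  refine WRed.of_ops (fun X => jnS fun j =>
      iteS (∃ v, (0, v) ∈ sndS X ∧ j < v) (∃ v, (0, v) ∈ sndS X ∧ ¬ j < v)
        (colS (tlS (sndS X)) j) (fstS X))
    (fun X => pairS {b | ∃ v, (0, v) ∈ sndS (fstS X) ∧ (Nat.pair v b.1, b.2) ∈ sndS X} (sndS X))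
    ?_ ?_ ?_
  · exact FOp.trunc (Ψ := fun X j => colS (tlS (sndS X)) j) (Θ := fun X _ => fstS X)
      (FOp.id.snd.tl.col Primrec.id) FOp.id.fst FOp.id.snd
  · apply FOp.pair _ FOp.id.snd
    unfold FOp
    simp only [Set.mem_ofPred_eq]
    apply PS.ex (R := fun X (p : Unit × (ℕ × ℕ)) v => (0, v) ∈ sndS (fstS X) ∧
      (Nat.pair v p.2.1, p.2.2) ∈ sndS X)
    apply PS.and
    · exact FOp.memAt (FOp.id (α := Unit)).fst.snd (f := fun _ : (Unit × (ℕ × ℕ)) × ℕ => ())
        (g := fun p => (0, p.2)) (Primrec.const ()) (Primrec.pair (Primrec.const 0) Primrec.snd)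
    · exact FOp.memAt (FOp.id (α := Unit)).snd (f := fun _ : (Unit × (ℕ × ℕ)) × ℕ => ())
        (g := fun p => (Nat.pair p.2 p.1.2.1, p.1.2.2)) (Primrec.const ())
        (Primrec.pair (Primrec₂.natPair.comp Primrec.snd
          (Primrec.fst.comp (Primrec.snd.comp Primrec.fst)))
          (Primrec.snd.comp (Primrec.snd.comp Primrec.fst)))
  · intro x hx
    rw [prod_nonempty, fstar_nonempty] at hx
    refine ⟨jn fun j => if j < snd x 0 then col (tail (snd x)) j else fst x, ?_, ?_, ?_⟩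
    · apply jnS_eq
      intro j
      rw [sndS_G, iteS_lt]
      split_ifs with hj
      · simp
      · simp
    · rw [hat_nonempty]
      intro j
      rw [col_jn]
      split_ifs with hj
      · exact hx.2 j hj
      · exact hx.1
    · intro w hw
      refine ⟨pair (col w (snd x 0)) w, ⟨?_, ?_⟩, ?_⟩
      · have := hw (snd x 0)
        rw [col_jn, if_neg (lt_irrefl _)] at this
        simpa using this
      · intro j hj
        have := hw j
        rw [col_jn, if_pos hj] at this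
        simpa using this
      · rw [← pairS_G (col w (snd x 0)) w]
        simp only [fstS_G, sndS_G, fst_pair, snd_pair]
        congr 1
        ext ⟨n, v⟩
        constructor
        · rintro ⟨v', h1, h2⟩
          have h1' : snd x 0 = v' := h1
          subst h1'
          exact h2
        · intro h; exact ⟨snd x 0, rfl, h⟩

/-- The product is below the compositional product. -/
theorem prod_le_star (a b : Problem) : WRed (prod a b) (star b a) := by
  obtain ⟨r, hr, hr'⟩ := FOp.exists_name (Ψ := fun X => fstS X) FOp.id.fst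
  refine WRed.of_ops (fun X => pairS (smnS (G r) (sndS X)) (fstS X)) (fun X => sndS X)
    (((FOp.constReal hr).smn FOp.id.snd).pair FOp.id.fst) FOp.id.snd ?_
  intro x hx
  rw [prod_nonempty] at hx
  have hs : ∀ y, App (smn r (snd x)) y (snd x) := by
    intro y
    rw [app_iff, appS_smn, hr', pairS_G, fstS_G, fst_pair]
  refine ⟨pair (smn r (snd x)) (fst x), ?_, ?_, ?_⟩
  · simp only [fstS_G, sndS_G, smnS_G, pairS_G]
  · rw [star_nonempty, fst_pair, snd_pair]
    exact ⟨hx.1, fun y _ => ⟨_, hs y, hx.2⟩⟩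
  · rintro w ⟨_, h2, u, hu, h3⟩
    rw [snd_pair] at h2
    rw [fst_pair] at hu
    obtain rfl := hu.unique (hs _)
    exact ⟨w, ⟨h2, h3⟩, by simp⟩

/-- A form of the residual of the compositional product. -/
def resid (ν h : Problem) : Problem := fun y =>
  {w | (ν (fst w)).Nonempty ∧ ∀ s ∈ ν (fst w), ∃ u ∈ h y, App (snd w) s u}

theorem resid_nonempty {ν h : Problem} {y : B} (hy : (resid ν h y).Nonempty) :
    (h y).Nonempty := by
  obtain ⟨w, ⟨s, hs⟩, h2⟩ := hy
  obtain ⟨u, hu, _⟩ := h2 s hs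
  exact ⟨u, hu⟩

theorem nonempty_resid {ν h : Problem} {z0 : B} (hz : (ν z0).Nonempty) {y : B}
    (hy : (h y).Nonempty) : (resid ν h y).Nonempty := by
  obtain ⟨u, hu⟩ := hy
  obtain ⟨r, hr, hr'⟩ := FOp.exists_name (Ψ := fun X => fstS X) FOp.id.fst
  refine ⟨pair z0 (smn r u), by rwa [fst_pair], fun s _ => ⟨u, hu, ?_⟩⟩
  rw [snd_pair, app_iff, appS_smn, hr', pairS_G, fstS_G, fst_pair]

theorem le_star_resid {ν h : Problem} {z0 : B} (hz : (ν z0).Nonempty) :
    WRed h (star ν (resid ν h)) := by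
  obtain ⟨r, hr, hr'⟩ := FOp.exists_name (Ψ := fun X => fstS X) FOp.id.fst
  refine WRed.of_ops (fun X => pairS (G r) X) (fun X => appS (sndS (fstS (sndS X))) (sndS (sndS X)))
    ((FOp.constReal hr).pair FOp.id) (FOp.id.snd.fst.snd.app FOp.id.snd.snd) ?_
  intro y hy
  have hs : ∀ w, App r w (fst w) := by
    intro w
    rw [app_iff, hr', fstS_G]
  refine ⟨pair r y, by rw [pairS_G], ?_, ?_⟩
  · rw [star_nonempty, fst_pair, snd_pair]
    refine ⟨nonempty_resid hz hy, fun w hw => ⟨_, hs w, hw.1⟩⟩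
  · rintro w ⟨_, h2, u, hu, h3⟩
    rw [snd_pair] at h2
    rw [fst_pair] at hu
    obtain rfl := hu.unique (hs _)
    obtain ⟨v, hv, hv'⟩ := h2.2 _ h3
    refine ⟨v, hv, ?_⟩
    simp only [fstS_G, sndS_G, snd_pair]
    exact hv'.eq

end Pool.Agent.Lib.MP_f095a5_lc
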