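import Mathlib

/-!
# Weihrauch reducibility: definitions
-/

open Encodable

namespace Pool.Agent.Lib.MP_f095a5_lc

/-- Baire space. -/
abbrev B := ℕ → ℕ

/-- Pairing of elements of Baire space. -/
def pair (x y : B) : B := fun n => Nat.pair (x n) (y n)

/-- First component. -/
def fst (p : B) : B := fun n => (p n).unpair.1

/-- Second component. -/
def snd (p : B) : B := fun n => (p n).unpair.2

/-- The `j`-th element of Baire space coded by `x`. -/
def col (x : B) (j : ℕ) : B := fun n => x (Nat.pair j n)

/-- `x` without its first entry. -/
def tail (x : B) : B := fun n => x (n + 1)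

/-- `App q x y`: the continuous function with name `q` maps `x` to `y`.  The name `q` lists axioms
`(L, (n, v))`, to be read: if `x i = a` for all `(i, a)` in the list `L`, then the output at `n` is
`v`. The output on `x` is `y` if the set of outputs thus obtained is the graph of `y`. -/
def App (q x y : B) : Prop :=
  ∀ n v : ℕ, (∃ (m : ℕ) (L : List (ℕ × ℕ)), q m = encode (L, (n, v)) + 1 ∧
    ∀ e ∈ L, x e.1 = e.2) ↔ y n = v

/-- A problem: a multivalued function on Baire space.  Its domain (the set of its instances)
is `{x | (f x).Nonempty}`, and `f x` is the set of solutions to the instance `x`. -/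
def Problem : Type := B → Set B

/-- Weihrauch reducibility. -/
def WRed (f g : Problem) : Prop :=
  ∃ k h : B, Computable k ∧ Computable h ∧ ∀ x, (f x).Nonempty →
    ∃ x', App k x x' ∧ (g x').Nonempty ∧ ∀ y ∈ g x', ∃ z ∈ f x, App h (pair x y) z

/-- Parallel product. -/
def prod (f g : Problem) : Problem := fun x => {w | fst w ∈ f (fst x) ∧ snd w ∈ g (snd x)}

/-- Composition of multivalued functions. -/
def comp (f g : Problem) : Problem :=
  fun x => {z | (∀ y ∈ g x, (f y).Nonempty) ∧ ∃ y ∈ g x, z ∈ f y}

/-- Compositional product `f ⋆ g`: the instances are the `p = pair q x` where `x` is an instance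
of `g` and `q` is the name of a function mapping every solution `y` of `x` to an instance of `f`;
the solutions are the `pair y z` where `y` solves the instance `x` of `g` and `z` solves the
resulting instance of `f`. -/
def star (f g : Problem) : Problem :=
  fun p => {w | (∀ y ∈ g (snd p), ∃ u, App (fst p) y u ∧ (f u).Nonempty) ∧
    fst w ∈ g (snd p) ∧ ∃ u, App (fst p) (fst w) u ∧ snd w ∈ f u}

/-- Finite parallelization: the first entry of the input is the number of instances. -/
def fstar (f : Problem) : Problem :=
  fun x => {w | ∀ j < x 0, col w j ∈ f (col (tail x) j)}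

/-- Parallelization. -/
def hat (f : Problem) : Problem := fun x => {w | ∀ j, col w j ∈ f (col x j)}

end Pool.Agent.Lib.MP_f095a5_lc
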