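import Pool.Agent.Lib.MP_f095a5_lc.Back5

/-!
# Weihrauch degrees
-/

namespace Pool.Agent.Lib.MP_f095a5_lc

/-- Problems, preordered by Weihrauch reducibility. -/
instance : Preorder Problem where
  le f g := WRed f g
  le_refl := WRed.refl
  le_trans _ _ _ h h' := WRed.trans h h'

/-- Weihrauch degrees: problems modulo Weihrauch equivalence. -/
def Deg : Type := Antisymmetrization Problem (· ≤ ·)

instance : PartialOrder Deg :=
  inferInstanceAs (PartialOrder (Antisymmetrization Problem (· ≤ ·)))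

/-- The Weihrauch degree of a problem. -/
def deg (f : Problem) : Deg := toAntisymmetrization (· ≤ ·) f

theorem deg_le_iff {f g : Problem} : deg f ≤ deg g ↔ WRed f g :=
  toAntisymmetrization_le_toAntisymmetrization_iff

theorem deg_surj (a : Deg) : ∃ f, deg f = a := by
  induction a using Quotient.inductionOn with
  | _ f => exact ⟨f, rfl⟩

/-- Parallel product of degrees. -/
def Deg.prod : Deg → Deg → Deg :=
  Quotient.map₂ MP_f095a5_lc.prod fun _ _ h _ _ h' => ⟨prod_mono h.1 h'.1, prod_mono h.2 h'.2⟩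

/-- Compositional product of degrees. -/
def Deg.star : Deg → Deg → Deg :=
  Quotient.map₂ MP_f095a5_lc.star fun _ _ h _ _ h' => ⟨star_mono h.1 h'.1, star_mono h.2 h'.2⟩

/-- Finite parallelization of degrees. -/
def Deg.fstar : Deg → Deg :=
  Quotient.map MP_f095a5_lc.fstar fun _ _ h => ⟨fstar_mono h.1, fstar_mono h.2⟩

/-- Parallelization of degrees. -/
def Deg.hat : Deg → Deg :=
  Quotient.map MP_f095a5_lc.hat fun _ _ h => ⟨hat_mono h.1, hat_mono h.2⟩

@[simp] theorem deg_prod (f g : Problem) : Deg.prod (deg f) (deg g) = deg (prod f g) := rfl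
@[simp] theorem deg_star (f g : Problem) : Deg.star (deg f) (deg g) = deg (star f g) := rfl
@[simp] theorem deg_fstar (f : Problem) : Deg.fstar (deg f) = deg (fstar f) := rfl
@[simp] theorem deg_hat (f : Problem) : Deg.hat (deg f) = deg (hat f) := rfl

/-- The Weihrauch degrees with an artificial top element adjoined. -/
abbrev WDeg : Type := WithTop Deg

/-- Parallelization on the degrees with the top element, which is mapped to itself. -/
def parallelization : WDeg → WDeg := WithTop.map Deg.hat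

/-- The compositional product of two degrees is the greatest degree of a composition of problems
below them. -/
theorem Deg.isGreatest_star (a b : Deg) : IsGreatest {d : WDeg | ∃ f g : Problem,
    deg f ≤ a ∧ deg g ≤ b ∧ d = (deg (comp f g) : Deg)} (Deg.star a b : Deg) := by
  obtain ⟨f, rfl⟩ := deg_surj a
  obtain ⟨g, rfl⟩ := deg_surj b
  constructor
  · obtain ⟨f', g', h1, h2, h3⟩ := star_eq_comp f g
    exact ⟨f', g', deg_le_iff.2 h1, deg_le_iff.2 h2, by rw [deg_star, h3]⟩
  · rintro d ⟨f', g', h1, h2, rfl⟩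
    rw [deg_star, WithTop.coe_le_coe, deg_le_iff]
    exact comp_le_star (deg_le_iff.1 h1) (deg_le_iff.1 h2)

theorem Deg.hat_le_iff (a p : Deg) : Deg.hat a ≤ p ↔
    ∀ ω ν h : Deg, h ≤ Deg.prod (Deg.prod a (Deg.fstar a)) ω →
      (∀ c, h ≤ Deg.star ν c → h ≤ c) →
      ∃ g, g ≤ ω ∧ (∀ c, g ≤ Deg.star ν c → g ≤ c) ∧ h ≤ Deg.star g p := by
  obtain ⟨a, rfl⟩ := deg_surj a
  obtain ⟨p, rfl⟩ := deg_surj p
  rw [deg_hat, deg_le_iff, MP_f095a5_lc.hat_le_iff]
  constructor
  · intro H ω ν h h1 h2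
    obtain ⟨ω, rfl⟩ := deg_surj ω
    obtain ⟨ν, rfl⟩ := deg_surj ν
    obtain ⟨h, rfl⟩ := deg_surj h
    obtain ⟨g, h3, h4, h5⟩ := H ω ν h (deg_le_iff.1 h1)
      (fun c hc => deg_le_iff.1 (h2 (deg c) (deg_le_iff.2 hc)))
    refine ⟨deg g, deg_le_iff.2 h3, fun c hc => ?_, deg_le_iff.2 h5⟩
    obtain ⟨c, rfl⟩ := deg_surj c
    exact deg_le_iff.2 (h4 c (deg_le_iff.1 hc))
  · intro H ω ν h h1 h2
    obtain ⟨g, h3, h4, h5⟩ := H (deg ω) (deg ν) (deg h) (deg_le_iff.2 h1) (fun c hc => by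
      obtain ⟨c, rfl⟩ := deg_surj c
      exact deg_le_iff.2 (h2 c (deg_le_iff.1 hc)))
    obtain ⟨g, rfl⟩ := deg_surj g
    exact ⟨g, deg_le_iff.1 h3, fun c hc => deg_le_iff.1 (h4 (deg c) (deg_le_iff.2 hc)),
      deg_le_iff.1 h5⟩

end Pool.Agent.Lib.MP_f095a5_lc
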