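import Pool.Agent.Lib.MP_f095a5_lc.Degrees

/-!
# The first-order formula
-/

open FirstOrder FirstOrder.Language

namespace Pool.Agent.Lib.MP_f095a5_lc

universe u v

section

variable {L : FirstOrder.Language.{u, v}} {α : Type} {n : ℕ}

/-- Weakening of a term. -/
def up (t : L.Term (α ⊕ Fin n)) : L.Term (α ⊕ Fin (n + 1)) :=
  t.relabel (Sum.map id Fin.castSucc)

/-- The newest variable. -/
def nw : L.Term (α ⊕ Fin (n + 1)) := Term.var (Sum.inr (Fin.last n))

variable [L.Structure WDeg]

theorem realize_up (t : L.Term (α ⊕ Fin n)) (v : α → WDeg) (xs : Fin n → WDeg) (x : WDeg) :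
    (up t).realize (Sum.elim v (Fin.snoc xs x : Fin (n + 1) → WDeg)) =
      t.realize (Sum.elim v xs) := by
  rw [up, Term.realize_relabel]
  congr 1
  funext s
  rcases s with s | s
  · rfl
  · simp

theorem realize_nw (v : α → WDeg) (xs : Fin n → WDeg) (x : WDeg) :
    (nw : L.Term (α ⊕ Fin (n + 1))).realize
      (Sum.elim v (Fin.snoc xs x : Fin (n + 1) → WDeg)) = x := by
  simp [nw]

variable (le : L.Relations 2) (mul cp : L.Functions 2) (st : L.Functions 1)

/-- The value of the term is the top element. -/
def topF (t : L.Term (α ⊕ Fin n)) : L.BoundedFormula α n :=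
  ∀' (le.boundedFormula₂ nw (up t))

/-- Universal quantification over the proper degrees. -/
def allP (φ : L.BoundedFormula α (n + 1)) : L.BoundedFormula α n := ∀' (∼(topF le nw) ⟹ φ)

/-- Existential quantification over the proper degrees. -/
def exP (φ : L.BoundedFormula α (n + 1)) : L.BoundedFormula α n := ∃' (∼(topF le nw) ⊓ φ)

/-- The immunity formula. -/
def immF (ν h : L.Term (α ⊕ Fin n)) : L.BoundedFormula α n :=
  allP le (le.boundedFormula₂ (up h) (cp.apply₂ (up ν) nw) ⟹ le.boundedFormula₂ (up h) nw)

/-- The formula expressing that `p` is above the parallelization of `a`. -/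
def coneF (a p : L.Term (α ⊕ Fin n)) : L.BoundedFormula α n :=
  allP le (allP le (allP le (
    le.boundedFormula₂ nw (mul.apply₂ (mul.apply₂ (up (up (up a))) (st.apply₁ (up (up (up a)))))
      (up (up nw))) ⟹
    (immF le cp (up nw) nw ⟹
    exP le (le.boundedFormula₂ nw (up (up (up nw))) ⊓
      (immF le cp (up (up nw)) nw ⊓
        le.boundedFormula₂ (up nw) (cp.apply₂ nw (up (up (up (up p)))))))))))

/-- The formula defining the graph of the parallelization. -/
def hatF (a b : L.Term (α ⊕ Fin n)) : L.BoundedFormula α n :=
  (topF le a ⊓ topF le b) ⊔ ((∼(topF le a) ⊓ ∼(topF le b)) ⊓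
    allP le (le.boundedFormula₂ (up b) nw ⇔ coneF le mul cp st (up a) nw))

variable {le mul cp st}
variable (hle : ∀ a b : WDeg, Structure.RelMap le ![a, b] ↔ a ≤ b)
variable (hmul : ∀ a b : Deg, Structure.funMap mul ![(a : WDeg), (b : WDeg)] = (Deg.prod a b : Deg))
variable (hcp : ∀ a b : Deg, Structure.funMap cp ![(a : WDeg), (b : WDeg)] = (Deg.star a b : Deg))
variable (hst : ∀ a : Deg, Structure.funMap st ![(a : WDeg)] = (Deg.fstar a : Deg))

include hle

theorem realize_topF (t : L.Term (α ⊕ Fin n)) (v : α → WDeg) (xs : Fin n → WDeg) :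
    (topF le t).Realize v xs ↔ t.realize (Sum.elim v xs) = ⊤ := by
  rw [topF, BoundedFormula.realize_all]
  constructor
  · intro h
    have h1 := h ⊤
    rw [BoundedFormula.realize_rel₂, realize_nw, realize_up, hle] at h1
    exact top_le_iff.1 h1
  · intro h x
    rw [BoundedFormula.realize_rel₂, realize_nw, realize_up, hle, h]
    exact le_top

theorem realize_allP (φ : L.BoundedFormula α (n + 1)) (v : α → WDeg) (xs : Fin n → WDeg) :
    (allP le φ).Realize v xs ↔ ∀ x : Deg, φ.Realize v (Fin.snoc xs (x : WDeg)) := by
  rw [allP, BoundedFormula.realize_all]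
  constructor
  · intro h x
    have h1 := h x
    rw [BoundedFormula.realize_imp, BoundedFormula.realize_not, realize_topF hle, realize_nw] at h1
    exact h1 (WithTop.coe_ne_top)
  · intro h x
    rw [BoundedFormula.realize_imp, BoundedFormula.realize_not, realize_topF hle, realize_nw]
    intro hx
    obtain ⟨x, rfl⟩ := WithTop.ne_top_iff_exists.1 hx
    exact h x

theorem realize_exP (φ : L.BoundedFormula α (n + 1)) (v : α → WDeg) (xs : Fin n → WDeg) :
    (exP le φ).Realize v xs ↔ ∃ x : Deg, φ.Realize v (Fin.snoc xs (x : WDeg)) := by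
  rw [exP, BoundedFormula.realize_ex]
  constructor
  · rintro ⟨x, hx⟩
    rw [BoundedFormula.realize_inf, BoundedFormula.realize_not, realize_topF hle, realize_nw] at hx
    obtain ⟨hx, h⟩ := hx
    obtain ⟨x, rfl⟩ := WithTop.ne_top_iff_exists.1 hx
    exact ⟨x, h⟩
  · rintro ⟨x, hx⟩
    refine ⟨x, ?_⟩
    rw [BoundedFormula.realize_inf, BoundedFormula.realize_not, realize_topF hle, realize_nw]
    exact ⟨WithTop.coe_ne_top, hx⟩

include hcp

theorem realize_immF (ν h : L.Term (α ⊕ Fin n)) (v : α → WDeg) (xs : Fin n → WDeg)
    {N H : Deg} (hν : ν.realize (Sum.elim v xs) = N) (hh : h.realize (Sum.elim v xs) = H) :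
    (immF le cp ν h).Realize v xs ↔ ∀ c : Deg, H ≤ Deg.star N c → H ≤ c := by
  rw [immF, realize_allP hle]
  apply forall_congr'
  intro c
  rw [BoundedFormula.realize_imp, BoundedFormula.realize_rel₂, BoundedFormula.realize_rel₂,
    Term.realize_functions_apply₂, realize_up, realize_up, realize_nw, hν, hh, hcp, hle, hle,
    WithTop.coe_le_coe, WithTop.coe_le_coe]

include hmul hst

theorem realize_coneF (a p : L.Term (α ⊕ Fin n)) (v : α → WDeg) (xs : Fin n → WDeg)
    {A P : Deg} (ha : a.realize (Sum.elim v xs) = A) (hp : p.realize (Sum.elim v xs) = P) :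
    (coneF le mul cp st a p).Realize v xs ↔ Deg.hat A ≤ P := by
  rw [Deg.hat_le_iff, coneF, realize_allP hle]
  apply forall_congr'
  intro ω
  rw [realize_allP hle]
  apply forall_congr'
  intro ν
  rw [realize_allP hle]
  apply forall_congr'
  intro h
  rw [BoundedFormula.realize_imp, BoundedFormula.realize_imp, BoundedFormula.realize_rel₂,
    Term.realize_functions_apply₂, Term.realize_functions_apply₂, Term.realize_functions_apply₁,
    realize_up, realize_up, realize_up, realize_up, realize_up, realize_nw, realize_nw, ha, hst,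
    hmul, hmul, hle, WithTop.coe_le_coe,
    realize_immF hle hcp (N := ν) (H := h) _ _ _ _ (by rw [realize_up, realize_nw])
      (by rw [realize_nw]), realize_exP hle]
  apply imp_congr Iff.rfl
  apply imp_congr Iff.rfl
  apply exists_congr
  intro g
  rw [BoundedFormula.realize_inf, BoundedFormula.realize_inf, BoundedFormula.realize_rel₂,
    BoundedFormula.realize_rel₂, Term.realize_functions_apply₂,
    realize_immF hle hcp (N := ν) (H := g) _ _ _ _ (by rw [realize_up, realize_up, realize_nw])
      (by rw [realize_nw]),
    realize_up, realize_up, realize_up, realize_up, realize_up, realize_up, realize_up, realize_up,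
    realize_nw, realize_nw, realize_nw, hp, hcp, hle, hle, WithTop.coe_le_coe,
    WithTop.coe_le_coe]

theorem realize_hatF (a b : L.Term (α ⊕ Fin n)) (v : α → WDeg) (xs : Fin n → WDeg) :
    (hatF le mul cp st a b).Realize v xs ↔
      b.realize (Sum.elim v xs) = parallelization (a.realize (Sum.elim v xs)) := by
  rw [hatF, BoundedFormula.realize_sup, BoundedFormula.realize_inf, BoundedFormula.realize_inf,
    BoundedFormula.realize_inf, BoundedFormula.realize_not, BoundedFormula.realize_not,
    realize_topF hle, realize_topF hle, realize_allP hle]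
  generalize ha : a.realize (Sum.elim v xs) = A
  generalize hb : b.realize (Sum.elim v xs) = C
  induction A using WithTop.recTopCoe with
  | top => simp [parallelization]
  | coe A =>
    induction C using WithTop.recTopCoe with
    | top => simp [parallelization]
    | coe C =>
      have h1 : parallelization (A : WDeg) = (Deg.hat A : WDeg) := rfl
      rw [h1]
      have h2 : ∀ x : Deg, (le.boundedFormula₂ (up b) nw ⇔
          coneF le mul cp st (up a) nw).Realize v (Fin.snoc xs (x : WDeg)) ↔
          (C ≤ x ↔ Deg.hat A ≤ x) := by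
        intro x
        rw [BoundedFormula.realize_iff, BoundedFormula.realize_rel₂, realize_up, realize_nw, hb,
          hle, WithTop.coe_le_coe,
          realize_coneF hle hmul hcp hst (A := A) (P := x) _ _ _ _ (by rw [realize_up, ha])
            (by rw [realize_nw])]
      simp only [h2]
      simp only [WithTop.coe_ne_top, not_false_eq_true, and_self, false_or,
        true_and, WithTop.coe_inj]
      constructor
      · intro h
        exact le_antisymm ((h _).2 le_rfl) ((h _).1 le_rfl)
      · rintro rfl x
        exact Iff.rfl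

end

end Pool.Agent.Lib.MP_f095a5_lc
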