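import Pool.Agent.Lib.MP_f095a5_lc.Basic

/-!
# The easy direction of the characterization
-/

open Encodable

namespace Pool.Agent.Lib.MP_f095a5_lc

section

variable {α β : Type*} [Primcodable α] [Primcodable β]

theorem FOp.opcomp {Ψ : PSet → PSet} (hΨ : FOp fun X (_ : Unit) => Ψ X) {Θ : PSet → α → PSet}
    (hΘ : FOp Θ) : FOp fun X a => Ψ (Θ X a) :=
  FOp.comp (Ψ := fun X (_ : Unit) => Ψ X) (f := fun _ : α => ()) hΨ hΘ (Primrec.const ())

theorem FOp.jnc {Ψ : PSet → ℕ → PSet} (hΨ : FOp Ψ) :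
    FOp fun X (_ : Unit) => jnS fun j => Ψ X j :=
  FOp.jn (Ψ := fun X (a : Unit × ℕ) => Ψ X a.2) (hΨ.reparam Primrec.snd)

end

theorem forward {f p : Problem} (hfp : WRed (hat f) p) (ω ν h : Problem)
    (h1 : WRed h (prod (prod f (fstar f)) ω)) (h2 : ∀ c, WRed h (star ν c) → WRed h c) :
    ∃ g, WRed g ω ∧ (∀ c, WRed g (star ν c) → WRed g c) ∧ WRed h (star g p) := by
  by_cases hν : ∃ z0, (ν z0).Nonempty
  swap
  · refine ⟨ω, WRed.refl ω, fun c hc => ?_, ?_⟩
    · obtain ⟨k, j, _, _, H⟩ := hc.elim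
      refine WRed.of_sub fun x hx => ?_
      obtain ⟨x', _, hx', _⟩ := H x hx
      rw [star_nonempty] at hx'
      obtain ⟨⟨y, hy⟩, h3⟩ := hx'
      obtain ⟨u, _, hu⟩ := h3 y hy
      exact absurd ⟨u, hu⟩ hν
    · exact (h1.trans (prod_mono ((prod_fstar_le_hat f).trans hfp) (WRed.refl ω))).trans
        (prod_le_star p ω)
  obtain ⟨z0, hz0⟩ := hν
  obtain ⟨k1, j1, hk1, hj1, H1⟩ := (h2 (resid ν h) (le_star_resid hz0)).elim
  obtain ⟨k0, j0, hk0, hj0, H0⟩ :=
    (h1.trans (prod_mono (prod_fstar_le_hat f) (WRed.refl ω))).elim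
  obtain ⟨k4, j4, hk4, hj4, H4⟩ := hfp.elim
  classical
  -- the maps `κ` and `ξ` on instances of `h`
  have hκ : ∀ y, ∃ y', (h y).Nonempty → appS (G k1) (G y) = G y' ∧ (resid ν h y').Nonempty ∧
      ∀ w ∈ resid ν h y', ∃ u ∈ h y, appS (G j1) (pairS (G y) (G w)) = G u := by
    intro y
    by_cases hy : (h y).Nonempty
    · obtain ⟨y', h'⟩ := H1 y hy
      exact ⟨y', fun _ => h'⟩
    · exact ⟨y, fun h' => absurd h' hy⟩
  choose κ hκ using hκ
  have hξ : ∀ y, ∃ w, (h y).Nonempty → appS (G k0) (G y) = G w ∧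
      (prod (hat f) ω w).Nonempty ∧
      ∀ v ∈ prod (hat f) ω w, ∃ u ∈ h y, appS (G j0) (pairS (G y) (G v)) = G u := by
    intro y
    by_cases hy : (h y).Nonempty
    · obtain ⟨y', h'⟩ := H0 y hy
      exact ⟨y', fun _ => h'⟩
    · exact ⟨y, fun h' => absurd h' hy⟩
  choose ξ hξ using hξ
  have hκdom : ∀ y, (h y).Nonempty → (h (κ y)).Nonempty := fun y hy =>
    resid_nonempty (hκ y hy).2.1
  have hit : ∀ y, (h y).Nonempty → ∀ n, (fun Y => appS (G k1) Y)^[n] (G y) = G (κ^[n] y) ∧
      (h (κ^[n] y)).Nonempty := by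
    intro y hy n
    induction n with
    | zero => exact ⟨rfl, hy⟩
    | succ n ih =>
      rw [Function.iterate_succ_apply', Function.iterate_succ_apply', ih.1]
      exact ⟨(hκ _ ih.2).1, hκdom _ ih.2⟩
  -- the instance of the parallelization
  let P : B → B := fun y => jn fun c => col (fst (ξ (κ^[c.unpair.1] y))) c.unpair.2
  let PP : PSet → PSet := fun X => jnS fun c =>
    colS (fstS (appS (G k0) ((fun Y => appS (G k1) Y)^[c.unpair.1] X))) c.unpair.2
  have hPP : FOp fun X (_ : Unit) => PP X := by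
    apply FOp.jnc (Ψ := fun X c =>
      colS (fstS (appS (G k0) ((fun Y => appS (G k1) Y)^[c.unpair.1] X))) c.unpair.2)
    apply FOp.col _ primrec_unpair2
    apply FOp.fst
    apply FOp.app (FOp.constReal hk0)
    have hΨ : FOp fun X (_ : Unit) => appS (G k1) X := (FOp.constReal hk1).app FOp.id
    exact (FOp.iter hΨ).reparam (f := fun c : ℕ => ((), c.unpair.1))
      (Primrec.pair (Primrec.const ()) primrec_unpair1)
  have hP : ∀ y, (h y).Nonempty → PP (G y) = G (P y) := by
    intro y hy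
    apply jnS_eq
    intro c
    obtain ⟨h3, h4⟩ := hit y hy c.unpair.1
    rw [h3, (hξ _ h4).1, fstS_G, colS_G]
  have hPdom : ∀ y, (h y).Nonempty → (hat f (P y)).Nonempty := by
    intro y hy
    rw [hat_nonempty]
    intro c
    obtain ⟨h3, h4⟩ := hit y hy c.unpair.1
    have h5 := (prod_nonempty.1 (hξ _ h4).2.1).1
    rw [hat_nonempty] at h5
    simp only [P, col_jn]
    exact h5 _
  let g : Problem := fun w => {u | snd w ∈ hat f (P (fst w)) ∧ u ∈ h (fst w)}
  have hgne : ∀ w, (g w).Nonempty → (h (fst w)).Nonempty ∧ snd w ∈ hat f (P (fst w)) := by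
    rintro w ⟨u, h3, h4⟩
    exact ⟨⟨u, h4⟩, h3⟩
  refine ⟨g, ?_, ?_, ?_⟩
  · -- `g ≤ ω`
    refine WRed.of_ops (fun X => sndS (appS (G k0) (fstS X)))
      (fun X => appS (G j0) (pairS (fstS (fstS X))
        (pairS (jnS fun j => colS (sndS (fstS X)) (Nat.pair 0 j)) (sndS X)))) ?_ ?_ ?_
    · exact ((FOp.constReal hk0).app FOp.id.fst).snd
    · apply (FOp.constReal hj0).app
      apply FOp.id.fst.fst.pair
      apply FOp.pair _ FOp.id.snd
      exact FOp.jnc (Ψ := fun X j => colS (sndS (fstS X)) (Nat.pair 0 j))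
        (FOp.id.fst.snd.col (Primrec₂.natPair.comp (Primrec.const 0) Primrec.id))
    · intro w hw
      obtain ⟨hy, hS⟩ := hgne w hw
      obtain ⟨h3, h4, h5⟩ := hξ _ hy
      refine ⟨snd (ξ (fst w)), ?_, (prod_nonempty.1 h4).2, fun v hv => ?_⟩
      · rw [fstS_G, h3, sndS_G]
      · have hv' : pair (jn fun j => col (snd w) (Nat.pair 0 j)) v ∈
            prod (hat f) ω (ξ (fst w)) := by
          refine ⟨?_, by simpa using hv⟩
          rw [fst_pair]
          intro j
          rw [col_jn]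
          have h6 := hS (Nat.pair 0 j)
          simpa [P] using h6
        obtain ⟨u, hu, hu'⟩ := h5 _ hv'
        refine ⟨u, ⟨hS, hu⟩, ?_⟩
        simp only [fstS_G, sndS_G, fst_pair, snd_pair, colS_G]
        rw [jnS_eq (F := fun j => col (snd w) (Nat.pair 0 j)) (fun j => rfl), pairS_G, hu']
  · -- `g` is immune
    intro c hc
    obtain ⟨k2, j2, hk2, hj2, H2⟩ := hc.elim
    let W : PSet → PSet := fun X => pairS (appS (G k1) (fstS X))
      (jnS fun c => colS (sndS X) (Nat.pair (c.unpair.1 + 1) c.unpair.2))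
    have hW : FOp fun X (_ : Unit) => W X := by
      apply ((FOp.constReal hk1).app FOp.id.fst).pair
      exact FOp.jnc (Ψ := fun X c => colS (sndS X) (Nat.pair (c.unpair.1 + 1) c.unpair.2))
        (FOp.id.snd.col (Primrec₂.natPair.comp (Primrec.succ.comp primrec_unpair1)
          primrec_unpair2))
    obtain ⟨r0, hr0, hr0'⟩ := FOp.exists_name (Ψ := fun X => appS (G j2)
      (pairS (fstS (fstS X)) (pairS (sndS (fstS X)) (sndS X))))
      ((FOp.constReal hj2).app (FOp.id.fst.fst.pair (FOp.id.fst.snd.pair FOp.id.snd)))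
    refine WRed.of_ops (fun X => sndS (appS (G k2) (W X)))
      (fun X => appS (G j1) (pairS (fstS (fstS X))
        (pairS (appS (fstS (appS (G k2) (W (fstS X)))) (sndS X))
          (smnS (G r0) (pairS (W (fstS X)) (sndS X)))))) ?_ ?_ ?_
    · exact ((FOp.constReal hk2).app hW).snd
    · apply (FOp.constReal hj1).app
      apply FOp.id.fst.fst.pair
      have hWf : FOp fun X (_ : Unit) => W (fstS X) := FOp.opcomp hW FOp.id.fst
      exact ((((FOp.constReal hk2).app hWf).fst).app FOp.id.snd).pair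
        ((FOp.constReal hr0).smn (hWf.pair FOp.id.snd))
    · intro w hw
      obtain ⟨hy, hS⟩ := hgne w hw
      obtain ⟨h3, h4, h5⟩ := hκ _ hy
      -- the shifted instance
      let S' : B := jn fun c => col (snd w) (Nat.pair (c.unpair.1 + 1) c.unpair.2)
      let w' : B := pair (κ (fst w)) S'
      have hWw : W (G w) = G w' := by
        simp only [W, fstS_G, sndS_G, colS_G]
        rw [h3, jnS_eq (F := fun c => col (snd w)
          (Nat.pair (c.unpair.1 + 1) c.unpair.2)) (fun j => rfl), pairS_G]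
      have hw' : (g w').Nonempty := by
        obtain ⟨u, hu⟩ := hκdom _ hy
        refine ⟨u, ?_, by simpa [w'] using hu⟩
        simp only [w', fst_pair, snd_pair]
        intro c
        simp only [S', P, col_jn]
        have h6 := hS (Nat.pair (c.unpair.1 + 1) c.unpair.2)
        simpa [P, Function.iterate_succ_apply] using h6
      obtain ⟨v, hv1, hv2, hv3⟩ := H2 w' hw'
      rw [star_nonempty] at hv2
      obtain ⟨hc1, hc2⟩ := hv2
      refine ⟨snd v, ?_, hc1, fun t ht => ?_⟩
      · rw [hWw, hv1, sndS_G]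
      · obtain ⟨z, hz, hνz⟩ := hc2 t ht
        have hres : pair z (smn r0 (pair w' t)) ∈ resid ν h (κ (fst w)) := by
          refine ⟨by simpa using hνz, fun s hs => ?_⟩
          rw [fst_pair] at hs
          have hst : pair t s ∈ star ν c v :=
            ⟨hc2, by simpa using ht, z, by simpa using hz, by simpa using hs⟩
          obtain ⟨u, hu, hu'⟩ := hv3 _ hst
          refine ⟨u, ?_, ?_⟩
          · have h7 := hu.2
            simpa [w'] using h7
          · rw [snd_pair, app_iff, appS_smn, hr0', pairS_G]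
            simp only [fstS_G, sndS_G, fst_pair, snd_pair, pairS_G]
            rw [pairS_G] at hu'
            exact hu'
        obtain ⟨u, hu, hu'⟩ := h5 _ hres
        refine ⟨u, ⟨hS, hu⟩, ?_⟩
        simp only [fstS_G, sndS_G, fst_pair, snd_pair]
        rw [hWw, hv1, fstS_G, hz.eq, pairS_G, smnS_G, pairS_G, hu']
  · -- `h ≤ g ⋆ p`
    obtain ⟨r4, hr4, hr4'⟩ := FOp.exists_name (Ψ := fun X => pairS (fstS X)
      (appS (G j4) (pairS (PP (fstS X)) (sndS X))))
      (FOp.id.fst.pair ((FOp.constReal hj4).app ((FOp.opcomp hPP FOp.id.fst).pair FOp.id.snd)))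
    refine WRed.of_ops (fun X => pairS (smnS (G r4) X) (appS (G k4) (PP X)))
      (fun X => sndS (sndS X))
      (((FOp.constReal hr4).smn FOp.id).pair ((FOp.constReal hk4).app hPP)) FOp.id.snd.snd ?_
    intro y hy
    obtain ⟨x', h3, h4, h5⟩ := H4 (P y) (hPdom y hy)
    have key : ∀ t ∈ p x', ∃ S ∈ hat f (P y), App (smn r4 y) t (pair y S) := by
      intro t ht
      obtain ⟨S, hS, hS'⟩ := h5 t ht
      refine ⟨S, hS, ?_⟩
      rw [app_iff, appS_smn, hr4', pairS_G]
      simp only [fstS_G, sndS_G, fst_pair, snd_pair]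
      rw [hP y hy, hS', pairS_G]
    refine ⟨pair (smn r4 y) x', ?_, ?_, ?_⟩
    · rw [smnS_G, hP y hy, h3, pairS_G]
    · rw [star_nonempty, fst_pair, snd_pair]
      refine ⟨h4, fun t ht => ?_⟩
      obtain ⟨S, hS, hS'⟩ := key t ht
      obtain ⟨u, hu⟩ := hy
      exact ⟨_, hS', u, by simpa using hS, by simpa using hu⟩
    · rintro w ⟨_, hw2, u, hu, hw3⟩
      rw [snd_pair] at hw2
      rw [fst_pair] at hu
      obtain ⟨S, hS, hS'⟩ := key _ hw2
      obtain rfl := hu.unique hS'
      refine ⟨snd w, ?_, ?_⟩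
      · have h7 := hw3.2
        simpa using h7
      · simp only [sndS_G, snd_pair]

end Pool.Agent.Lib.MP_f095a5_lc
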