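import Pool.Agent.Lib.MP_f095a5_lc.Sigma
import Pool.Agent.Lib.MP_f095a5_lc.Defs

/-!
# Enumeration operators and names of continuous functions on Baire space
-/

open Encodable

namespace Pool.Agent.Lib.MP_f095a5_lc

/-- The graph of an element of Baire space. -/
def G (x : B) : PSet := {b | x b.1 = b.2}

@[simp] theorem mem_G {x : B} {b : ℕ × ℕ} : b ∈ G x ↔ x b.1 = b.2 := Iff.rfl

theorem G_inj {x y : B} (h : G x = G y) : x = y := by
  funext n
  have : (n, x n) ∈ G y := by rw [← h]; simp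
  simpa using this.symm

@[simp] theorem G_eq_iff {x y : B} : G x = G y ↔ x = y := ⟨G_inj, fun h => h ▸ rfl⟩

/-- Application of a name (a set of axioms) to a set. -/
def appS (R X : PSet) : PSet :=
  {b | ∃ (m : ℕ) (L : List (ℕ × ℕ)), (m, encode (L, b) + 1) ∈ R ∧ ∀ e ∈ L, e ∈ X}

@[simp] theorem fst_pair (x y : B) : fst (pair x y) = x := by funext n; simp [fst, pair]

@[simp] theorem snd_pair (x y : B) : snd (pair x y) = y := by funext n; simp [snd, pair]

@[simp] theorem pair_fst_snd (p : B) : pair (fst p) (snd p) = p := by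
  funext n; simp [fst, snd, pair]

theorem pair_inj {x y x' y' : B} (h : pair x y = pair x' y') : x = x' ∧ y = y' :=
  ⟨by have := congrArg fst h; simpa using this, by have := congrArg snd h; simpa using this⟩

/-- Pairing on sets. -/
def pairS (X Y : PSet) : PSet := {b | (b.1, b.2.unpair.1) ∈ X ∧ (b.1, b.2.unpair.2) ∈ Y}

/-- First component on sets. -/
def fstS (X : PSet) : PSet := {b | ∃ c, (b.1, Nat.pair b.2 c) ∈ X}

/-- Second component on sets. -/
def sndS (X : PSet) : PSet := {b | ∃ c, (b.1, Nat.pair c b.2) ∈ X}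

@[simp] theorem pairS_G (x y : B) : pairS (G x) (G y) = G (pair x y) := by
  ext ⟨n, v⟩
  simp only [pairS, Set.mem_ofPred_eq, mem_G, pair]
  constructor
  · rintro ⟨h1, h2⟩; rw [h1, h2]; simp
  · intro h; rw [← h]; simp

@[simp] theorem fstS_G (p : B) : fstS (G p) = G (fst p) := by
  ext ⟨n, v⟩
  simp only [fstS, Set.mem_ofPred_eq, mem_G, fst]
  constructor
  · rintro ⟨c, h⟩; rw [h]; simp
  · intro h; exact ⟨(p n).unpair.2, by rw [← h]; simp⟩

@[simp] theorem sndS_G (p : B) : sndS (G p) = G (snd p) := by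
  ext ⟨n, v⟩
  simp only [sndS, Set.mem_ofPred_eq, mem_G, snd]
  constructor
  · rintro ⟨c, h⟩; rw [h]; simp
  · intro h; exact ⟨(p n).unpair.1, by rw [← h]; simp⟩

section FOp

variable {α β γ : Type*} [Primcodable α] [Primcodable β] [Primcodable γ]

/-- Effective families of enumeration operators. -/
def FOp (Ψ : PSet → α → PSet) : Prop := PS fun X (p : α × (ℕ × ℕ)) => p.2 ∈ Ψ X p.1

theorem FOp.of_eq {Ψ Θ : PSet → α → PSet} (h : FOp Ψ) (e : ∀ X a, Ψ X a = Θ X a) : FOp Θ := by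
  have : Ψ = Θ := by funext X a; exact e X a
  exact this ▸ h

theorem FOp.mono {Ψ : PSet → α → PSet} (h : FOp Ψ) {X Y : PSet} (hXY : X ⊆ Y) (a : α) :
    Ψ X a ⊆ Ψ Y a := fun b hb => PS.mono h (a := (a, b)) hXY hb

theorem FOp.id : FOp fun X (_ : α) => X := PS.mem.comp Primrec.snd

theorem FOp.const {A : α → PSet} (h : RE fun p : α × (ℕ × ℕ) => p.2 ∈ A p.1) :
    FOp fun _ a => A a := PS.of_re h

theorem FOp.comp {Ψ : PSet → β → PSet} (hΨ : FOp Ψ) {Θ : PSet → α → PSet} (hΘ : FOp Θ)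
    {f : α → β} (hf : Primrec f) : FOp fun X a => Ψ (Θ X a) (f a) := by
  have h1 : PS fun X (p : (α × (ℕ × ℕ)) × (ℕ × ℕ)) => p.2 ∈ Θ X p.1.1 :=
    PS.comp (f := fun p : (α × (ℕ × ℕ)) × (ℕ × ℕ) => (p.1.1, p.2)) hΘ
      (Primrec.pair (Primrec.fst.comp Primrec.fst) Primrec.snd)
  exact PS.subst hΨ (Q := fun X (p : α × (ℕ × ℕ)) => Θ X p.1) h1
    (f := fun p : α × (ℕ × ℕ) => (f p.1, p.2))
    (Primrec.pair (hf.comp Primrec.fst) Primrec.snd)

theorem FOp.reparam {Ψ : PSet → β → PSet} (hΨ : FOp Ψ) {f : α → β} (hf : Primrec f) :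
    FOp fun X a => Ψ X (f a) := hΨ.comp FOp.id hf

/-- Membership of a computed element in a family of operators. -/
theorem FOp.memAt {Ψ : PSet → β → PSet} (hΨ : FOp Ψ) {f : α → β} (hf : Primrec f)
    {g : α → ℕ × ℕ} (hg : Primrec g) : PS fun X a => g a ∈ Ψ X (f a) :=
  PS.comp (f := fun a => (f a, g a)) hΨ (Primrec.pair hf hg)

theorem FOp.app {Ψ Θ : PSet → α → PSet} (hΨ : FOp Ψ) (hΘ : FOp Θ) :
    FOp fun X a => appS (Ψ X a) (Θ X a) := by
  unfold FOp appS
  simp only [Set.mem_ofPred_eq]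
  apply PS.ex (β := ℕ)
    (R := fun X (p : α × (ℕ × ℕ)) m => ∃ (L : List (ℕ × ℕ)),
      (m, encode (L, p.2) + 1) ∈ Ψ X p.1 ∧ ∀ e ∈ L, e ∈ Θ X p.1)
  apply PS.ex (β := List (ℕ × ℕ))
    (R := fun X (p : (α × (ℕ × ℕ)) × ℕ) (L : List (ℕ × ℕ)) =>
      (p.2, encode (L, p.1.2) + 1) ∈ Ψ X p.1.1 ∧ ∀ e ∈ L, e ∈ Θ X p.1.1)
  apply PS.and
  · apply FOp.memAt hΨ (f := fun p : ((α × (ℕ × ℕ)) × ℕ) × List (ℕ × ℕ) => p.1.1.1)
      (g := fun p : ((α × (ℕ × ℕ)) × ℕ) × List (ℕ × ℕ) => (p.1.2, encode (p.2, p.1.1.2) + 1))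
    · exact Primrec.fst.comp (Primrec.fst.comp Primrec.fst)
    · exact Primrec.pair (Primrec.snd.comp Primrec.fst)
        (Primrec.succ.comp (Primrec.encode.comp (Primrec.pair Primrec.snd
          (Primrec.snd.comp (Primrec.fst.comp Primrec.fst)))))
  · exact (PS.ball (R := fun X (a : α) b => b ∈ Θ X a) hΘ).comp
      (f := fun p : ((α × (ℕ × ℕ)) × ℕ) × List (ℕ × ℕ) => (p.1.1.1, p.2))
      (Primrec.pair (Primrec.fst.comp (Primrec.fst.comp Primrec.fst)) Primrec.snd)

theorem primrec_unpair1 : Primrec fun n : ℕ => n.unpair.1 := Primrec.fst.comp Primrec.unpair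
theorem primrec_unpair2 : Primrec fun n : ℕ => n.unpair.2 := Primrec.snd.comp Primrec.unpair

theorem FOp.pair {Ψ Θ : PSet → α → PSet} (hΨ : FOp Ψ) (hΘ : FOp Θ) :
    FOp fun X a => pairS (Ψ X a) (Θ X a) := by
  unfold FOp pairS
  simp only [Set.mem_ofPred_eq]
  apply PS.and
  · apply FOp.memAt hΨ (f := fun p : α × (ℕ × ℕ) => p.1)
      (g := fun p : α × (ℕ × ℕ) => (p.2.1, p.2.2.unpair.1)) Primrec.fst
    exact Primrec.pair (Primrec.fst.comp Primrec.snd)
      (primrec_unpair1.comp (Primrec.snd.comp Primrec.snd))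
  · apply FOp.memAt hΘ (f := fun p : α × (ℕ × ℕ) => p.1)
      (g := fun p : α × (ℕ × ℕ) => (p.2.1, p.2.2.unpair.2)) Primrec.fst
    exact Primrec.pair (Primrec.fst.comp Primrec.snd)
      (primrec_unpair2.comp (Primrec.snd.comp Primrec.snd))

theorem FOp.fst {Ψ : PSet → α → PSet} (hΨ : FOp Ψ) : FOp fun X a => fstS (Ψ X a) := by
  unfold FOp fstS
  simp only [Set.mem_ofPred_eq]
  apply PS.ex (R := fun X (p : α × (ℕ × ℕ)) c => (p.2.1, Nat.pair p.2.2 c) ∈ Ψ X p.1)
  apply FOp.memAt hΨ (f := fun p : (α × (ℕ × ℕ)) × ℕ => p.1.1)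
    (g := fun p : (α × (ℕ × ℕ)) × ℕ => (p.1.2.1, Nat.pair p.1.2.2 p.2))
    (Primrec.fst.comp Primrec.fst)
  exact Primrec.pair (Primrec.fst.comp (Primrec.snd.comp Primrec.fst))
    (Primrec₂.natPair.comp (Primrec.snd.comp (Primrec.snd.comp Primrec.fst)) Primrec.snd)

theorem FOp.snd {Ψ : PSet → α → PSet} (hΨ : FOp Ψ) : FOp fun X a => sndS (Ψ X a) := by
  unfold FOp sndS
  simp only [Set.mem_ofPred_eq]
  apply PS.ex (R := fun X (p : α × (ℕ × ℕ)) c => (p.2.1, Nat.pair c p.2.2) ∈ Ψ X p.1)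
  apply FOp.memAt hΨ (f := fun p : (α × (ℕ × ℕ)) × ℕ => p.1.1)
    (g := fun p : (α × (ℕ × ℕ)) × ℕ => (p.1.2.1, Nat.pair p.2 p.1.2.2))
    (Primrec.fst.comp Primrec.fst)
  exact Primrec.pair (Primrec.fst.comp (Primrec.snd.comp Primrec.fst))
    (Primrec₂.natPair.comp Primrec.snd (Primrec.snd.comp (Primrec.snd.comp Primrec.fst)))

end FOp

/-! ## Names -/

/-- Every enumeration operator has a computable name. -/
theorem exists_name {Ψ : PSet → PSet} (h : PS fun X b => b ∈ Ψ X) :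
    ∃ q : B, Computable q ∧ ∀ X, appS (G q) X = Ψ X := by
  obtain ⟨K, hK, hK'⟩ := h.re
  classical
  obtain ⟨hd, hKd⟩ := hK
  let q : B := fun m =>
    Option.casesOn (decode (α := (List (ℕ × ℕ) × (ℕ × ℕ)) × ℕ) m) 0
      (fun t => if K t.1 t.2 then encode t.1 + 1 else 0)
  have hq : Primrec q := by
    refine Primrec.option_casesOn Primrec.decode (Primrec.const 0) ?_
    refine Primrec.ite (c := fun t : ℕ × ((List (ℕ × ℕ) × (ℕ × ℕ)) × ℕ) => K t.2.1 t.2.2) ?_ ?_
      (Primrec.const 0)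
    · have h0 : PrimrecRel K := ⟨hd, hKd⟩
      exact h0.comp (Primrec.fst.comp Primrec.snd) (Primrec.snd.comp Primrec.snd)
    · exact Primrec.succ.comp (Primrec.encode.comp (Primrec.fst.comp Primrec.snd))
  refine ⟨q, hq.to_comp, fun X => ?_⟩
  ext b
  rw [h.compact X b]
  simp only [appS, Set.mem_ofPred_eq, mem_G]
  constructor
  · rintro ⟨m, L, hm, hL⟩
    refine ⟨L, fun e he => hL e he, ?_⟩
    have h1 : ∃ n, K (L, b) n := by
      simp only [q] at hm
      cases hdec : decode (α := (List (ℕ × ℕ) × (ℕ × ℕ)) × ℕ) m with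
      | none => rw [hdec] at hm; simp at hm
      | some t =>
        rw [hdec] at hm
        simp only at hm
        by_cases hKt : K t.1 t.2
        · rw [if_pos hKt] at hm
          have h2 : encode t.1 = encode (L, b) := by omega
          have h3 := encode_injective h2
          rw [← h3]
          exact ⟨t.2, hKt⟩
        · rw [if_neg hKt] at hm; omega
    exact (hK' (L, b)).2 h1
  · rintro ⟨L, hL, hb⟩
    obtain ⟨n, hn⟩ := (hK' (L, b)).1 hb
    refine ⟨encode ((L, b), n), L, ?_, fun e he => hL he⟩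
    simp only [q, encodek]
    rw [if_pos hn]

theorem FOp.exists_name {Ψ : PSet → PSet} (h : FOp fun X (_ : Unit) => Ψ X) :
    ∃ q : B, Computable q ∧ ∀ X, appS (G q) X = Ψ X := by
  apply MP_f095a5_lc.exists_name
  exact PS.comp (f := fun b : ℕ × ℕ => ((), b)) h (Primrec.pair (Primrec.const ()) Primrec.id)

/-- The graph of a computable real is Σ₁. -/
theorem FOp.constReal {α : Type*} [Primcodable α] {q : B} (hq : Computable q) :
    FOp fun _ (_ : α) => G q :=
  FOp.const (A := fun _ => G q) ((RE.graph hq).comp Primrec.snd)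

/-! ## The s-m-n functional -/

/-- `smn q x` is a name of `y ↦ Φ_q(pair x y)`. -/
def smn (q x : B) : B := fun m =>
  Option.casesOn (decode (α := ℕ × (List (ℕ × ℕ) × (ℕ × ℕ))) m) 0
    (fun t => if q t.1 = encode t.2 + 1 ∧ ∀ e ∈ t.2.1, x e.1 = e.2.unpair.1 then
      encode (t.2.1.map (fun e => (e.1, e.2.unpair.2)), t.2.2) + 1 else 0)

theorem appS_smn (q x : B) (Z : PSet) :
    appS (G (smn q x)) Z = appS (G q) (pairS (G x) Z) := by
  ext b
  simp only [appS, Set.mem_ofPred_eq, mem_G, pairS]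
  constructor
  · rintro ⟨m, L', hm, hL'⟩
    simp only [smn] at hm
    cases hdec : decode (α := ℕ × (List (ℕ × ℕ) × (ℕ × ℕ))) m with
    | none => rw [hdec] at hm; simp at hm
    | some t =>
      rw [hdec] at hm
      simp only at hm
      by_cases hc : q t.1 = encode t.2 + 1 ∧ ∀ e ∈ t.2.1, x e.1 = e.2.unpair.1
      · rw [if_pos hc] at hm
        have h2 : encode (t.2.1.map (fun e => (e.1, e.2.unpair.2)), t.2.2) = encode (L', b) := by
          omega
        have h3 := encode_injective h2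
        simp only [Prod.mk.injEq] at h3
        obtain ⟨h3, h4⟩ := h3
        refine ⟨t.1, t.2.1, ?_, fun e he => ⟨hc.2 e he, ?_⟩⟩
        · rw [hc.1, ← h4]
        · apply hL'
          rw [← h3]
          exact List.mem_map.2 ⟨e, he, rfl⟩
      · rw [if_neg hc] at hm; omega
  · rintro ⟨j, L, hj, hL⟩
    refine ⟨encode (j, (L, b)), L.map (fun e => (e.1, e.2.unpair.2)), ?_, ?_⟩
    · simp only [smn, encodek]
      rw [if_pos ⟨hj, fun e he => (hL e he).1⟩]
    · intro e he
      obtain ⟨e', he', rfl⟩ := List.mem_map.1 he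
      exact (hL e' he').2

/-- The s-m-n functional on sets. -/
def smnS (X Y : PSet) : PSet :=
  {c | (decode (α := ℕ × (List (ℕ × ℕ) × (ℕ × ℕ))) c.1 = none ∧ c.2 = 0) ∨
    ∃ t : ℕ × (List (ℕ × ℕ) × (ℕ × ℕ)),
      decode (α := ℕ × (List (ℕ × ℕ) × (ℕ × ℕ))) c.1 = some t ∧
      ((c.2 = encode (t.2.1.map (fun e => (e.1, e.2.unpair.2)), t.2.2) + 1 ∧
          (t.1, encode t.2 + 1) ∈ X ∧ ∀ e ∈ t.2.1.map (fun e => (e.1, e.2.unpair.1)), e ∈ Y) ∨
        (c.2 = 0 ∧ ∃ d, d ≠ encode t.2 + 1 ∧ (t.1, d) ∈ X) ∨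
        (c.2 = 0 ∧ ∃ e : ℕ × ℕ, e ∈ t.2.1 ∧ ∃ d, d ≠ e.2.unpair.1 ∧ (e.1, d) ∈ Y))}

theorem smnS_G (q x : B) : smnS (G q) (G x) = G (smn q x) := by
  ext ⟨m, v⟩
  simp only [smnS, Set.mem_ofPred_eq, mem_G, smn]
  cases hdec : decode (α := ℕ × (List (ℕ × ℕ) × (ℕ × ℕ))) m with
  | none => simp [eq_comm]
  | some t =>
    simp only [reduceCtorEq, false_and, Option.some.injEq, false_or]
    by_cases hc : q t.1 = encode t.2 + 1 ∧ ∀ e ∈ t.2.1, x e.1 = e.2.unpair.1
    · rw [if_pos hc]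
      constructor
      · rintro ⟨t', rfl, (⟨h1, h2, h3⟩ | ⟨h1, d, hd, hd'⟩ | ⟨h1, e, he, d, hd, hd'⟩)⟩
        · exact h1.symm
        · exact absurd (hd'.symm.trans hc.1) hd
        · exact absurd (hd'.symm.trans (hc.2 e he)) hd
      · intro hv
        refine ⟨t, rfl, Or.inl ⟨hv.symm, hc.1, ?_⟩⟩
        intro e he
        obtain ⟨e', he', rfl⟩ := List.mem_map.1 he
        exact hc.2 e' he'
    · rw [if_neg hc]
      constructor
      · rintro ⟨t', rfl, (⟨h1, h2, h3⟩ | ⟨h1, _⟩ | ⟨h1, _⟩)⟩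
        · exact absurd ⟨h2, fun e he => h3 _ (List.mem_map.2 ⟨e, he, rfl⟩)⟩ hc
        · exact h1.symm
        · exact h1.symm
      · intro hv
        refine ⟨t, rfl, Or.inr ?_⟩
        rw [not_and_or] at hc
        rcases hc with hc | hc
        · exact Or.inl ⟨hv.symm, _, hc, rfl⟩
        · push Not at hc
          obtain ⟨e, he, hne⟩ := hc
          exact Or.inr ⟨hv.symm, e, he, _, hne, rfl⟩

section FOp2

variable {α β γ : Type*} [Primcodable α] [Primcodable β] [Primcodable γ]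

/-- Bounded existential quantification over a list, for positive relations. -/
theorem PS.bex {R : PSet → α → β → Prop} (h : PS fun X (p : α × β) => R X p.1 p.2) :
    PS fun X (p : α × List β) => ∃ b, b ∈ p.2 ∧ R X p.1 b := by
  apply PS.ex (R := fun X (p : α × List β) b => b ∈ p.2 ∧ R X p.1 b)
  apply PS.and
  · apply PS.of_re
    apply RE.of_pred
    have h1 : PrimrecRel fun (c b : β) => c = b := Primrec.eq
    exact (h1.exists_mem_list.comp (f := fun p : (α × List β) × β => p.1.2)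
      (g := fun p => p.2) (Primrec.snd.comp Primrec.fst) Primrec.snd).of_eq (by simp)
  · exact h.comp (f := fun p : (α × List β) × β => (p.1.1, p.2))
      (Primrec.pair (Primrec.fst.comp Primrec.fst) Primrec.snd)

theorem FOp.smn {Ψ Θ : PSet → α → PSet} (hΨ : FOp Ψ) (hΘ : FOp Θ) :
    FOp fun X a => smnS (Ψ X a) (Θ X a) := by
  unfold FOp smnS
  simp only [Set.mem_ofPred_eq]
  -- abbreviations for projections
  apply PS.or
  · apply PS.of_re
    apply RE.of_pred
    apply PrimrecPred.and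
    · exact Primrec.eq.comp (Primrec.decode.comp (Primrec.fst.comp Primrec.snd))
        (Primrec.const none)
    · exact Primrec.eq.comp (Primrec.snd.comp Primrec.snd) (Primrec.const 0)
  · apply PS.ex (R := fun X (p : α × (ℕ × ℕ)) (t : ℕ × (List (ℕ × ℕ) × (ℕ × ℕ))) =>
      decode (α := ℕ × (List (ℕ × ℕ) × (ℕ × ℕ))) p.2.1 = some t ∧
      ((p.2.2 = encode (t.2.1.map (fun e => (e.1, e.2.unpair.2)), t.2.2) + 1 ∧
          (t.1, encode t.2 + 1) ∈ Ψ X p.1 ∧
            ∀ e ∈ t.2.1.map (fun e => (e.1, e.2.unpair.1)), e ∈ Θ X p.1) ∨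
        (p.2.2 = 0 ∧ ∃ d, d ≠ encode t.2 + 1 ∧ (t.1, d) ∈ Ψ X p.1) ∨
        (p.2.2 = 0 ∧ ∃ e : ℕ × ℕ, e ∈ t.2.1 ∧ ∃ d, d ≠ e.2.unpair.1 ∧ (e.1, d) ∈ Θ X p.1)))
    have ea : Primrec fun q : (α × (ℕ × ℕ)) × (ℕ × (List (ℕ × ℕ) × (ℕ × ℕ))) => q.1.1 :=
      Primrec.fst.comp Primrec.fst
    have em : Primrec fun q : (α × (ℕ × ℕ)) × (ℕ × (List (ℕ × ℕ) × (ℕ × ℕ))) => q.1.2.1 :=
      Primrec.fst.comp (Primrec.snd.comp Primrec.fst)
    have ev : Primrec fun q : (α × (ℕ × ℕ)) × (ℕ × (List (ℕ × ℕ) × (ℕ × ℕ))) => q.1.2.2 :=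
      Primrec.snd.comp (Primrec.snd.comp Primrec.fst)
    have et : Primrec fun q : (α × (ℕ × ℕ)) × (ℕ × (List (ℕ × ℕ) × (ℕ × ℕ))) => q.2 :=
      Primrec.snd
    have ej : Primrec fun q : (α × (ℕ × ℕ)) × (ℕ × (List (ℕ × ℕ) × (ℕ × ℕ))) => q.2.1 :=
      Primrec.fst.comp Primrec.snd
    have eL : Primrec fun q : (α × (ℕ × ℕ)) × (ℕ × (List (ℕ × ℕ) × (ℕ × ℕ))) => q.2.2.1 :=
      Primrec.fst.comp (Primrec.snd.comp Primrec.snd)
    have eb : Primrec fun q : (α × (ℕ × ℕ)) × (ℕ × (List (ℕ × ℕ) × (ℕ × ℕ))) => q.2.2.2 :=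
      Primrec.snd.comp (Primrec.snd.comp Primrec.snd)
    have ec : Primrec fun q : (α × (ℕ × ℕ)) × (ℕ × (List (ℕ × ℕ) × (ℕ × ℕ))) =>
        encode q.2.2 + 1 := Primrec.succ.comp (Primrec.encode.comp (Primrec.snd.comp Primrec.snd))
    apply PS.and
    · apply PS.of_re
      apply RE.of_pred
      exact Primrec.eq.comp (Primrec.decode.comp em) (Primrec.option_some.comp et)
    · apply PS.or
      · apply PS.and
        · apply PS.of_re
          apply RE.of_pred
          refine Primrec.eq.comp ev (Primrec.succ.comp (Primrec.encode.comp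
            (Primrec.pair (Primrec.list_map eL ?_) eb)))
          exact (Primrec.pair (Primrec.fst.comp Primrec.snd)
            (primrec_unpair2.comp (Primrec.snd.comp Primrec.snd)))
        · apply PS.and
          · exact FOp.memAt hΨ ea (Primrec.pair ej ec)
          · refine (PS.ball (R := fun X (a : α) b => b ∈ Θ X a) hΘ).comp
              (f := fun q : (α × (ℕ × ℕ)) × (ℕ × (List (ℕ × ℕ) × (ℕ × ℕ))) =>
                (q.1.1, q.2.2.1.map (fun e => (e.1, e.2.unpair.1)))) (Primrec.pair ea ?_)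
            refine Primrec.list_map eL ?_
            exact (Primrec.pair (Primrec.fst.comp Primrec.snd)
              (primrec_unpair1.comp (Primrec.snd.comp Primrec.snd)))
      · apply PS.or
        · apply PS.and
          · apply PS.of_re
            apply RE.of_pred
            exact Primrec.eq.comp ev (Primrec.const 0)
          · apply PS.ex (R := fun X (q : (α × (ℕ × ℕ)) × (ℕ × (List (ℕ × ℕ) × (ℕ × ℕ)))) d =>
              d ≠ encode q.2.2 + 1 ∧ (q.2.1, d) ∈ Ψ X q.1.1)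
            apply PS.and
            · apply PS.of_re
              apply RE.of_pred
              exact (Primrec.eq.comp Primrec.snd (ec.comp Primrec.fst)).not
            · exact FOp.memAt hΨ (ea.comp Primrec.fst)
                (Primrec.pair (ej.comp Primrec.fst) Primrec.snd)
        · apply PS.and
          · apply PS.of_re
            apply RE.of_pred
            exact Primrec.eq.comp ev (Primrec.const 0)
          · have h1 : PS fun X (p : α × (ℕ × ℕ)) => ∃ d, d ≠ p.2.2.unpair.1 ∧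
                (p.2.1, d) ∈ Θ X p.1 := by
              apply PS.ex (R := fun X (p : α × (ℕ × ℕ)) d => d ≠ p.2.2.unpair.1 ∧
                (p.2.1, d) ∈ Θ X p.1)
              apply PS.and
              · apply PS.of_re
                apply RE.of_pred
                exact (Primrec.eq.comp Primrec.snd (primrec_unpair1.comp
                  (Primrec.snd.comp (Primrec.snd.comp Primrec.fst)))).not
              · exact FOp.memAt hΘ (f := fun q : (α × (ℕ × ℕ)) × ℕ => q.1.1)
                  (g := fun q : (α × (ℕ × ℕ)) × ℕ => (q.1.2.1, q.2)) (Primrec.fst.comp Primrec.fst)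
                  (Primrec.pair (Primrec.fst.comp (Primrec.snd.comp Primrec.fst)) Primrec.snd)
            exact (PS.bex (R := fun X (a : α) (e : ℕ × ℕ) => ∃ d, d ≠ e.2.unpair.1 ∧
                (e.1, d) ∈ Θ X a) h1).comp
                (f := fun q : (α × (ℕ × ℕ)) × (ℕ × (List (ℕ × ℕ) × (ℕ × ℕ))) => (q.1.1, q.2.2.1))
                (Primrec.pair ea eL)

/-- Re-indexing of the argument of a real. -/
theorem FOp.reindex {Ψ : PSet → α → PSet} (hΨ : FOp Ψ) {i : α → ℕ → ℕ}
    (hi : Primrec fun p : α × ℕ => i p.1 p.2) :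
    FOp fun X a => {b | (i a b.1, b.2) ∈ Ψ X a} := by
  unfold FOp
  simp only [Set.mem_ofPred_eq]
  exact FOp.memAt hΨ (f := fun p : α × (ℕ × ℕ) => p.1)
    (g := fun p : α × (ℕ × ℕ) => (i p.1 p.2.1, p.2.2)) Primrec.fst
    (Primrec.pair (hi.comp (Primrec.pair Primrec.fst (Primrec.fst.comp Primrec.snd)))
      (Primrec.snd.comp Primrec.snd))

/-- Joining a family of reals into one real. -/
theorem FOp.join {Ψ : PSet → α × ℕ → PSet} (hΨ : FOp Ψ) {i j : ℕ → ℕ}
    (hi : Primrec i) (hj : Primrec j) :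
    FOp fun X a => {b | (j b.1, b.2) ∈ Ψ X (a, i b.1)} := by
  unfold FOp
  simp only [Set.mem_ofPred_eq]
  exact FOp.memAt hΨ (f := fun p : α × (ℕ × ℕ) => (p.1, i p.2.1))
    (g := fun p : α × (ℕ × ℕ) => (j p.2.1, p.2.2))
    (Primrec.pair Primrec.fst (hi.comp (Primrec.fst.comp Primrec.snd)))
    (Primrec.pair (hj.comp (Primrec.fst.comp Primrec.snd)) (Primrec.snd.comp Primrec.snd))

/-- Iteration of an enumeration operator. -/
theorem FOp.iter {Ψ : PSet → α → PSet} (hΨ : FOp Ψ) :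
    FOp fun X (p : α × ℕ) => (fun Y => Ψ Y p.1)^[p.2] X := by
  have key : ∀ (X : PSet) (a : α) (k : ℕ) (b : ℕ × ℕ), b ∈ (fun Y => Ψ Y a)^[k] X ↔
      ∃ D : List (ℕ × (ℕ × ℕ)), (k, b) ∈ D ∧ ∀ e ∈ D, (e.1 = 0 ∧ e.2 ∈ X) ∨
        ∃ j, e.1 = j + 1 ∧ e.2 ∈ Ψ {c | (j, c) ∈ D} a := by
    intro X a k b
    constructor
    · intro hb
      induction k generalizing b with
      | zero => exact ⟨[(0, b)], by simp, by simpa using hb⟩
      | succ k ih =>
        rw [Function.iterate_succ_apply'] at hb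
        have hc := (PS.compact hΨ ((fun Y => Ψ Y a)^[k] X) (a, b)).1 hb
        obtain ⟨L, hL, hbL⟩ := hc
        have hD : ∃ D : List (ℕ × (ℕ × ℕ)), (∀ c ∈ L, (k, c) ∈ D) ∧
            ∀ e ∈ D, (e.1 = 0 ∧ e.2 ∈ X) ∨
              ∃ j, e.1 = j + 1 ∧ e.2 ∈ Ψ {c | (j, c) ∈ D} a := by
          clear hbL hb
          induction L with
          | nil => exact ⟨[], by simp, by simp⟩
          | cons c L ihL =>
            obtain ⟨D, hD1, hD2⟩ := ihL (fun c' hc' => hL (List.mem_cons_of_mem _ hc'))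
            obtain ⟨D', hD1', hD2'⟩ := ih c (hL List.mem_cons_self)
            refine ⟨D ++ D', ?_, ?_⟩
            · intro c' hc'
              rw [List.mem_cons] at hc'
              rcases hc' with rfl | hc'
              · exact List.mem_append_right _ hD1'
              · exact List.mem_append_left _ (hD1 c' hc')
            · intro e he
              rw [List.mem_append] at he
              rcases he with he | he
              · rcases hD2 e he with h | ⟨j, hj, hj'⟩
                · exact Or.inl h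
                · refine Or.inr ⟨j, hj, FOp.mono hΨ ?_ a hj'⟩
                  intro c' hc'
                  exact List.mem_append_left _ hc'
              · rcases hD2' e he with h | ⟨j, hj, hj'⟩
                · exact Or.inl h
                · refine Or.inr ⟨j, hj, FOp.mono hΨ ?_ a hj'⟩
                  intro c' hc'
                  exact List.mem_append_right _ hc'
        obtain ⟨D, hD1, hD2⟩ := hD
        refine ⟨(k + 1, b) :: D, List.mem_cons_self, ?_⟩
        intro e he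
        rw [List.mem_cons] at he
        rcases he with rfl | he
        · refine Or.inr ⟨k, rfl, ?_⟩
          refine FOp.mono hΨ ?_ a hbL
          intro c hc
          exact List.mem_cons_of_mem _ (hD1 c hc)
        · rcases hD2 e he with h | ⟨j, hj, hj'⟩
          · exact Or.inl h
          · refine Or.inr ⟨j, hj, FOp.mono hΨ ?_ a hj'⟩
            intro c' hc'
            exact List.mem_cons_of_mem _ hc'
    · rintro ⟨D, hkb, hD⟩
      have h1 : ∀ (n : ℕ) (c : ℕ × ℕ), (n, c) ∈ D → c ∈ (fun Y => Ψ Y a)^[n] X := by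
        intro n
        induction n with
        | zero =>
          intro c hc
          rcases hD _ hc with h | ⟨j, hj, _⟩
          · exact h.2
          · simp at hj
        | succ n ih =>
          intro c hc
          rcases hD _ hc with h | ⟨j, hj, hj'⟩
          · simp at h
          · rw [Function.iterate_succ_apply']
            have hj2 : n = j := by simpa using hj
            subst hj2
            exact FOp.mono hΨ (fun c' hc' => ih c' hc') a hj'
      exact h1 k b hkb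
  unfold FOp
  have h2 : PS fun X (p : (α × ℕ) × (ℕ × ℕ)) => ∃ D : List (ℕ × (ℕ × ℕ)),
      (p.1.2, p.2) ∈ D ∧ ∀ e ∈ D, (e.1 = 0 ∧ e.2 ∈ X) ∨
        ∃ j, e.1 = j + 1 ∧ e.2 ∈ Ψ {c | (j, c) ∈ D} p.1.1 := by
    apply PS.ex (R := fun X (p : (α × ℕ) × (ℕ × ℕ)) (D : List (ℕ × (ℕ × ℕ))) =>
      (p.1.2, p.2) ∈ D ∧ ∀ e ∈ D, (e.1 = 0 ∧ e.2 ∈ X) ∨
        ∃ j, e.1 = j + 1 ∧ e.2 ∈ Ψ {c | (j, c) ∈ D} p.1.1)
    apply PS.and
    · apply PS.of_re
      apply RE.of_pred
      have h1 : PrimrecRel fun (c b : ℕ × (ℕ × ℕ)) => c = b := Primrec.eq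
      exact (h1.exists_mem_list.comp
        (f := fun p : ((α × ℕ) × (ℕ × ℕ)) × List (ℕ × (ℕ × ℕ)) => p.2)
        (g := fun p => (p.1.1.2, p.1.2)) Primrec.snd
        (Primrec.pair (Primrec.snd.comp (Primrec.fst.comp Primrec.fst))
          (Primrec.snd.comp Primrec.fst))).of_eq (by simp)
    · refine (PS.ball (α := α × List (ℕ × (ℕ × ℕ))) (β := ℕ × (ℕ × ℕ))
        (R := fun X a e => (e.1 = 0 ∧ e.2 ∈ X) ∨
          ∃ j, e.1 = j + 1 ∧ e.2 ∈ Ψ {c | (j, c) ∈ a.2} a.1) ?_).comp
        (f := fun p : ((α × ℕ) × (ℕ × ℕ)) × List (ℕ × (ℕ × ℕ)) => ((p.1.1.1, p.2), p.2)) ?_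
      · apply PS.or
        · apply PS.and
          · apply PS.of_re
            apply RE.of_pred
            exact Primrec.eq.comp (Primrec.fst.comp Primrec.snd) (Primrec.const 0)
          · exact PS.mem.comp (Primrec.snd.comp Primrec.snd)
        · apply PS.ex (R := fun X (p : (α × List (ℕ × (ℕ × ℕ))) × (ℕ × (ℕ × ℕ))) j =>
            p.2.1 = j + 1 ∧ p.2.2 ∈ Ψ {c | (j, c) ∈ p.1.2} p.1.1)
          apply PS.and
          · apply PS.of_re
            apply RE.of_pred
            exact Primrec.eq.comp (Primrec.fst.comp (Primrec.snd.comp Primrec.fst))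
              (Primrec.succ.comp Primrec.snd)
          · have h3 : FOp fun (_ : PSet) (q : (α × List (ℕ × (ℕ × ℕ))) × ℕ) =>
                ({c | (q.2, c) ∈ q.1.2} : PSet) := by
              apply FOp.const
              apply RE.of_pred
              have h1 : PrimrecRel fun (c b : ℕ × (ℕ × ℕ)) => c = b := Primrec.eq
              exact (h1.exists_mem_list.comp
                (f := fun p : ((α × List (ℕ × (ℕ × ℕ))) × ℕ) × (ℕ × ℕ) => p.1.1.2)
                (g := fun p => (p.1.2, p.2))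
                (Primrec.snd.comp (Primrec.fst.comp Primrec.fst))
                (Primrec.pair (Primrec.snd.comp Primrec.fst) Primrec.snd)).of_eq (by simp)
            have h4 := FOp.comp hΨ h3
              (f := fun q : (α × List (ℕ × (ℕ × ℕ))) × ℕ => q.1.1)
              (Primrec.fst.comp Primrec.fst)
            exact FOp.memAt h4
              (f := fun p : ((α × List (ℕ × (ℕ × ℕ))) × (ℕ × (ℕ × ℕ))) × ℕ => (p.1.1, p.2))
              (g := fun p => p.1.2.2)
              (Primrec.pair (Primrec.fst.comp Primrec.fst) Primrec.snd)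
              (Primrec.snd.comp (Primrec.snd.comp Primrec.fst))
      · exact Primrec.pair (Primrec.pair (Primrec.fst.comp (Primrec.fst.comp Primrec.fst))
          Primrec.snd) Primrec.snd
  exact h2.of_eq fun X p => (key X p.1.1 p.1.2 p.2).symm

end FOp2

end Pool.Agent.Lib.MP_f095a5_lc
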