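import Pool.Agent.Lib.MP_f095a5_lc.Sel

/-!
# Further operators, application of names, and the construction of reductions
-/

open Encodable

namespace Pool.Agent.Lib.MP_f095a5_lc

theorem app_iff {q x y : B} : App q x y ↔ appS (G q) (G x) = G y := by
  constructor
  · intro h
    ext ⟨n, v⟩
    exact h n v
  · intro h n v
    exact Set.ext_iff.1 h (n, v)

theorem App.eq {q x y : B} (h : App q x y) : appS (G q) (G x) = G y := app_iff.1 h

theorem App.unique {q x y y' : B} (h : App q x y) (h' : App q x y') : y = y' :=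
  G_inj (h.eq.symm.trans h'.eq)

/-- Construction of a reduction from two effective operators. -/
theorem WRed.of_ops {f g : Problem} (K H : PSet → PSet)
    (hK : FOp fun X (_ : Unit) => K X) (hH : FOp fun X (_ : Unit) => H X)
    (h : ∀ x, (f x).Nonempty → ∃ x', K (G x) = G x' ∧ (g x').Nonempty ∧
      ∀ y ∈ g x', ∃ z ∈ f x, H (G (pair x y)) = G z) : WRed f g := by
  obtain ⟨k, hk, hk'⟩ := FOp.exists_name hK
  obtain ⟨h', hh, hh'⟩ := FOp.exists_name hH
  refine ⟨k, h', hk, hh, fun x hx => ?_⟩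
  obtain ⟨x', h1, h2, h3⟩ := h x hx
  refine ⟨x', app_iff.2 (by rw [hk', h1]), h2, fun y hy => ?_⟩
  obtain ⟨z, hz, hz'⟩ := h3 y hy
  exact ⟨z, hz, app_iff.2 (by rw [hh', hz'])⟩

/-- A reduction, in terms of operators. -/
theorem WRed.elim {f g : Problem} (h : WRed f g) : ∃ k h : B, Computable k ∧ Computable h ∧
    ∀ x, (f x).Nonempty → ∃ x', appS (G k) (G x) = G x' ∧ (g x').Nonempty ∧
      ∀ y ∈ g x', ∃ z ∈ f x, appS (G h) (pairS (G x) (G y)) = G z := by
  obtain ⟨k, h', hk, hh, H⟩ := h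
  refine ⟨k, h', hk, hh, fun x hx => ?_⟩
  obtain ⟨x', h1, h2, h3⟩ := H x hx
  refine ⟨x', h1.eq, h2, fun y hy => ?_⟩
  obtain ⟨z, hz, hz'⟩ := h3 y hy
  exact ⟨z, hz, by rw [pairS_G]; exact hz'.eq⟩

/-! ## Operators -/

/-- Tail on sets. -/
def tlS (X : PSet) : PSet := {b | (b.1 + 1, b.2) ∈ X}

@[simp] theorem tlS_G (x : B) : tlS (G x) = G (tail x) := rfl

/-- Column on sets. -/
def colS (X : PSet) (j : ℕ) : PSet := {b | (Nat.pair j b.1, b.2) ∈ X}

@[simp] theorem colS_G (x : B) (j : ℕ) : colS (G x) j = G (col x j) := rfl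

/-- Constant sequences. -/
def cst (c : ℕ) : B := fun _ => c

@[simp] theorem cst_apply (c n : ℕ) : cst c n = c := rfl

/-- Constant sequence of a number, on sets. -/
def numS (N : ℕ → Prop) : PSet := {b | N b.2}

theorem numS_eq {N : ℕ → Prop} {c : ℕ} (h : ∀ v, N v ↔ c = v) : numS N = G (cst c) := by
  ext ⟨n, v⟩
  exact h v

/-- Join of a sequence. -/
def jn (F : ℕ → B) : B := fun n => F n.unpair.1 n.unpair.2

@[simp] theorem col_jn (F : ℕ → B) (j : ℕ) : col (jn F) j = F j := by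
  funext n; simp [col, jn]

/-- Join, on sets. -/
def jnS (Y : ℕ → PSet) : PSet := {b | (b.1.unpair.2, b.2) ∈ Y b.1.unpair.1}

theorem jnS_eq {Y : ℕ → PSet} {F : ℕ → B} (h : ∀ j, Y j = G (F j)) : jnS Y = G (jn F) := by
  ext ⟨n, v⟩
  simp only [jnS, Set.mem_ofPred_eq, h]
  rfl

/-- Adding a first entry. -/
def cons (a : ℕ) (x : B) : B := fun n => Nat.casesOn n a x

@[simp] theorem cons_zero (a : ℕ) (x : B) : cons a x 0 = a := rfl
@[simp] theorem cons_succ (a : ℕ) (x : B) (n : ℕ) : cons a x (n + 1) = x n := rfl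
@[simp] theorem tail_cons (a : ℕ) (x : B) : tail (cons a x) = x := rfl

/-- Adding a first entry, on sets. -/
def consS (N : ℕ → Prop) (X : PSet) : PSet :=
  {b | (b.1 = 0 ∧ N b.2) ∨ ∃ m, b.1 = m + 1 ∧ (m, b.2) ∈ X}

theorem consS_eq {N : ℕ → Prop} {a : ℕ} {X : PSet} {x : B} (h : ∀ v, N v ↔ a = v)
    (hX : X = G x) : consS N X = G (cons a x) := by
  subst hX
  ext ⟨n, v⟩
  simp only [consS, Set.mem_ofPred_eq, mem_G]
  rcases n with _ | n
  · simp [h]
  · simp

/-- Case distinction, on sets. -/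
def iteS (P N : Prop) (Y Z : PSet) : PSet := {b | (P ∧ b ∈ Y) ∨ (N ∧ b ∈ Z)}

theorem iteS_pos {P N : Prop} {Y Z : PSet} (hP : P) (hN : ¬ N) : iteS P N Y Z = Y := by
  ext b; simp [iteS, hP, hN]

theorem iteS_neg {P N : Prop} {Y Z : PSet} (hP : ¬ P) (hN : N) : iteS P N Y Z = Z := by
  ext b; simp [iteS, hP, hN]

section

variable {α β γ : Type*} [Primcodable α] [Primcodable β] [Primcodable γ]

theorem FOp.tl {Ψ : PSet → α → PSet} (hΨ : FOp Ψ) : FOp fun X a => tlS (Ψ X a) :=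
  hΨ.reindex (i := fun _ n => n + 1) (Primrec.succ.comp Primrec.snd)

theorem FOp.col {Ψ : PSet → α → PSet} (hΨ : FOp Ψ) {j : α → ℕ} (hj : Primrec j) :
    FOp fun X a => colS (Ψ X a) (j a) :=
  hΨ.reindex (i := fun a n => Nat.pair (j a) n)
    (Primrec₂.natPair.comp (hj.comp Primrec.fst) Primrec.snd)

theorem FOp.num {N : PSet → α → ℕ → Prop} (h : PS fun X (p : α × ℕ) => N X p.1 p.2) :
    FOp fun X a => numS (N X a) := by
  unfold FOp numS
  simp only [Set.mem_ofPred_eq]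
  exact h.comp (f := fun p : α × (ℕ × ℕ) => (p.1, p.2.2))
    (Primrec.pair Primrec.fst (Primrec.snd.comp Primrec.snd))

theorem FOp.cst {c : α → ℕ} (hc : Primrec c) : FOp fun _ a => G (cst (c a)) := by
  apply FOp.const
  apply RE.of_pred
  exact Primrec.eq.comp (hc.comp Primrec.fst) (Primrec.snd.comp Primrec.snd)

theorem FOp.jn {Ψ : PSet → α × ℕ → PSet} (hΨ : FOp Ψ) :
    FOp fun X a => jnS fun j => Ψ X (a, j) :=
  hΨ.join primrec_unpair1 primrec_unpair2

theorem FOp.cons {N : PSet → α → ℕ → Prop} (h : PS fun X (p : α × ℕ) => N X p.1 p.2)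
    {Ψ : PSet → α → PSet} (hΨ : FOp Ψ) : FOp fun X a => consS (N X a) (Ψ X a) := by
  unfold FOp consS
  simp only [Set.mem_ofPred_eq]
  apply PS.or
  · apply PS.and
    · apply PS.of_re
      apply RE.of_pred
      exact Primrec.eq.comp (Primrec.fst.comp Primrec.snd) (Primrec.const 0)
    · exact h.comp (f := fun p : α × (ℕ × ℕ) => (p.1, p.2.2))
        (Primrec.pair Primrec.fst (Primrec.snd.comp Primrec.snd))
  · apply PS.ex (R := fun X (p : α × (ℕ × ℕ)) m => p.2.1 = m + 1 ∧ (m, p.2.2) ∈ Ψ X p.1)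
    apply PS.and
    · apply PS.of_re
      apply RE.of_pred
      exact Primrec.eq.comp (Primrec.fst.comp (Primrec.snd.comp Primrec.fst))
        (Primrec.succ.comp Primrec.snd)
    · exact FOp.memAt hΨ (f := fun p : (α × (ℕ × ℕ)) × ℕ => p.1.1)
        (g := fun p : (α × (ℕ × ℕ)) × ℕ => (p.2, p.1.2.2)) (Primrec.fst.comp Primrec.fst)
        (Primrec.pair Primrec.snd (Primrec.snd.comp (Primrec.snd.comp Primrec.fst)))

theorem FOp.ite {P N : PSet → α → Prop} (hP : PS P) (hN : PS N)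
    {Ψ Θ : PSet → α → PSet} (hΨ : FOp Ψ) (hΘ : FOp Θ) :
    FOp fun X a => iteS (P X a) (N X a) (Ψ X a) (Θ X a) := by
  unfold FOp iteS
  simp only [Set.mem_ofPred_eq]
  exact ((hP.comp Primrec.fst).and hΨ).or ((hN.comp Primrec.fst).and hΘ)

/-- Evaluation at a computed position. -/
theorem FOp.evalAt {Ψ : PSet → α → PSet} (hΨ : FOp Ψ) (n : ℕ) :
    PS fun X (p : α × ℕ) => (n, p.2) ∈ Ψ X p.1 :=
  FOp.memAt hΨ (f := fun p : α × ℕ => p.1) (g := fun p : α × ℕ => (n, p.2)) Primrec.fst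
    (Primrec.pair (Primrec.const n) Primrec.snd)

/-- A primitive recursive condition on the value at a position. -/
theorem FOp.test {Ψ : PSet → α → PSet} (hΨ : FOp Ψ) (n : ℕ) {C : α → ℕ → Prop}
    (hC : PrimrecRel C) : PS fun X a => ∃ v, (n, v) ∈ Ψ X a ∧ C a v := by
  apply PS.ex (R := fun X a v => (n, v) ∈ Ψ X a ∧ C a v)
  apply PS.and
  · exact hΨ.evalAt n
  · exact PS.of_re (RE.of_pred (hC.comp Primrec.fst Primrec.snd))

end

end Pool.Agent.Lib.MP_f095a5_lc
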