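import Pool.Agent.Lib.MP_f095a5_lc.Fun

/-!
# Selection of a witness, effectively in a total oracle
-/

open Encodable

namespace Pool.Agent.Lib.MP_f095a5_lc

variable {α β : Type*} [Primcodable α] [Primcodable β]

/-- The finite list of axioms `L` is true in the finite string `M`. -/
def chk (M : List ℕ) (L : List (ℕ × ℕ)) : Prop := ∀ e ∈ L, M[e.1]? = some e.2

theorem chk_primrec : PrimrecRel fun (M : List ℕ) (L : List (ℕ × ℕ)) => chk M L := by
  have h1 : PrimrecRel fun (e : ℕ × ℕ) (M : List ℕ) => M[e.1]? = some e.2 :=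
    Primrec.eq.comp (Primrec.list_getElem?.comp Primrec.snd (Primrec.fst.comp Primrec.fst))
      (Primrec.option_some.comp (Primrec.snd.comp Primrec.fst))
  exact h1.forall_mem_list.comp (f := fun p : List ℕ × List (ℕ × ℕ) => p.2)
    (g := fun p => p.1) Primrec.snd Primrec.fst

/-- The string of the first `ℓ` values of `p`. -/
def pre (p : B) (ℓ : ℕ) : List ℕ := (List.range ℓ).map p

@[simp] theorem pre_length (p : B) (ℓ : ℕ) : (pre p ℓ).length = ℓ := by simp [pre]

theorem pre_getElem? (p : B) (ℓ i : ℕ) (h : i < ℓ) : (pre p ℓ)[i]? = some (p i) := by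
  simp [pre, h]

theorem chk_pre (p : B) (ℓ : ℕ) (L : List (ℕ × ℕ)) (h : ∀ e ∈ L, e.1 < ℓ) :
    chk (pre p ℓ) L ↔ fin L ⊆ G p := by
  unfold chk
  constructor
  · intro h1 e he
    have := h1 e he
    rw [pre_getElem? p ℓ e.1 (h e he)] at this
    simpa using this
  · intro h1 e he
    rw [pre_getElem? p ℓ e.1 (h e he)]
    have : p e.1 = e.2 := h1 he
    rw [this]

/-- The graph of a finite string. -/
def enum (M : List ℕ) : List (ℕ × ℕ) := (List.range M.length).map (fun i => (i, M.getD i 0))

theorem enum_primrec : Primrec enum := by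
  refine Primrec.list_map (Primrec.list_range.comp Primrec.list_length) ?_
  exact Primrec.pair Primrec.snd ((Primrec.list_getD 0).comp Primrec.fst Primrec.snd)

theorem enum_sub (p : B) (M : List ℕ) : fin (enum M) ⊆ G p ↔ M = pre p M.length := by
  constructor
  · intro h
    apply List.ext_getElem
    · simp
    · intro i h1 h2
      have : (i, M.getD i 0) ∈ G p := h (by
        simp only [mem_fin, enum, List.mem_map, List.mem_range]
        exact ⟨i, h1, rfl⟩)
      simp only [mem_G] at this
      rw [List.getD_eq_getElem _ _ h1] at this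
      simp [pre, this]
  · intro h e he
    simp only [mem_fin, enum, List.mem_map, List.mem_range] at he
    obtain ⟨i, hi, rfl⟩ := he
    simp only [mem_G]
    rw [List.getD_eq_getElem _ _ hi]
    have h2 : M[i]? = (pre p M.length)[i]? := by rw [← h]
    rw [pre_getElem? p _ i hi, List.getElem?_eq_getElem hi] at h2
    simpa using h2.symm

/-- Selection of a witness, effectively in a total oracle. -/
theorem exists_sel {R : PSet → α → β → Prop} (h : PS fun X (p : α × β) => R X p.1 p.2) :
    ∃ Sel : PSet → α → β → Prop, (PS fun X (p : α × β) => Sel X p.1 p.2) ∧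
      ∀ (p : B) (a : α), (∀ b, Sel (G p) a b → R (G p) a b) ∧
        (∀ b b', Sel (G p) a b → Sel (G p) a b' → b = b') ∧
        ((∃ b, R (G p) a b) → ∃ b, Sel (G p) a b) := by
  obtain ⟨K, hK, hK'⟩ := h.re
  -- candidates: `decode t = some ((L, b), n)`
  let T := (List (ℕ × ℕ) × β) × ℕ
  let cand : ℕ → List T := fun t => (decode (α := T) t).toList
  have hcand : Primrec cand := Primrec.optionToList.comp Primrec.decode
  let ok : List ℕ → α → T → Prop := fun M a s => chk M s.1.1 ∧ K (s.1.1, (a, s.1.2)) s.2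
  have hok : PrimrecPred fun q : (List ℕ × α) × T => ok q.1.1 q.1.2 q.2 := by
    apply PrimrecPred.and
    · exact chk_primrec.comp (Primrec.fst.comp Primrec.fst)
        (Primrec.fst.comp (Primrec.fst.comp Primrec.snd))
    · exact hK.comp (Primrec.pair (Primrec.fst.comp (Primrec.fst.comp Primrec.snd))
        (Primrec.pair (Primrec.snd.comp Primrec.fst)
          (Primrec.snd.comp (Primrec.fst.comp Primrec.snd)))) (Primrec.snd.comp Primrec.snd)
  let Ok : List ℕ → α → ℕ → Prop := fun M a t => ∃ s ∈ cand t, ok M a s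
  have hOk : PrimrecPred fun q : (List ℕ × α) × ℕ => Ok q.1.1 q.1.2 q.2 := by
    have h1 : PrimrecRel fun (s : T) (q : (List ℕ × α) × ℕ) => ok q.1.1 q.1.2 s :=
      hok.comp (f := fun r : T × ((List ℕ × α) × ℕ) => (r.2.1, r.1))
        (Primrec.pair (Primrec.fst.comp Primrec.snd) Primrec.fst)
    exact h1.exists_mem_list.comp (f := fun q : (List ℕ × α) × ℕ => cand q.2) (g := fun q => q)
      (hcand.comp Primrec.snd) Primrec.id
  let bnd : List ℕ → ℕ → Prop := fun M t =>
    ∀ t' ∈ List.range (t + 1), ∀ s ∈ cand t', ∀ e ∈ s.1.1, e.1 < M.length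
  have hbnd : PrimrecPred fun q : List ℕ × ℕ => bnd q.1 q.2 := by
    have h1 : PrimrecRel fun (e : ℕ × ℕ) (M : List ℕ) => e.1 < M.length :=
      Primrec.nat_lt.comp (Primrec.fst.comp Primrec.fst) (Primrec.list_length.comp Primrec.snd)
    have h2 : PrimrecRel fun (s : T) (M : List ℕ) => ∀ e ∈ s.1.1, e.1 < M.length :=
      h1.forall_mem_list.comp (f := fun r : T × List ℕ => r.1.1.1) (g := fun r => r.2)
        (Primrec.fst.comp (Primrec.fst.comp Primrec.fst)) Primrec.snd
    have h3 : PrimrecRel fun (t' : ℕ) (M : List ℕ) => ∀ s ∈ cand t', ∀ e ∈ s.1.1, e.1 < M.length :=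
      h2.forall_mem_list.comp (f := fun r : ℕ × List ℕ => cand r.1) (g := fun r => r.2)
        (hcand.comp Primrec.fst) Primrec.snd
    exact h3.forall_mem_list.comp (f := fun q : List ℕ × ℕ => List.range (q.2 + 1))
      (g := fun q => q.1) (Primrec.list_range.comp (Primrec.succ.comp Primrec.snd)) Primrec.fst
  let Sel : PSet → α → β → Prop := fun X a b => ∃ q : List ℕ × ℕ,
    (bnd q.1 q.2 ∧ (∃ s ∈ cand q.2, s.1.2 = b ∧ ok q.1 a s) ∧
      ∀ t' ∈ List.range q.2, ¬ Ok q.1 a t') ∧ ∀ e ∈ enum q.1, e ∈ X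
  refine ⟨Sel, ?_, ?_⟩
  · apply PS.ex (R := fun X (p : α × β) (q : List ℕ × ℕ) =>
      (bnd q.1 q.2 ∧ (∃ s ∈ cand q.2, s.1.2 = p.2 ∧ ok q.1 p.1 s) ∧
      ∀ t' ∈ List.range q.2, ¬ Ok q.1 p.1 t') ∧ ∀ e ∈ enum q.1, e ∈ X)
    apply PS.and
    · apply PS.of_re
      apply RE.of_pred
      apply PrimrecPred.and
      · exact hbnd.comp Primrec.snd
      · apply PrimrecPred.and
        · have h1 : PrimrecRel fun (s : T) (r : (α × β) × (List ℕ × ℕ)) =>
              s.1.2 = r.1.2 ∧ ok r.2.1 r.1.1 s := by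
            apply PrimrecPred.and
            · exact Primrec.eq.comp (Primrec.snd.comp (Primrec.fst.comp Primrec.fst))
                (Primrec.snd.comp (Primrec.fst.comp Primrec.snd))
            · exact hok.comp (f := fun u : T × ((α × β) × (List ℕ × ℕ)) =>
                ((u.2.2.1, u.2.1.1), u.1)) (Primrec.pair
                (Primrec.pair (Primrec.fst.comp (Primrec.snd.comp Primrec.snd))
                  (Primrec.fst.comp (Primrec.fst.comp Primrec.snd))) Primrec.fst)
          exact h1.exists_mem_list.comp (f := fun r : (α × β) × (List ℕ × ℕ) => cand r.2.2)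
            (g := fun r => r) (hcand.comp (Primrec.snd.comp Primrec.snd)) Primrec.id
        · have h1 : PrimrecRel fun (t' : ℕ) (r : (α × β) × (List ℕ × ℕ)) =>
              ¬ Ok r.2.1 r.1.1 t' := by
            apply PrimrecPred.not
            exact hOk.comp (f := fun u : ℕ × ((α × β) × (List ℕ × ℕ)) =>
                ((u.2.2.1, u.2.1.1), u.1)) (Primrec.pair
                (Primrec.pair (Primrec.fst.comp (Primrec.snd.comp Primrec.snd))
                  (Primrec.fst.comp (Primrec.fst.comp Primrec.snd))) Primrec.fst)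
          exact h1.forall_mem_list.comp
            (f := fun r : (α × β) × (List ℕ × ℕ) => List.range r.2.2)
            (g := fun r => r) (Primrec.list_range.comp (Primrec.snd.comp Primrec.snd)) Primrec.id
    · have h1 : PS fun X (p : Unit × (ℕ × ℕ)) => p.2 ∈ X := PS.mem.comp Primrec.snd
      exact (PS.ball (R := fun X (_ : Unit) e => e ∈ X) h1).comp
        (f := fun r : (α × β) × (List ℕ × ℕ) => ((), enum r.2.1))
        (Primrec.pair (Primrec.const ()) (enum_primrec.comp (Primrec.fst.comp Primrec.snd)))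
  · intro p a
    -- the oracle version
    let OK : ℕ → β → Prop := fun t b => ∃ s ∈ cand t, s.1.2 = b ∧ fin s.1.1 ⊆ G p ∧
      K (s.1.1, (a, s.1.2)) s.2
    have hcandone : ∀ t, ∀ s ∈ cand t, ∀ s' ∈ cand t, s = s' := by
      intro t s hs s' hs'
      simp only [cand, Option.mem_toList] at hs hs'
      have h1 : some s = some s' := (Option.mem_def.1 hs).symm.trans (Option.mem_def.1 hs')
      exact Option.some_injective _ h1
    have hSel : ∀ b, Sel (G p) a b ↔ ∃ t, OK t b ∧ ∀ t' < t, ∀ b', ¬ OK t' b' := by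
      intro b
      constructor
      · rintro ⟨⟨M, t⟩, ⟨hb, ⟨s, hs, hsb, hsok⟩, hmin⟩, hM⟩
        simp only at hb hs hsok hmin hM
        have hM' : M = pre p M.length := (enum_sub p M).1 (fun e he => hM e he)
        have hlt : ∀ t' ≤ t, ∀ s ∈ cand t', (chk M s.1.1 ↔ fin s.1.1 ⊆ G p) := by
          intro t' ht' s hs
          conv_lhs => rw [hM']
          exact chk_pre p _ _ (fun e he => hb t' (by rw [List.mem_range]; omega) s hs e he)
        refine ⟨t, ⟨s, hs, hsb, (hlt t le_rfl s hs).1 hsok.1, hsok.2⟩, ?_⟩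
        rintro t' ht' b' ⟨s', hs', _, h1, h2⟩
        exact hmin t' (List.mem_range.2 ht') ⟨s', hs', (hlt t' ht'.le s' hs').2 h1, h2⟩
      · rintro ⟨t, ⟨s, hs, hsb, h1, h2⟩, hmin⟩
        -- choose a long prefix
        have hlen : ∃ ℓ, ∀ t' ≤ t, ∀ s ∈ cand t', ∀ e ∈ s.1.1, e.1 < ℓ := by
          have h3 : ∀ t', ∃ ℓ, ∀ s ∈ cand t', ∀ e ∈ s.1.1, e.1 < ℓ := by
            intro t'
            cases hd : (decode (α := T) t') with
            | none => exact ⟨0, by simp [cand, hd]⟩
            | some s =>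
              refine ⟨(s.1.1.map (fun e => e.1)).sum + 1, ?_⟩
              intro s' hs' e he
              simp only [cand, hd, Option.mem_toList, Option.some.injEq] at hs'
              subst hs'
              have := List.single_le_sum (l := s.1.1.map (fun e => e.1)) (by simp) e.1
                (List.mem_map.2 ⟨e, he, rfl⟩)
              omega
          choose ℓ hℓ using h3
          refine ⟨(Finset.range (t + 1)).sup ℓ, ?_⟩
          intro t' ht' s hs e he
          exact lt_of_lt_of_le (hℓ t' s hs e he)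
            (Finset.le_sup (f := ℓ) (Finset.mem_range.2 (by omega)))
        obtain ⟨ℓ, hℓ⟩ := hlen
        have hlt : ∀ t' ≤ t, ∀ s ∈ cand t', (chk (pre p ℓ) s.1.1 ↔ fin s.1.1 ⊆ G p) :=
          fun t' ht' s hs => chk_pre p _ _ (hℓ t' ht' s hs)
        refine ⟨(pre p ℓ, t), ⟨?_, ⟨s, hs, hsb, (hlt t le_rfl s hs).2 h1, h2⟩, ?_⟩, ?_⟩
        · intro t' ht' s hs e he
          rw [pre_length]
          exact hℓ t' (by rw [List.mem_range] at ht'; omega) s hs e he
        · rintro t' ht' ⟨s', hs', h3, h4⟩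
          rw [List.mem_range] at ht'
          exact hmin t' ht' s'.1.2 ⟨s', hs', rfl, (hlt t' ht'.le s' hs').1 h3, h4⟩
        · intro e he
          exact (enum_sub p (pre p ℓ)).2 (by simp) he
    have hOKR : ∀ b, (∃ t, OK t b) ↔ R (G p) a b := by
      intro b
      constructor
      · rintro ⟨t, s, hs, rfl, h1, h2⟩
        have h3 : R (fin s.1.1) a s.1.2 := (hK' (s.1.1, (a, s.1.2))).2 ⟨_, h2⟩
        exact h.mono (a := (a, s.1.2)) h1 h3
      · intro hb
        obtain ⟨L, hL, hR⟩ := (h.compact (G p) (a, b)).1 hb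
        obtain ⟨n, hn⟩ := (hK' (L, (a, b))).1 hR
        refine ⟨encode ((L, b), n), ((L, b), n), ?_, rfl, hL, hn⟩
        exact Option.mem_toList.2 (encodek ((L, b), n))
    refine ⟨?_, ?_, ?_⟩
    · intro b hb
      obtain ⟨t, ht, _⟩ := (hSel b).1 hb
      exact (hOKR b).1 ⟨t, ht⟩
    · intro b b' hb hb'
      obtain ⟨t, ht, hmin⟩ := (hSel b).1 hb
      obtain ⟨t', ht', hmin'⟩ := (hSel b').1 hb'
      have h1 : t = t' := by
        rcases lt_trichotomy t t' with h | h | h
        · exact absurd ht (hmin' t h b)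
        · exact h
        · exact absurd ht' (hmin t' h b')
      subst h1
      obtain ⟨s, hs, rfl, _⟩ := ht
      obtain ⟨s', hs', rfl, _⟩ := ht'
      rw [hcandone t s hs s' hs']
    · rintro ⟨b, hb⟩
      obtain ⟨t, ht⟩ := (hOKR b).2 hb
      classical
      have hex : ∃ t b, OK t b := ⟨t, b, ht⟩
      obtain ⟨b0, hb0⟩ := Nat.find_spec hex
      refine ⟨b0, (hSel b0).2 ⟨Nat.find hex, hb0, ?_⟩⟩
      intro t' ht' b' hb'
      exact Nat.find_min hex ht' ⟨b', hb'⟩

end Pool.Agent.Lib.MP_f095a5_lc
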