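import Mathlib

/-!
# Positive Σ₁ relations

A small calculus for enumeration operators (computable functionals).  `RE` are the projections of
primitive recursive relations; `PS R` says that the relation `R X a` between a set `X` of pairs of
numbers and an element `a` of a primcodable type is positive and effectively finitary in `X`.
-/

open Encodable

namespace Pool.Agent.Lib.MP_f095a5_lc

section RE

variable {α β γ : Type*} [Primcodable α] [Primcodable β] [Primcodable γ]

/-- Σ₁ predicates: projections of primitive recursive relations. -/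
def RE (P : α → Prop) : Prop :=
  ∃ R : α → ℕ → Prop, PrimrecRel R ∧ ∀ a, P a ↔ ∃ n, R a n

theorem RE.of_eq {P Q : α → Prop} (h : RE P) (e : ∀ a, P a ↔ Q a) : RE Q := by
  obtain ⟨R, hR, hP⟩ := h
  exact ⟨R, hR, fun a => (e a).symm.trans (hP a)⟩

theorem RE.of_pred {P : α → Prop} (h : PrimrecPred P) : RE P :=
  ⟨fun a _ => P a, h.comp Primrec.fst, fun a => by simp⟩

theorem RE.comp {P : α → Prop} (h : RE P) {f : β → α} (hf : Primrec f) :
    RE (fun b => P (f b)) := by
  obtain ⟨R, hR, hP⟩ := h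
  exact ⟨fun b n => R (f b) n, hR.comp (hf.comp Primrec.fst) Primrec.snd, fun b => hP (f b)⟩

theorem RE.and {P Q : α → Prop} (hP : RE P) (hQ : RE Q) : RE (fun a => P a ∧ Q a) := by
  obtain ⟨R, hR, eP⟩ := hP
  obtain ⟨T, hT, eQ⟩ := hQ
  refine ⟨fun a m => R a m.unpair.1 ∧ T a m.unpair.2, ?_, fun a => ?_⟩
  · exact (hR.comp Primrec.fst (Primrec.fst.comp (Primrec.unpair.comp Primrec.snd))).and
      (hT.comp Primrec.fst (Primrec.snd.comp (Primrec.unpair.comp Primrec.snd)))
  · beta_reduce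
    rw [eP, eQ]
    constructor
    · rintro ⟨⟨n, hn⟩, ⟨m, hm⟩⟩
      exact ⟨Nat.pair n m, by simpa using hn, by simpa using hm⟩
    · rintro ⟨m, h1, h2⟩
      exact ⟨⟨_, h1⟩, ⟨_, h2⟩⟩

theorem RE.or {P Q : α → Prop} (hP : RE P) (hQ : RE Q) : RE (fun a => P a ∨ Q a) := by
  obtain ⟨R, hR, eP⟩ := hP
  obtain ⟨T, hT, eQ⟩ := hQ
  refine ⟨fun a m => R a m ∨ T a m, ?_, fun a => ?_⟩
  · exact (hR.comp Primrec.fst Primrec.snd).or (hT.comp Primrec.fst Primrec.snd)
  · beta_reduce
    rw [eP, eQ]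
    constructor
    · rintro (⟨n, hn⟩ | ⟨m, hm⟩)
      · exact ⟨n, Or.inl hn⟩
      · exact ⟨m, Or.inr hm⟩
    · rintro ⟨m, h1 | h2⟩
      · exact Or.inl ⟨_, h1⟩
      · exact Or.inr ⟨_, h2⟩

theorem RE.ex {P : α → β → Prop} (h : RE fun p : α × β => P p.1 p.2) :
    RE fun a => ∃ b, P a b := by
  obtain ⟨R, hR, hP⟩ := h
  refine ⟨fun a m => ∃ b ∈ (decode (α := β) m.unpair.1).toList, R (a, b) m.unpair.2, ?_, ?_⟩
  · have h1 : PrimrecRel fun (b : β) (c : α × ℕ) => R (c.1, b) c.2.unpair.2 :=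
      hR.comp (Primrec.pair (Primrec.fst.comp Primrec.snd) Primrec.fst)
        (Primrec.snd.comp (Primrec.unpair.comp (Primrec.snd.comp Primrec.snd)))
    have h2 := h1.exists_mem_list
    exact h2.comp (f := fun c : α × ℕ => (decode (α := β) c.2.unpair.1).toList) (g := fun c => c)
      (Primrec.optionToList.comp (Primrec.decode.comp
        (Primrec.fst.comp (Primrec.unpair.comp Primrec.snd)))) Primrec.id
  · intro a
    constructor
    · rintro ⟨b, hb⟩
      obtain ⟨n, hn⟩ := (hP (a, b)).1 hb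
      exact ⟨Nat.pair (encode b) n, b, by simp, by simpa using hn⟩
    · rintro ⟨m, b, _, hm⟩
      exact ⟨b, (hP (a, b)).2 ⟨_, hm⟩⟩

theorem RE.ball {P : α → β → Prop} (h : RE fun p : α × β => P p.1 p.2) :
    RE fun p : α × List β => ∀ b ∈ p.2, P p.1 b := by
  obtain ⟨R, hR, hP⟩ := h
  refine ⟨fun p N => ∀ b ∈ p.2, ∃ n ∈ List.range N, R (p.1, b) n, ?_, ?_⟩
  · have h0 : PrimrecRel fun (n : ℕ) (c : β × ((α × List β) × ℕ)) => R (c.2.1.1, c.1) n :=
      hR.comp (Primrec.pair (Primrec.fst.comp (Primrec.fst.comp (Primrec.snd.comp Primrec.snd)))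
        (Primrec.fst.comp Primrec.snd)) Primrec.fst
    have h1 : PrimrecRel fun (b : β) (c : (α × List β) × ℕ) =>
        ∃ n ∈ List.range c.2, R (c.1.1, b) n :=
      h0.exists_mem_list.comp (f := fun c : β × ((α × List β) × ℕ) => List.range c.2.2)
        (g := fun c => c) (Primrec.list_range.comp (Primrec.snd.comp Primrec.snd)) Primrec.id
    exact h1.forall_mem_list.comp (f := fun c : (α × List β) × ℕ => c.1.2) (g := fun c => c)
      (Primrec.snd.comp Primrec.fst) Primrec.id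
  · rintro ⟨a, l⟩
    simp only
    induction l with
    | nil => simp
    | cons b l ih =>
      simp only [List.mem_cons, forall_eq_or_imp]
      have hPb : P a b ↔ ∃ n, R (a, b) n := hP (a, b)
      rw [ih, hPb]
      constructor
      · rintro ⟨⟨n, hn⟩, N, hN⟩
        refine ⟨max (n + 1) N, ⟨n, by simp, hn⟩, fun c hc => ?_⟩
        obtain ⟨m, hm, hm'⟩ := hN c hc
        refine ⟨m, ?_, hm'⟩
        rw [List.mem_range] at hm ⊢
        exact lt_of_lt_of_le hm (le_max_right _ _)
      · rintro ⟨N, ⟨n, _, hn⟩, hN⟩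
        exact ⟨⟨n, hn⟩, N, hN⟩

/-- The graph of a computable function is Σ₁. -/
theorem RE.graph {f : ℕ → ℕ} (hf : Computable f) : RE fun p : ℕ × ℕ => f p.1 = p.2 := by
  have h1 : Nat.Partrec (fun n => Part.some (f n)) := by
    exact Partrec.nat_iff.1 hf
  obtain ⟨c, hc⟩ := Nat.Partrec.Code.exists_code.1 h1
  refine ⟨fun p k => Nat.Partrec.Code.evaln k c p.1 = some p.2, ?_, fun p => ?_⟩
  · exact Primrec.eq.comp
      (Nat.Partrec.Code.primrec_evaln.comp
        (Primrec.pair (Primrec.pair Primrec.snd (Primrec.const c))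
          (Primrec.fst.comp Primrec.fst)))
      (Primrec.option_some.comp (Primrec.snd.comp Primrec.fst))
  · have h2 : f p.1 = p.2 ↔ p.2 ∈ c.eval p.1 := by
      rw [hc]; simp [eq_comm]
    beta_reduce
    rw [h2, Nat.Partrec.Code.evaln_complete]
    rfl

end RE

/-- Sets of pairs of numbers: incomplete information on an element of Baire space. -/
abbrev PSet := Set (ℕ × ℕ)

/-- The finite set given by a list. -/
def fin (L : List (ℕ × ℕ)) : PSet := {b | b ∈ L}

@[simp] theorem mem_fin {L : List (ℕ × ℕ)} {b : ℕ × ℕ} : b ∈ fin L ↔ b ∈ L := Iff.rfl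

section PS

variable {α β γ : Type*} [Primcodable α] [Primcodable β] [Primcodable γ]

/-- Positive, effectively finitary relations between a set of pairs and an element of `α`. -/
structure PS (R : PSet → α → Prop) : Prop where
  re : RE fun p : List (ℕ × ℕ) × α => R (fin p.1) p.2
  compact : ∀ X a, R X a ↔ ∃ L, fin L ⊆ X ∧ R (fin L) a

theorem PS.mono {R : PSet → α → Prop} (h : PS R) {X Y : PSet} (hXY : X ⊆ Y) {a : α}
    (ha : R X a) : R Y a := by
  obtain ⟨L, hL, hR⟩ := (h.compact X a).1 ha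
  exact (h.compact Y a).2 ⟨L, hL.trans hXY, hR⟩

theorem PS.mk' {R : PSet → α → Prop} (hre : RE fun p : List (ℕ × ℕ) × α => R (fin p.1) p.2)
    (hm : ∀ X Y a, X ⊆ Y → R X a → R Y a)
    (hc : ∀ X a, R X a → ∃ L, fin L ⊆ X ∧ R (fin L) a) : PS R :=
  ⟨hre, fun X a => ⟨hc X a, fun ⟨_, hL, h⟩ => hm _ _ a hL h⟩⟩

theorem PS.of_eq {R T : PSet → α → Prop} (h : PS R) (e : ∀ X a, R X a ↔ T X a) : PS T := by
  have : R = T := by funext X a; exact propext (e X a)
  exact this ▸ h

theorem fin_append (L M : List (ℕ × ℕ)) : fin (L ++ M) = fin L ∪ fin M := by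
  ext b; simp [fin]

theorem PS.of_re {P : α → Prop} (h : RE P) : PS fun _ a => P a :=
  PS.mk' (h.comp Primrec.snd) (fun _ _ _ _ h => h)
    (fun X a ha => ⟨[], by intro b hb; simp at hb, ha⟩)

theorem PS.mem : PS fun X (b : ℕ × ℕ) => b ∈ X := by
  refine PS.mk' ?_ (fun _ _ _ hXY h => hXY h) (fun X b hb => ⟨[b], ?_, by simp⟩)
  · apply RE.of_pred
    have h1 : PrimrecRel fun (c b : ℕ × ℕ) => c = b := Primrec.eq
    exact (h1.exists_mem_list.comp (f := fun p : List (ℕ × ℕ) × (ℕ × ℕ) => p.1)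
      (g := fun p => p.2) Primrec.fst Primrec.snd).of_eq (by simp)
  · intro c hc
    simp at hc
    rw [hc]; exact hb

theorem PS.comp {R : PSet → α → Prop} (h : PS R) {f : β → α} (hf : Primrec f) :
    PS fun X b => R X (f b) :=
  PS.mk' ((h.re.comp (Primrec.pair Primrec.fst (hf.comp Primrec.snd))))
    (fun _ _ _ hXY h' => h.mono hXY h') (fun X b hb => (h.compact X (f b)).1 hb)

theorem PS.and {R T : PSet → α → Prop} (hR : PS R) (hT : PS T) :
    PS fun X a => R X a ∧ T X a := by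
  refine PS.mk' (hR.re.and hT.re) (fun _ _ _ hXY h => ⟨hR.mono hXY h.1, hT.mono hXY h.2⟩) ?_
  rintro X a ⟨h1, h2⟩
  obtain ⟨L, hL, hL'⟩ := (hR.compact X a).1 h1
  obtain ⟨M, hM, hM'⟩ := (hT.compact X a).1 h2
  refine ⟨L ++ M, ?_, hR.mono ?_ hL', hT.mono ?_ hM'⟩
  · rw [fin_append]; exact Set.union_subset hL hM
  · rw [fin_append]; exact Set.subset_union_left
  · rw [fin_append]; exact Set.subset_union_right

theorem PS.or {R T : PSet → α → Prop} (hR : PS R) (hT : PS T) :
    PS fun X a => R X a ∨ T X a := by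
  refine PS.mk' (hR.re.or hT.re)
    (fun _ _ _ hXY h => h.elim (fun h => Or.inl (hR.mono hXY h)) fun h => Or.inr (hT.mono hXY h)) ?_
  rintro X a (h1 | h2)
  · obtain ⟨L, hL, hL'⟩ := (hR.compact X a).1 h1
    exact ⟨L, hL, Or.inl hL'⟩
  · obtain ⟨M, hM, hM'⟩ := (hT.compact X a).1 h2
    exact ⟨M, hM, Or.inr hM'⟩

theorem PS.ex {R : PSet → α → β → Prop} (h : PS fun X (p : α × β) => R X p.1 p.2) :
    PS fun X a => ∃ b, R X a b := by
  refine PS.mk' ?_ ?_ ?_
  · exact RE.ex (P := fun (p : List (ℕ × ℕ) × α) b => R (fin p.1) p.2 b)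
      (h.re.comp (f := fun q : (List (ℕ × ℕ) × α) × β => (q.1.1, (q.1.2, q.2)))
        (Primrec.pair (Primrec.fst.comp Primrec.fst)
          (Primrec.pair (Primrec.snd.comp Primrec.fst) Primrec.snd)))
  · rintro X Y a hXY ⟨b, hb⟩
    exact ⟨b, h.mono (a := (a, b)) hXY hb⟩
  · rintro X a ⟨b, hb⟩
    obtain ⟨L, hL, hL'⟩ := (h.compact X (a, b)).1 hb
    exact ⟨L, hL, b, hL'⟩

theorem PS.ball {R : PSet → α → β → Prop} (h : PS fun X (p : α × β) => R X p.1 p.2) :
    PS fun X (p : α × List β) => ∀ b ∈ p.2, R X p.1 b := by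
  refine PS.mk' ?_ ?_ ?_
  · have h1 := RE.ball (P := fun (p : List (ℕ × ℕ) × α) b => R (fin p.1) p.2 b)
      (h.re.comp (f := fun q : (List (ℕ × ℕ) × α) × β => (q.1.1, (q.1.2, q.2)))
        (Primrec.pair (Primrec.fst.comp Primrec.fst)
          (Primrec.pair (Primrec.snd.comp Primrec.fst) Primrec.snd)))
    exact h1.comp (f := fun q : List (ℕ × ℕ) × (α × List β) => ((q.1, q.2.1), q.2.2))
      (Primrec.pair (Primrec.pair Primrec.fst (Primrec.fst.comp Primrec.snd))
        (Primrec.snd.comp Primrec.snd))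
  · intro X Y p hXY hb b hb'
    exact h.mono (a := (p.1, b)) hXY (hb b hb')
  · rintro X ⟨a, l⟩ hb
    simp only at hb ⊢
    induction l with
    | nil => exact ⟨[], by intro b hb; simp at hb, by simp⟩
    | cons c l ih =>
      obtain ⟨L, hL, hL'⟩ := ih (fun b hb' => hb b (List.mem_cons_of_mem _ hb'))
      obtain ⟨M, hM, hM'⟩ := (h.compact X (a, c)).1 (hb c List.mem_cons_self)
      refine ⟨L ++ M, ?_, ?_⟩
      · rw [fin_append]; exact Set.union_subset hL hM
      · intro b hb'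
        rw [List.mem_cons] at hb'
        rcases hb' with rfl | hb'
        · refine h.mono (a := (a, b)) ?_ hM'
          rw [fin_append]; exact Set.subset_union_right
        · refine h.mono (a := (a, b)) ?_ (hL' b hb')
          rw [fin_append]; exact Set.subset_union_left

/-- Substitution of an enumeration operator. -/
theorem PS.subst {R : PSet → β → Prop} (hR : PS R) {Q : PSet → α → PSet}
    (hQ : PS fun X (p : α × (ℕ × ℕ)) => p.2 ∈ Q X p.1) {f : α → β} (hf : Primrec f) :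
    PS fun X a => R (Q X a) (f a) := by
  have h1 : PS fun X a => ∃ L : List (ℕ × ℕ), (∀ b ∈ L, b ∈ Q X a) ∧ R (fin L) (f a) := by
    apply PS.ex (R := fun X a (L : List (ℕ × ℕ)) => (∀ b ∈ L, b ∈ Q X a) ∧ R (fin L) (f a))
    apply PS.and
    · exact PS.ball (R := fun X a b => b ∈ Q X a) hQ
    · apply PS.of_re
      exact hR.re.comp (f := fun p : α × List (ℕ × ℕ) => (p.2, f p.1))
        (Primrec.pair Primrec.snd (hf.comp Primrec.fst))
  exact h1.of_eq fun X a => (hR.compact (Q X a) (f a)).symm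

end PS

end Pool.Agent.Lib.MP_f095a5_lc
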